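import Mathlib

/-! A general simulation lemma for transition systems. -/

set_option autoImplicit false

namespace Pool.Agent.Heads

/-- `ReachN step a0 t a`: `a` is reached from `a0` in `t` steps. -/
inductive ReachN {A : Type} (step : A → A → Prop) (a0 : A) : ℕ → A → Prop
  | zero : ReachN step a0 0 a0
  | succ {t : ℕ} {a a' : A} : ReachN step a0 t a → step a a' → ReachN step a0 (t + 1) a'

/-- A simulation: `b` runs deterministically (with decreasing measure) between the simulated
steps. -/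
structure Sim {A B : Type} (stepA : A → A → Prop) (a0 : A) (stepB : B → B → Prop) (b0 : B)
    (R : ℕ → B → A → Prop) (meas : B → A → ℕ) : Prop where
  init : R 0 b0 a0
  step : ∀ t b a, R t b a →
    ((∃ b', stepB b b') ∧ ∀ b', stepB b b' → R (t + 1) b' a ∧ meas b' a < meas b a) ∨
    ((∀ b', stepB b b' → ∃ a', stepA a a' ∧ R (t + 1) b' a') ∧
      (∀ a', stepA a a' → ∃ b', stepB b b' ∧ R (t + 1) b' a'))

variable {A B : Type} {stepA : A → A → Prop} {a0 : A} {stepB : B → B → Prop} {b0 : B}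
  {R : ℕ → B → A → Prop} {meas : B → A → ℕ}

lemma Sim.sound (h : Sim stepA a0 stepB b0 R meas) {t : ℕ} {b : B}
    (hb : ReachN stepB b0 t b) : ∃ a t', ReachN stepA a0 t' a ∧ R t b a := by
  induction hb with
  | zero => exact ⟨a0, 0, ReachN.zero, h.init⟩
  | succ hr hs ih =>
    obtain ⟨a, t', ha, hR⟩ := ih
    rcases h.step _ _ _ hR with ⟨-, h1⟩ | ⟨h1, -⟩
    · exact ⟨a, t', ha, (h1 _ hs).1⟩
    · obtain ⟨a', h2, h3⟩ := h1 _ hs
      exact ⟨a', t' + 1, ReachN.succ ha h2, h3⟩

lemma Sim.complete (h : Sim stepA a0 stepB b0 R meas) {t' : ℕ} {a : A}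
    (ha : ReachN stepA a0 t' a) : ∃ b t, ReachN stepB b0 t b ∧ R t b a := by
  induction ha with
  | zero => exact ⟨b0, 0, ReachN.zero, h.init⟩
  | @succ t' a a' hr hs ih =>
    obtain ⟨b, t, hb, hR⟩ := ih
    have key : ∀ (m t : ℕ) (b : B), ReachN stepB b0 t b → R t b a → meas b a ≤ m →
        ∃ b t, ReachN stepB b0 t b ∧ R t b a' := by
      intro m
      induction m with
      | zero =>
        intro t b hb hR hm
        rcases h.step _ _ _ hR with ⟨⟨b', hb'⟩, h1⟩ | ⟨-, h1⟩
        · have := (h1 b' hb').2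
          omega
        · obtain ⟨b', h2, h3⟩ := h1 _ hs
          exact ⟨b', t + 1, ReachN.succ hb h2, h3⟩
      | succ m ih =>
        intro t b hb hR hm
        rcases h.step _ _ _ hR with ⟨⟨b', hb'⟩, h1⟩ | ⟨-, h1⟩
        · have h2 := h1 b' hb'
          exact ih (t + 1) b' (ReachN.succ hb hb') h2.1 (by omega)
        · obtain ⟨b', h2, h3⟩ := h1 _ hs
          exact ⟨b', t + 1, ReachN.succ hb h2, h3⟩
    exact key _ t b hb hR le_rfl

end Pool.Agent.Heads
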