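import Mathlib

/-!
Definitions for problem MP_5e85fc_lc: two-way multihead pushdown automata and two-way multihead
finite automata.
-/

set_option autoImplicit false

namespace Pool.Agent.Heads

/-- What a head scans: the left endmarker, an input letter, or the right endmarker. -/
inductive Sym (α : Type) where
  | left : Sym α
  | letter : α → Sym α
  | right : Sym α

/-- Head moves: left, stay, right. -/
inductive Dir where
  | L | S | R

/-- Stack operations: none, push one symbol, pop one symbol. -/
inductive Op (Γ : Type) where
  | none : Op Γ
  | push : Γ → Op Γ
  | pop : Op Γ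

/-- The symbol on tape cell `p`, the tape being `⊢ w ⊣`: cell `0` holds the left endmarker,
cells `1, …, |w|` the letters of `w`, the cells from `|w| + 1` on the right endmarker. -/
def tape {α : Type} (w : List α) : ℕ → Sym α
  | 0 => Sym.left
  | p + 1 => match w[p]? with
    | some a => Sym.letter a
    | none => Sym.right

/-- The cell reached from cell `p` of a tape with cells `0, …, N`; a head does not leave the
tape (a move off the tape leaves it where it is). -/
def move (N : ℕ) (p : ℕ) : Dir → ℕ
  | Dir.L => p - 1
  | Dir.S => p
  | Dir.R => min (p + 1) N

/-- The effect of a stack operation; the top of the stack is the head of the list. -/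
def Op.apply {Γ : Type} : Op Γ → List Γ → List Γ
  | Op.none, s => s
  | Op.push g, s => g :: s
  | Op.pop, s => s.tail

/-- Configurations of a pushdown automaton with state set `Q`, stack alphabet `Γ` and head
positions in `P`: state, head positions, stack. -/
structure Cfg (Q P Γ : Type) where
  state : Q
  pos : P
  stack : List Γ

/-- A two-way `k`-head nondeterministic pushdown automaton over the alphabet `α`. A step depends
on the state, the `k` scanned symbols and the top stack symbol (`none` if the stack is empty). -/
structure PDA (α : Type) (k : ℕ) where
  Q : Type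
  Γ : Type
  finQ : Finite Q
  finΓ : Finite Γ
  start : Q
  accept : Set Q
  δ : Q → (Fin k → Sym α) → Option Γ → Set (Q × (Fin k → Dir) × Op Γ)

namespace PDA

variable {α : Type} {k : ℕ} (M : PDA α k)

/-- One step on input `w`. -/
def Step (w : List α) (c c' : Cfg M.Q (Fin k → ℕ) M.Γ) : Prop :=
  ∃ t ∈ M.δ c.state (fun i => tape w (c.pos i)) c.stack.head?,
    c' = ⟨t.1, fun i => move (w.length + 1) (c.pos i) (t.2.1 i), t.2.2.apply c.stack⟩

/-- The initial configuration: initial state, all heads on the left endmarker, empty stack. -/
def init : Cfg M.Q (Fin k → ℕ) M.Γ := ⟨M.start, fun _ => 0, []⟩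

/-- `M.Reach w t c`: on input `w`, some computation is in configuration `c` after `t` steps. -/
inductive Reach (w : List α) : ℕ → Cfg M.Q (Fin k → ℕ) M.Γ → Prop
  | zero : Reach w 0 M.init
  | succ {t : ℕ} {c c' : Cfg M.Q (Fin k → ℕ) M.Γ} :
      Reach w t c → M.Step w c c' → Reach w (t + 1) c'

/-- `M` accepts `w` if some computation reaches an accepting state. -/
def Accepts (w : List α) : Prop := ∃ t c, M.Reach w t c ∧ c.state ∈ M.accept

/-- The language accepted by `M`. -/
def lang : Set (List α) := {w | M.Accepts w}

/-- `M` is deterministic: at most one step is possible in each situation. -/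
def Det : Prop := ∀ q x g, (M.δ q x g).Subsingleton

end PDA

/-- The head position, at time `t`, of a head that starts on cell `0` of a tape with cells
`0, …, N`, moves at every step, and turns exactly at the two ends of the tape. -/
def tri (N t : ℕ) : ℕ := if t % (2 * N) ≤ N then t % (2 * N) else 2 * N - t % (2 * N)

/-- A one-head automaton is sweeping: on every input `w` the head moves at every step and turns
exactly at the endmarkers; so its position after `t` steps is `tri (|w| + 1) t`. -/
def PDA.Sweeping {α : Type} (M : PDA α 1) : Prop :=
  ∀ w t c, M.Reach w t c → c.pos 0 = tri (w.length + 1) t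

/-- The steps at times `t` and `t'` are made in the same sweep of a head with trajectory
`tri N`: in the same left-to-right sweep (steps made on cells `0, …, N`) or in the same
right-to-left sweep (steps made on cells `N - 1, …, 1`). -/
def SameSweep (N t t' : ℕ) : Prop :=
  t / (2 * N) = t' / (2 * N) ∧ (t % (2 * N) ≤ N ↔ t' % (2 * N) ≤ N)

/-- `M` never pops after a push in the same sweep: along every computation
`r 0, r 1, …, r T`, if the stack grows at time `t`, then it does not shrink at any later time
`t'` of the same sweep. -/
def PDA.PopThenPush {α : Type} (M : PDA α 1) : Prop :=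
  ∀ (w : List α) (T : ℕ) (r : ℕ → Cfg M.Q (Fin 1 → ℕ) M.Γ), r 0 = M.init →
    (∀ t < T, M.Step w (r t) (r (t + 1))) →
    ∀ t t' : ℕ, t < t' → t' < T → SameSweep (w.length + 1) t t' →
      (r t).stack.length < (r (t + 1)).stack.length →
      (r t').stack.length ≤ (r (t' + 1)).stack.length

/-- A two-way nondeterministic finite automaton with `k` input heads. -/
structure FA (α : Type) (k : ℕ) where
  Q : Type
  finQ : Finite Q
  start : Q
  accept : Set Q
  δ : Q → (Fin k → Sym α) → Set (Q × (Fin k → Dir))

namespace FA

variable {α : Type} {k : ℕ} (M : FA α k)

/-- One step on input `w`, between pairs (state, head positions). -/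
def Step (w : List α) (c c' : M.Q × (Fin k → ℕ)) : Prop :=
  ∃ t ∈ M.δ c.1 (fun i => tape w (c.2 i)),
    c' = (t.1, fun i => move (w.length + 1) (c.2 i) (t.2 i))

/-- `M` accepts `w` if some computation reaches an accepting state. -/
def Accepts (w : List α) : Prop :=
  ∃ c, Relation.ReflTransGen (M.Step w) (M.start, fun _ => 0) c ∧ c.1 ∈ M.accept

/-- The language accepted by `M`. -/
def lang : Set (List α) := {w | M.Accepts w}

/-- `M` is deterministic. -/
def Det : Prop := ∀ q x, (M.δ q x).Subsingleton

end FA

end Pool.Agent.Heads
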