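import Pool.Agent.Lib_helper16.Heads.Sep

/-!
The language `a^n b^n` is accepted by a deterministic one-head pushdown automaton and is not
regular.
-/

set_option autoImplicit false

namespace Pool.Agent.Heads

/-- The language of the words `a^n b^n`. -/
def anbn : Set (List Bool) := {w | ∃ n, w = List.replicate n true ++ List.replicate n false}

/-- States of the automaton for `anbn`. -/
inductive AQ where
  | st | ra | rb | acc

instance : Finite AQ := by
  refine Finite.of_injective (fun q : AQ => match q with
    | .st => (0 : Fin 4)
    | .ra => 1
    | .rb => 2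
    | .acc => 3) ?_
  intro a b h
  cases a <;> cases b <;> simp_all

/-- The transitions. -/
def aδ : AQ → Sym Bool → Option Unit → Set (AQ × Dir × Op Unit)
  | .st, _, _ => {(.ra, Dir.R, Op.none)}
  | .ra, Sym.letter true, _ => {(.ra, Dir.R, Op.push ())}
  | .ra, Sym.letter false, some _ => {(.rb, Dir.R, Op.pop)}
  | .ra, Sym.right, none => {(.acc, Dir.S, Op.none)}
  | .rb, Sym.letter false, some _ => {(.rb, Dir.R, Op.pop)}
  | .rb, Sym.right, none => {(.acc, Dir.S, Op.none)}
  | _, _, _ => ∅

/-- The machine. -/
def aMach : Mach (Sym Bool) Dir where
  Q := AQ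
  Γ := Unit
  finQ := inferInstance
  finΓ := inferInstance
  start := .st
  accept := {.acc}
  δ := aδ

lemma aMach_det : aMach.Det := by
  intro q b g
  show (aδ q b g).Subsingleton
  rcases q with _ | _ | _ | _ <;> rcases b with _ | (_ | _) | _ <;> rcases g with _ | _ <;>
    first
      | exact Set.subsingleton_singleton
      | exact Set.subsingleton_empty

lemma tape_append (u v : List Bool) :
    tape (u ++ v) (u.length + 1) = match v with
      | [] => Sym.right
      | a :: _ => Sym.letter a := by
  cases v with
  | nil => simp [tape]
  | cons a v => simp [tape]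

/-- The invariant. -/
def aInv (w : List Bool) (c : Cfg AQ ℕ Unit) : Prop :=
  match c.state with
  | .st => c.pos = 0 ∧ c.stack = []
  | .ra => ∃ i v, w = List.replicate i true ++ v ∧ c.pos = i + 1 ∧
      c.stack = List.replicate i ()
  | .rb => ∃ i j v, w = (List.replicate i true ++ List.replicate j false) ++ v ∧ j ≤ i ∧
      c.pos = i + j + 1 ∧ c.stack = List.replicate (i - j) ()
  | .acc => w ∈ anbn

lemma aInv_step (w : List Bool) (c c' : Cfg AQ ℕ Unit) (h : aInv w c)
    (hs : aMach.Step (headDev Bool) w c c') : aInv w c' := by
  obtain ⟨tr, htr, rfl⟩ := hs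
  obtain ⟨q, p, s⟩ := c
  have htr' : tr ∈ aδ q (tape w p) s.head? := htr
  cases q with
  | st =>
    obtain ⟨hp, hs⟩ := h
    simp only at hp hs
    subst hp hs
    have e : tr = (.ra, Dir.R, Op.none) := htr'
    subst e
    refine ⟨0, w, rfl, ?_, rfl⟩
    show move (w.length + 1) 0 Dir.R = 1
    simp [move]
  | ra =>
    obtain ⟨i, v, rfl, hp, hs⟩ := h
    simp only at hp hs
    subst hp hs
    have ht := tape_append (List.replicate i true) v
    rw [List.length_replicate] at ht
    rw [ht] at htr'
    have hmv : v ≠ [] → move ((List.replicate i true ++ v).length + 1) (i + 1) Dir.R =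
        i + 2 := by
      intro hv
      have : 0 < v.length := List.length_pos_iff.2 hv
      simp only [move, List.length_append, List.length_replicate]
      omega
    rcases v with _ | ⟨(_ | _), v⟩
    · cases i with
      | zero =>
        have e : tr = (.acc, Dir.S, Op.none) := htr'
        subst e
        exact ⟨0, rfl⟩
      | succ i => exact absurd htr' (Set.notMem_empty _)
    · cases i with
      | zero => exact absurd htr' (Set.notMem_empty _)
      | succ i =>
        have e : tr = (.rb, Dir.R, Op.pop) := htr'
        subst e
        refine ⟨i + 1, 1, v, ?_, by omega, ?_, ?_⟩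
        · simp
        · exact hmv (by simp)
        · show (List.replicate (i + 1) ()).tail = _
          simp [List.replicate_succ]
    · have e : tr = (.ra, Dir.R, Op.push ()) := htr'
      subst e
      refine ⟨i + 1, v, ?_, ?_, ?_⟩
      · rw [List.replicate_succ']
        simp
      · exact hmv (by simp)
      · show () :: List.replicate i () = _
        rw [List.replicate_succ]
  | rb =>
    obtain ⟨i, j, v, rfl, hji, hp, hs⟩ := h
    simp only at hp hs
    subst hp hs
    have ht := tape_append (List.replicate i true ++ List.replicate j false) v
    rw [List.length_append, List.length_replicate, List.length_replicate] at ht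
    rw [ht] at htr'
    rcases v with _ | ⟨(_ | _), v⟩
    · rcases Nat.eq_zero_or_pos (i - j) with h0 | h0
      · rw [h0] at htr'
        have e : tr = (.acc, Dir.S, Op.none) := htr'
        subst e
        have : i = j := by omega
        subst this
        exact ⟨i, by simp⟩
      · obtain ⟨m, hm⟩ : ∃ m, i - j = m + 1 := ⟨i - j - 1, by omega⟩
        rw [hm] at htr'
        exact absurd htr' (Set.notMem_empty _)
    · rcases Nat.eq_zero_or_pos (i - j) with h0 | h0
      · rw [h0] at htr'
        exact absurd htr' (Set.notMem_empty _)
      · obtain ⟨m, hm⟩ : ∃ m, i - j = m + 1 := ⟨i - j - 1, by omega⟩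
        rw [hm] at htr'
        have e : tr = (.rb, Dir.R, Op.pop) := htr'
        subst e
        refine ⟨i, j + 1, v, ?_, by omega, ?_, ?_⟩
        · rw [List.replicate_succ']
          simp
        · show move (((List.replicate i true ++ List.replicate j false) ++ false :: v).length + 1)
            (i + j + 1) Dir.R = _
          simp only [move, List.length_append, List.length_replicate, List.length_cons]
          omega
        · show (List.replicate (i - j) ()).tail = _
          rw [hm, List.replicate_succ, List.tail_cons]
          congr 1
          omega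
    · exact absurd htr' (by
        rcases (List.replicate (i - j) ()).head? with _ | _ <;> exact Set.notMem_empty _)
  | acc =>
    exact absurd htr' (by
      show tr ∉ aδ .acc (tape w p) s.head?
      rcases tape w p with _ | (_ | _) | _ <;> rcases s.head? with _ | _ <;>
        exact Set.notMem_empty _)

lemma aInv_reach (w : List Bool) (t : ℕ) (c : Cfg AQ ℕ Unit)
    (h : aMach.Reach (headDev Bool) w t c) : aInv w c := by
  induction h with
  | zero => exact ⟨rfl, rfl⟩
  | succ h1 h2 ih => exact aInv_step w _ _ ih h2

lemma a_reach_ra (v : List Bool) (m i : ℕ) (h : i ≤ m) :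
    aMach.Reach (headDev Bool) (List.replicate m true ++ v) (i + 1)
      ⟨.ra, i + 1, List.replicate i ()⟩ := by
  induction i with
  | zero =>
    refine ReachN.succ ReachN.zero ⟨(.ra, Dir.R, Op.none), rfl, ?_⟩
    show _ = (⟨AQ.ra, move ((List.replicate m true ++ v).length + 1) 0 Dir.R, []⟩ :
      Cfg AQ ℕ Unit)
    have : move ((List.replicate m true ++ v).length + 1) 0 Dir.R = 1 := by simp [move]
    rw [this]
    rfl
  | succ i ih =>
    have h1 := ih (by omega)
    obtain ⟨d, hd⟩ : ∃ d, m = i + (d + 1) := ⟨m - i - 1, by omega⟩
    have hsplit : List.replicate m true ++ v =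
        List.replicate i true ++ (true :: (List.replicate d true ++ v)) := by
      rw [hd, List.replicate_add, List.replicate_succ]
      simp
    have ht := tape_append (List.replicate i true) (true :: (List.replicate d true ++ v))
    rw [← hsplit, List.length_replicate] at ht
    refine ReachN.succ h1 ⟨(.ra, Dir.R, Op.push ()), ?_, ?_⟩
    · show _ ∈ aδ .ra (tape _ (i + 1)) _
      rw [ht]
      exact Set.mem_singleton _
    · show _ = (⟨AQ.ra, move ((List.replicate m true ++ v).length + 1) (i + 1) Dir.R,
        () :: List.replicate i ()⟩ : Cfg AQ ℕ Unit)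
      have : move ((List.replicate m true ++ v).length + 1) (i + 1) Dir.R = i + 2 := by
        simp only [move, List.length_append, List.length_replicate]
        omega
      rw [this]
      rfl

lemma a_reach_rb (n j : ℕ) (h : j + 1 ≤ n) :
    aMach.Reach (headDev Bool) (List.replicate n true ++ List.replicate n false) (n + j + 2)
      ⟨.rb, n + j + 2, List.replicate (n - (j + 1)) ()⟩ := by
  induction j with
  | zero =>
    have h1 := a_reach_ra (List.replicate n false) n n le_rfl
    obtain ⟨d, hd⟩ : ∃ d, n = d + 1 := ⟨n - 1, by omega⟩
    have ht := tape_append (List.replicate n true) (List.replicate n false)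
    rw [List.length_replicate] at ht
    refine ReachN.succ h1 ⟨(.rb, Dir.R, Op.pop), ?_, ?_⟩
    · show _ ∈ aδ .ra (tape _ (n + 1)) (List.replicate n ()).head?
      rw [ht, hd]
      exact Set.mem_singleton _
    · show _ = (⟨AQ.rb, move ((List.replicate n true ++ List.replicate n false).length + 1)
        (n + 1) Dir.R, (List.replicate n ()).tail⟩ : Cfg AQ ℕ Unit)
      have : move ((List.replicate n true ++ List.replicate n false).length + 1) (n + 1)
          Dir.R = n + 0 + 2 := by
        simp only [move, List.length_append, List.length_replicate]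
        omega
      rw [this, List.tail_replicate]
      rfl
  | succ j ih =>
    have h1 := ih (by omega)
    obtain ⟨d, hd⟩ : ∃ d, n = (j + 1) + (d + 1) := ⟨n - j - 2, by omega⟩
    have hsplit : List.replicate n true ++ List.replicate n false =
        (List.replicate n true ++ List.replicate (j + 1) false) ++
          (false :: List.replicate d false) := by
      have : List.replicate n false = List.replicate (j + 1) false ++
          (false :: List.replicate d false) := by
        rw [← List.replicate_succ, List.replicate_append_replicate, ← hd]
      rw [this, List.append_assoc]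
    have ht := tape_append (List.replicate n true ++ List.replicate (j + 1) false)
      (false :: List.replicate d false)
    rw [← hsplit, List.length_append, List.length_replicate, List.length_replicate] at ht
    refine ReachN.succ h1 ⟨(.rb, Dir.R, Op.pop), ?_, ?_⟩
    · show _ ∈ aδ .rb (tape _ (n + j + 2)) (List.replicate (n - (j + 1)) ()).head?
      have e : n - (j + 1) = d + 1 := by omega
      rw [show n + j + 2 = n + (j + 1) + 1 by omega, ht, e]
      exact Set.mem_singleton _
    · show _ = (⟨AQ.rb, move ((List.replicate n true ++ List.replicate n false).length + 1)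
        (n + j + 2) Dir.R, (List.replicate (n - (j + 1)) ()).tail⟩ : Cfg AQ ℕ Unit)
      have : move ((List.replicate n true ++ List.replicate n false).length + 1) (n + j + 2)
          Dir.R = n + (j + 1) + 2 := by
        simp only [move, List.length_append, List.length_replicate]
        omega
      rw [this, List.tail_replicate]
      rfl

theorem aMach_lang : aMach.lang (headDev Bool) = anbn := by
  ext w
  constructor
  · rintro ⟨t, c, h1, h2⟩
    have h3 := aInv_reach w t c h1
    obtain ⟨q, p, s⟩ := c
    have h2' : q = .acc := h2
    subst h2'
    exact h3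
  · rintro ⟨n, rfl⟩
    have hlast : tape (List.replicate n true ++ List.replicate n false) (n + n + 1) =
        Sym.right := by
      have := tape_end (List.replicate n true ++ List.replicate n false)
      rwa [List.length_append, List.length_replicate, List.length_replicate] at this
    rcases Nat.eq_zero_or_pos n with h0 | h0
    · subst h0
      have h1 := a_reach_ra (List.replicate 0 false) 0 0 le_rfl
      refine ⟨_, _, ReachN.succ h1 ⟨(.acc, Dir.S, Op.none), ?_, rfl⟩, rfl⟩
      show (AQ.acc, Dir.S, Op.none) ∈ aδ .ra
        (tape (List.replicate 0 true ++ List.replicate 0 false) (0 + 0 + 1)) none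
      rw [hlast]
      exact Set.mem_singleton _
    · obtain ⟨j, rfl⟩ : ∃ j, n = j + 1 := ⟨n - 1, by omega⟩
      have h1 := a_reach_rb (j + 1) j le_rfl
      refine ⟨_, _, ReachN.succ h1 ⟨(.acc, Dir.S, Op.none), ?_, rfl⟩, rfl⟩
      show _ ∈ aδ .rb (tape _ (j + 1 + j + 2)) (List.replicate (j + 1 - (j + 1)) ()).head?
      rw [show j + 1 + j + 2 = j + 1 + (j + 1) + 1 by omega, hlast,
        show j + 1 - (j + 1) = 0 by omega]
      exact Set.mem_singleton _

theorem anbn_not_regular : ¬ Language.IsRegular (anbn : Language Bool) := by
  rintro ⟨σ, _, M, hM⟩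
  obtain ⟨m, n, hne, he⟩ := Finite.exists_ne_map_eq_of_infinite
    (fun n : ℕ => M.eval (List.replicate n true))
  have h1 : (List.replicate m true ++ List.replicate m false) ∈ M.accepts := by
    rw [hM]
    exact ⟨m, rfl⟩
  have h2 : (List.replicate n true ++ List.replicate m false) ∈ M.accepts := by
    rw [DFA.mem_accepts] at h1 ⊢
    have e1 : ∀ l, M.eval (List.replicate l true ++ List.replicate m false) =
        M.evalFrom (M.eval (List.replicate l true)) (List.replicate m false) := by
      intro l
      exact M.evalFrom_of_append _ _ _
    rw [e1] at h1 ⊢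
    rw [← he]
    exact h1
  rw [hM] at h2
  obtain ⟨l, hl⟩ := h2
  have h3 := congrArg (List.count true) hl
  have h4 := congrArg (List.count false) hl
  simp [List.count_replicate] at h3 h4
  omega

/-- The emulation of one head by `k ≥ 1` heads. -/
def Emul.first (α : Type) (k : ℕ) : Emul (headDev α) (piDev (Fin (k + 1)) (headDev α)) :=
  Emul.ofMap _ _ (fun y => y 0) (fun c => c 0)
    (fun d i => if i = 0 then d else Dir.S) rfl (fun _ _ => rfl) (fun w y d => by
      show move (w.length + 1) (y 0) d =
        move (w.length + 1) (y 0) (if (0 : Fin (k + 1)) = 0 then d else Dir.S)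
      rw [if_pos rfl])

/-- For every `k ≥ 1` the language `anbn` is accepted by a grid-sweeping deterministic pushdown
automaton with `k` heads. -/
theorem anbn_pda (k : ℕ) (hk : 1 ≤ k) : ∃ M : PDA Bool k, M.Det ∧ M.lang = anbn ∧
    M.GridSweeping ∧ M.GridPopThenPush := by
  obtain ⟨j, rfl⟩ : ∃ j, k = j + 1 := ⟨k - 1, by omega⟩
  let M1 : Mach (Fin (j + 1) → Sym Bool) (Fin (j + 1) → Dir) := (Emul.first Bool j).mach aMach
  obtain ⟨M', h1, h2, h3, h4⟩ := snakeNormal (j + 1) hk M1.toPDA
  refine ⟨M', h2 ((Emul.first Bool j).mach_det aMach aMach_det), ?_, h3, h4⟩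
  rw [h1]
  exact (Mach.lang_toPDA M1).trans (((Emul.first Bool j).mach_lang aMach).trans aMach_lang)

end Pool.Agent.Heads
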