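import Pool.Agent.Lib_helper16.Heads.CookWin

/-!
The number of moves needed to win the game of a nondeterministic pushdown machine, and
stretched tracks.
-/

set_option autoImplicit false

namespace Pool.Agent.Heads

variable {ι : Type}

/-- A monotone chain of subsets of a finite set which, once it stops, stays. -/
lemma chain_bound {A : Type} (S : ℕ → Set A) (U : Set A) (hU : U.Finite)
    (hS : ∀ s, S s ⊆ U) (hmono : ∀ s, S s ⊆ S (s + 1))
    (hstab : ∀ s, S s = S (s + 1) → S (s + 1) = S (s + 2)) (K : ℕ) (hK : U.ncard ≤ K)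
    (s : ℕ) : S s ⊆ S K := by
  have hle : ∀ a b, a ≤ b → S a ⊆ S b := by
    intro a b h
    induction b, h using Nat.le_induction with
    | base => exact subset_rfl
    | succ b _ ih => exact ih.trans (hmono b)
  have hstay : ∀ a, S a = S (a + 1) → ∀ b, a ≤ b → S a = S b := by
    intro a ha
    have h1 : ∀ j, S (a + j) = S (a + j + 1) := by
      intro j
      induction j with
      | zero => exact ha
      | succ j ih => exact hstab _ ih
    intro b hb
    induction b, hb using Nat.le_induction with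
    | base => rfl
    | succ b hb ih =>
      obtain ⟨j, rfl⟩ : ∃ j, b = a + j := ⟨b - a, by omega⟩
      rw [ih, h1 j]
  have key : ∀ n, (∃ a < n, S a = S (a + 1)) ∨ n ≤ (S n).ncard := by
    intro n
    induction n with
    | zero => exact Or.inr (Nat.zero_le _)
    | succ n ih =>
      rcases ih with ⟨a, ha, h⟩ | h
      · exact Or.inl ⟨a, by omega, h⟩
      · by_cases he : S n = S (n + 1)
        · exact Or.inl ⟨n, by omega, he⟩
        · right
          have hss : S n ⊂ S (n + 1) := (hmono n).ssubset_of_ne he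
          have := Set.ncard_lt_ncard hss (hU.subset (hS _))
          omega
  rcases key (K + 1) with ⟨a, ha, h⟩ | h
  · have h1 := hstay a h
    rcases Nat.le_total s a with h2 | h2
    · exact hle _ _ (by omega)
    · rw [← h1 s h2, h1 K (by omega)]
  · have h1 := Set.ncard_le_ncard (hS (K + 1)) hU
    omega

section Bound

variable (T : Track ι) (M : Mach T.B Dir) (w : ι)

/-- All positions of the game. -/
def allPos (Q : Type) (N : ℕ) : Set (Q × (Fin 3 → ℕ)) := {p | ∀ i, p.2 i ≤ N}

lemma allPos_range (Q : Type) (N : ℕ) : allPos Q N =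
    Set.range (fun p : Q × (Fin 3 → Fin (N + 1)) => ((p.1, fun i => (p.2 i : ℕ)) :
      Q × (Fin 3 → ℕ))) := by
  ext ⟨q, y⟩
  constructor
  · intro h
    exact ⟨(q, fun i => ⟨y i, Nat.lt_succ_of_le (h i)⟩), rfl⟩
  · rintro ⟨⟨q', y'⟩, h⟩ i
    obtain ⟨rfl, rfl⟩ := Prod.mk.inj h
    exact Nat.le_of_lt_succ (y' i).2

lemma allPos_finite (Q : Type) [Finite Q] (N : ℕ) : (allPos Q N).Finite := by
  rw [allPos_range]
  exact Set.finite_range _

lemma allPos_ncard (Q : Type) [Finite Q] (N : ℕ) :
    (allPos Q N).ncard ≤ Nat.card Q * (N + 1) ^ 3 := by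
  rw [allPos_range, ← Set.image_univ]
  refine (Set.ncard_image_le Set.finite_univ).trans ?_
  rw [Set.ncard_univ]
  simp

/-- The game is won iff it is won within `|GQ| (N + 1) ^ 3` moves. -/
theorem win_bound (K : ℕ) (hK : Nat.card (GQ M.Q M.Γ) * (T.N w + 1) ^ 3 ≤ K)
    (q : GQ M.Q M.Γ) (y : Fin 3 → ℕ) (hy : ∀ i, y i ≤ T.N w) :
    Win T M w q y ↔ Game.Acc (dev3 T) (game T M) w K q y := by
  have := M.finQ
  have := M.finΓ
  have hfin : Finite (GQ M.Q M.Γ) := finite_GQ _ _
  let S : ℕ → Set (GQ M.Q M.Γ × (Fin 3 → ℕ)) := fun s =>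
    {p | (∀ i, p.2 i ≤ T.N w) ∧ Game.Acc (dev3 T) (game T M) w s p.1 p.2}
  constructor
  · rintro ⟨s, hs⟩
    have h := chain_bound S (allPos (GQ M.Q M.Γ) (T.N w)) (allPos_finite _ _)
      (fun s p hp => hp.1) (fun s p hp => ⟨hp.1, Game.acc_mono _ _ _ _ _ _ hp.2⟩) ?_ K
      ((allPos_ncard _ _).trans hK) s
    · exact (h (show (q, y) ∈ S s from ⟨hy, hs⟩)).2
    · intro s he
      refine Set.Subset.antisymm (fun p hp => ⟨hp.1, Game.acc_mono _ _ _ _ _ _ hp.2⟩) ?_
      rintro ⟨q, y⟩ ⟨hy, h⟩
      refine ⟨hy, ?_⟩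
      have hback : ∀ (q : GQ M.Q M.Γ) (y : Fin 3 → ℕ), (∀ i, y i ≤ T.N w) →
          Game.Acc (dev3 T) (game T M) w (s + 1) q y →
          Game.Acc (dev3 T) (game T M) w s q y := by
        intro q y hy h
        have : (q, y) ∈ S s := by
          rw [he]
          exact ⟨hy, h⟩
        exact this.2
      have h' : (if gconj q = true then
          ∀ t ∈ gopts T M q ((dev3 T).lab w y),
            Game.Acc (dev3 T) (game T M) w (s + 1) t.1 ((dev3 T).mv w y t.2)
          else ∃ t ∈ gopts T M q ((dev3 T).lab w y),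
            Game.Acc (dev3 T) (game T M) w (s + 1) t.1 ((dev3 T).mv w y t.2)) := h
      show (if gconj q = true then
          ∀ t ∈ gopts T M q ((dev3 T).lab w y),
            Game.Acc (dev3 T) (game T M) w s t.1 ((dev3 T).mv w y t.2)
          else ∃ t ∈ gopts T M q ((dev3 T).lab w y),
            Game.Acc (dev3 T) (game T M) w s t.1 ((dev3 T).mv w y t.2))
      split_ifs at h' ⊢ with hc
      · intro t ht
        exact hback _ _ (ok_mv3 T w y hy _) (h' t ht)
      · obtain ⟨t, ht, h''⟩ := h'
        exact ⟨t, ht, hback _ _ (ok_mv3 T w y hy _) h''⟩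
  · intro h
    exact ⟨K, h⟩

end Bound

/-! ### Stretched tracks -/

/-- The track with each cell replaced by `c + 1` cells. -/
def stretch (T : Track ι) (c : ℕ) : Track ι where
  B := T.B × Fin (c + 1)
  N := fun w => (c + 1) * T.N w + c
  lab := fun w p => (T.lab w (p / (c + 1)), ⟨p % (c + 1), Nat.mod_lt _ (Nat.succ_pos c)⟩)
  isL := fun b => T.isL b.1 && decide ((b.2 : ℕ) = 0)
  isR := fun b => T.isR b.1 && decide ((b.2 : ℕ) = c)
  hN := by
    intro w
    have h := T.hN w
    have : 1 ≤ (c + 1) * T.N w := Nat.one_le_iff_ne_zero.2 (by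
      intro h0
      rcases Nat.mul_eq_zero.1 h0 with h1 | h1 <;> omega)
    omega
  hL := by
    intro w p hp
    have hd := Nat.div_add_mod p (c + 1)
    have hm := Nat.mod_lt p (Nat.succ_pos c)
    have hle : p / (c + 1) ≤ T.N w := by
      rw [Nat.div_le_iff_le_mul_add_pred (Nat.succ_pos c)]
      exact hp
    have h := T.hL w _ hle
    simp only [Bool.and_eq_true, decide_eq_true_eq, h]
    constructor
    · rintro ⟨h1, h2⟩
      rw [h1, h2] at hd
      omega
    · rintro rfl
      simp
  hR := by
    intro w p hp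
    have hd := Nat.div_add_mod p (c + 1)
    have hm := Nat.mod_lt p (Nat.succ_pos c)
    have hle : p / (c + 1) ≤ T.N w := by
      rw [Nat.div_le_iff_le_mul_add_pred (Nat.succ_pos c)]
      exact hp
    have h := T.hR w _ hle
    simp only [Bool.and_eq_true, decide_eq_true_eq, h]
    constructor
    · rintro ⟨h1, h2⟩
      rw [h1, h2] at hd
      omega
    · intro h1
      have h2 : p / (c + 1) = T.N w := by
        rw [h1, Nat.mul_add_div (by omega : 0 < c + 1), Nat.div_eq_of_lt (by omega),
          Nat.add_zero]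
      refine ⟨h2, ?_⟩
      rw [h2] at hd
      omega


/-- The moves of the head of the track in a stretched track. -/
def emS (c : ℕ) {T : Track ι} (i : Fin (c + 1)) (b : T.B) : Dir → Dir × Fin (c + 1)
  | Dir.S => (Dir.S, i)
  | Dir.R => if h : (i : ℕ) < c then (Dir.S, ⟨i + 1, by omega⟩)
      else if T.isR b then (Dir.S, i) else (Dir.R, 0)
  | Dir.L => if (i : ℕ) = 0 then (if T.isL b then (Dir.S, i) else (Dir.L, ⟨c, by omega⟩))
      else (Dir.S, ⟨i - 1, by omega⟩)

/-- A stretched track is emulated by the track. -/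
def Emul.stretch (T : Track ι) (c : ℕ) : Emul (stretch T c).dev T.dev where
  μ := Fin (c + 1)
  fin := inferInstance
  m0 := 0
  dl := fun i b => (b, i)
  em := fun i b d => emS c i b d
  ρ := fun w x y i => x = (c + 1) * y + i ∧ y ≤ T.N w
  ρ0 := fun w => ⟨rfl, Nat.zero_le _⟩
  ρlab := by
    rintro w x y i ⟨rfl, hy⟩
    have hi := i.2
    show (T.lab w (((c + 1) * y + i) / (c + 1)), _) = (T.lab w y, i)
    have e1 : ((c + 1) * y + (i : ℕ)) / (c + 1) = y := by
      rw [Nat.mul_add_div (by omega : 0 < c + 1), Nat.div_eq_of_lt hi, Nat.add_zero]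
    have e2 : ((c + 1) * y + (i : ℕ)) % (c + 1) = i := by
      rw [Nat.mul_add_mod, Nat.mod_eq_of_lt hi]
    rw [e1]
    refine Prod.ext rfl (Fin.ext ?_)
    exact e2
  ρmv := by
    rintro w x y i ⟨rfl, hy⟩ d
    have hi := i.2
    have hN := T.hN w
    have hL := T.hL w y hy
    have hR := T.hR w y hy
    cases d with
    | S => exact ⟨rfl, hy⟩
    | R =>
      show move ((c + 1) * T.N w + c) ((c + 1) * y + i) Dir.R =
        (c + 1) * move (T.N w) y (emS c i (T.lab w y) Dir.R).1 +
          (emS c i (T.lab w y) Dir.R).2 ∧ move (T.N w) y (emS c i (T.lab w y) Dir.R).1 ≤ T.N w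
      have hyN : (c + 1) * y ≤ (c + 1) * T.N w := Nat.mul_le_mul_left _ hy
      simp only [emS]
      split_ifs with h1 h2
      · refine ⟨?_, hy⟩
        simp only [move]
        rw [min_eq_left (by omega)]
        rfl
      · refine ⟨?_, hy⟩
        have h3 := hR.1 h2
        subst h3
        simp only [move]
        omega
      · refine ⟨?_, move_le _ _ _ hy⟩
        have h3 : y ≠ T.N w := fun h => h2 (hR.2 h)
        have h4 : y + 1 ≤ T.N w := lt_of_le_of_ne hy h3
        have h5 : (c + 1) * (y + 1) ≤ (c + 1) * T.N w := Nat.mul_le_mul_left _ h4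
        have h6 : (c + 1) * (y + 1) = (c + 1) * y + (c + 1) := by ring
        simp only [move]
        rw [min_eq_left (by omega), min_eq_left (by omega), h6]
        have h7 : (i : ℕ) = c := by omega
        rw [h7]
        rfl
    | L =>
      show ((c + 1) * y + i) - 1 =
        (c + 1) * move (T.N w) y (emS c i (T.lab w y) Dir.L).1 +
          (emS c i (T.lab w y) Dir.L).2 ∧ move (T.N w) y (emS c i (T.lab w y) Dir.L).1 ≤ T.N w
      simp only [emS]
      split_ifs with h1 h2
      · refine ⟨?_, hy⟩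
        have h3 := hL.1 h2
        subst h3
        simp only [move]
        omega
      · refine ⟨?_, move_le _ _ _ hy⟩
        have h3 : y ≠ 0 := fun h => h2 (hL.2 h)
        obtain ⟨z, rfl⟩ : ∃ z, y = z + 1 := Nat.exists_eq_succ_of_ne_zero h3
        have h6 : (c + 1) * (z + 1) = (c + 1) * z + (c + 1) := by ring
        simp only [move, Nat.add_sub_cancel]
        rw [h6]
        omega
      · refine ⟨?_, hy⟩
        simp only [move]
        omega

end Pool.Agent.Heads
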