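import Pool.Agent.Lib_helper16.Heads.Game

/-!
The acceptance of a nondeterministic pushdown machine on a track as a game with three heads.
-/

set_option autoImplicit false

namespace Pool.Agent.Heads

variable {ι : Type}

/-! ### Reversible devices -/

/-- The inverse of a move on a track. -/
def Track.inv (T : Track ι) (b : T.B) : Dir → Dir
  | Dir.S => Dir.S
  | Dir.R => if T.isR b then Dir.S else Dir.L
  | Dir.L => if T.isL b then Dir.S else Dir.R

lemma Track.hinv (T : Track ι) (w : ι) (y : ℕ) (d : Dir) (hy : y ≤ T.N w) :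
    move (T.N w) (move (T.N w) y d) (T.inv (T.lab w y) d) = y := by
  have hL := T.hL w y hy
  have hR := T.hR w y hy
  have hN := T.hN w
  cases d with
  | S => rfl
  | R =>
    simp only [Track.inv]
    rcases Nat.lt_or_ge y (T.N w) with h | h
    · rw [if_neg (by rw [hR]; omega)]
      simp only [move]; omega
    · rw [if_pos (by rw [hR]; omega)]
      simp only [move]; omega
  | L =>
    simp only [Track.inv]
    rcases Nat.eq_zero_or_pos y with h | h
    · rw [if_pos (hL.2 h)]
      simp only [move]; omega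
    · rw [if_neg (by rw [hL]; omega)]
      simp only [move]; omega

/-- A track as a reversible device. -/
def Track.rdev (T : Track ι) : RDev ι where
  dev := T.dev
  ok := fun w p => p ≤ T.N w
  ok_start := fun w => Nat.zero_le _
  ok_mv := fun w y d h => move_le _ _ _ h
  inv := T.inv
  hinv := fun w y d h => T.hinv w y d h
  idle := Dir.S
  hidle := fun _ _ => rfl
  finD := (inferInstance : Finite Dir)

/-- A power of a reversible device. -/
def RDev.pi (κ : Type) [Finite κ] (X : RDev ι) : RDev ι where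
  dev := piDev κ X.dev
  ok := fun w y => ∀ i, X.ok w (y i)
  ok_start := fun w _ => X.ok_start w
  ok_mv := fun w y d h i => X.ok_mv w _ _ (h i)
  inv := fun c d i => X.inv (c i) (d i)
  hinv := fun w y d h => funext fun i => X.hinv w _ _ (h i)
  idle := fun _ => X.idle
  hidle := fun w y => funext fun i => X.hidle w (y i)
  finD := by
    have := X.finD
    exact (inferInstance : Finite (κ → X.dev.D))

/-! ### Big-step semantics of pushdown machines -/

section Big

variable (T : Track ι) (M : Mach T.B Dir) (w : ι)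

/-- `Pp g q x q2 x2`: from state `q`, cell `x` and top symbol `g` the machine can pop this
symbol, arriving in state `q2` and cell `x2`. -/
inductive Pp : M.Γ → M.Q → ℕ → M.Q → ℕ → Prop
  | pop {g : M.Γ} {q q' : M.Q} {x : ℕ} {d : Dir} :
      (q', d, Op.pop) ∈ M.δ q (T.lab w x) (some g) → Pp g q x q' (move (T.N w) x d)
  | none {g : M.Γ} {q q' q2 : M.Q} {x x2 : ℕ} {d : Dir} :
      (q', d, Op.none) ∈ M.δ q (T.lab w x) (some g) → Pp g q' (move (T.N w) x d) q2 x2 →
      Pp g q x q2 x2
  | push {g g' : M.Γ} {q q' q2 q3 : M.Q} {x x2 x3 : ℕ} {d : Dir} :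
      (q', d, Op.push g') ∈ M.δ q (T.lab w x) (some g) → Pp g' q' (move (T.N w) x d) q3 x3 →
      Pp g q3 x3 q2 x2 → Pp g q x q2 x2

/-- `Aa γ q x`: from state `q`, cell `x` and top symbol `γ` the machine can accept without
popping this symbol. -/
inductive Aa : Option M.Γ → M.Q → ℕ → Prop
  | acc {γ : Option M.Γ} {q : M.Q} {x : ℕ} : q ∈ M.accept → Aa γ q x
  | none {γ : Option M.Γ} {q q' : M.Q} {x : ℕ} {d : Dir} :
      (q', d, Op.none) ∈ M.δ q (T.lab w x) γ → Aa γ q' (move (T.N w) x d) → Aa γ q x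
  | pop0 {q q' : M.Q} {x : ℕ} {d : Dir} :
      (q', d, Op.pop) ∈ M.δ q (T.lab w x) .none → Aa .none q' (move (T.N w) x d) →
      Aa .none q x
  | push {γ : Option M.Γ} {q q' : M.Q} {x : ℕ} {d : Dir} {g : M.Γ} :
      (q', d, Op.push g) ∈ M.δ q (T.lab w x) γ → Aa (some g) q' (move (T.N w) x d) →
      Aa γ q x
  | pushpop {γ : Option M.Γ} {q q' q2 : M.Q} {x x2 : ℕ} {d : Dir} {g : M.Γ} :
      (q', d, Op.push g) ∈ M.δ q (T.lab w x) γ → Pp T M w g q' (move (T.N w) x d) q2 x2 →
      Aa γ q2 x2 → Aa γ q x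

variable {T M w}

/-- Computations. -/
abbrev Run (T : Track ι) (M : Mach T.B Dir) (w : ι) := Relation.ReflTransGen (M.Step T.dev w)

lemma run_step {q q' : M.Q} {x : ℕ} {d : Dir} {op : Op M.Γ} {s : List M.Γ}
    (h : (q', d, op) ∈ M.δ q (T.lab w x) s.head?) :
    M.Step T.dev w ⟨q, x, s⟩ ⟨q', move (T.N w) x d, op.apply s⟩ :=
  ⟨(q', d, op), h, rfl⟩

lemma Pp.run {g : M.Γ} {q q2 : M.Q} {x x2 : ℕ} (h : Pp T M w g q x q2 x2) :
    ∀ s : List M.Γ, Run T M w ⟨q, x, g :: s⟩ ⟨q2, x2, s⟩ := by
  induction h with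
  | pop h => exact fun s => Relation.ReflTransGen.single (run_step (s := _ :: s) h)
  | none h _ ih => exact fun s => Relation.ReflTransGen.head (run_step (s := _ :: s) h) (ih s)
  | push h _ _ ih1 ih2 =>
    exact fun s => Relation.ReflTransGen.head (run_step (s := _ :: s) h)
      ((ih1 _).trans (ih2 s))

lemma Aa.run {γ : Option M.Γ} {q : M.Q} {x : ℕ} (h : Aa T M w γ q x) :
    ∀ s : List M.Γ, s.head? = γ → ∃ c, Run T M w ⟨q, x, s⟩ c ∧ c.state ∈ M.accept := by
  induction h with
  | acc h => exact fun s _ => ⟨_, Relation.ReflTransGen.refl, h⟩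
  | none h _ ih =>
    rintro s rfl
    obtain ⟨c, h1, h2⟩ := ih s rfl
    exact ⟨c, Relation.ReflTransGen.head (run_step h) h1, h2⟩
  | pop0 h _ ih =>
    intro s hs
    have hs' : s = [] := by cases s with
      | nil => rfl
      | cons a s => simp at hs
    subst hs'
    obtain ⟨c, h1, h2⟩ := ih [] rfl
    exact ⟨c, Relation.ReflTransGen.head (run_step (s := []) h) h1, h2⟩
  | push h _ ih =>
    rintro s rfl
    obtain ⟨c, h1, h2⟩ := ih (_ :: s) rfl
    exact ⟨c, Relation.ReflTransGen.head (run_step h) h1, h2⟩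
  | pushpop h hp _ ih =>
    rintro s rfl
    obtain ⟨c, h1, h2⟩ := ih s rfl
    exact ⟨c, Relation.ReflTransGen.head (run_step h) ((hp.run s).trans h1), h2⟩

/-- The converse. -/
lemma big_of_run (n : ℕ) : ∀ (q : M.Q) (x : ℕ) (s : List M.Γ) (c : Cfg M.Q ℕ M.Γ),
    ReachN (M.Step T.dev w) ⟨q, x, s⟩ n c → c.state ∈ M.accept →
    Aa T M w s.head? q x ∨ ∃ g s' q2 x2 n', s = g :: s' ∧ Pp T M w g q x q2 x2 ∧ n' < n ∧
      ReachN (M.Step T.dev w) ⟨q2, x2, s'⟩ n' c := by
  induction n using Nat.strong_induction_on with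
  | _ n ih =>
    intro q x s c hr hc
    -- split off the first step
    have hfirst : ∀ (n : ℕ) (b c : Cfg M.Q ℕ M.Γ), ReachN (M.Step T.dev w) b n c →
        (n = 0 ∧ b = c) ∨ ∃ b' m, n = m + 1 ∧ M.Step T.dev w b b' ∧
          ReachN (M.Step T.dev w) b' m c := by
      intro n b c h
      induction h with
      | zero => exact Or.inl ⟨rfl, rfl⟩
      | succ h1 h2 ih =>
        rcases ih with ⟨rfl, rfl⟩ | ⟨b', m, rfl, h3, h4⟩
        · exact Or.inr ⟨_, 0, rfl, h2, ReachN.zero⟩
        · exact Or.inr ⟨b', m + 1, rfl, h3, ReachN.succ h4 h2⟩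
    rcases hfirst n _ _ hr with ⟨-, rfl⟩ | ⟨b', m, rfl, ⟨⟨q', d, op⟩, htr, rfl⟩, h2⟩
    · exact Or.inl (Aa.acc hc)
    · cases op with
      | none =>
        rcases ih m (by omega) _ _ _ c h2 hc with h3 | ⟨g, s', q2, x2, n', h3, h4, h5, h6⟩
        · exact Or.inl (Aa.none htr h3)
        · right
          have h3' : s = g :: s' := h3
          subst h3'
          exact ⟨g, s', q2, x2, n', rfl, Pp.none htr h4, by omega, h6⟩
      | push g' =>
        rcases ih m (by omega) _ _ _ c h2 hc with h3 | ⟨g, s', q2, x2, n', h3, h4, h5, h6⟩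
        · exact Or.inl (Aa.push htr h3)
        · have h3' : g' :: s = g :: s' := h3
          obtain ⟨rfl, rfl⟩ := List.cons.inj h3'
          rcases ih n' (by omega) _ _ _ c h6 hc with h7 | ⟨g2, s2, q3, x3, n3, h7, h8, h9, h10⟩
          · exact Or.inl (Aa.pushpop htr h4 h7)
          · right
            subst h7
            exact ⟨g2, s2, q3, x3, n3, rfl, Pp.push htr h4 h8, by omega, h10⟩
      | pop =>
        cases s with
        | nil =>
          rcases ih m (by omega) _ _ _ c h2 hc with h3 | ⟨g, s', q2, x2, n', h3, -⟩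
          · exact Or.inl (Aa.pop0 htr h3)
          · have h3' : ([] : List M.Γ) = g :: s' := h3
            exact absurd h3' (by simp)
        | cons g s =>
          right
          exact ⟨g, s, _, _, m, rfl, Pp.pop htr, by omega, h2⟩

theorem lang_iff_Aa : w ∈ M.lang T.dev ↔ Aa T M w none M.start 0 := by
  constructor
  · rintro ⟨t, c, h1, h2⟩
    rcases big_of_run t _ _ _ c h1 h2 with h | ⟨g, s', q2, x2, n', h, -⟩
    · exact h
    · exact absurd h (by simp)
  · intro h
    obtain ⟨c, h1, h2⟩ := h.run [] rfl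
    obtain ⟨t, ht⟩ := reachN_steps.1 h1
    exact ⟨t, c, ht, h2⟩

lemma Pp.le {g : M.Γ} {q q2 : M.Q} {x x2 : ℕ} (h : Pp T M w g q x q2 x2) :
    x ≤ T.N w → x2 ≤ T.N w := by
  induction h with
  | pop h => exact fun hx => move_le _ _ _ hx
  | none h _ ih => exact fun hx => ih (move_le _ _ _ hx)
  | push h _ _ ih1 ih2 => exact fun hx => ih2 (ih1 (move_le _ _ _ hx))

end Big

end Pool.Agent.Heads
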