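import Pool.Agent.Lib_helper16.Heads.Cook

/-!
The game of a nondeterministic pushdown machine on a track.
-/

set_option autoImplicit false

namespace Pool.Agent.Heads

variable {ι : Type}

/-- A move of one of three heads. -/
def single (i : Fin 3) (d : Dir) : Fin 3 → Dir := fun j => if j = i then d else Dir.S

/-- The idle move of three heads. -/
def idle3 : Fin 3 → Dir := fun _ => Dir.S

/-- The states of the game. -/
inductive GQ (Q Γ : Type) where
  | A : Equiv.Perm (Fin 3) → Option Γ → Q → GQ Q Γ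
  | P : Equiv.Perm (Fin 3) → Γ → Q → Q → GQ Q Γ
  | GA : Equiv.Perm (Fin 3) → Option Γ → Q → Γ → GQ Q Γ
  | SA : Equiv.Perm (Fin 3) → Option Γ → Q → Γ → Q → GQ Q Γ
  | GP : Equiv.Perm (Fin 3) → Γ → Q → Γ → Q → GQ Q Γ
  | SP : Equiv.Perm (Fin 3) → Γ → Q → Γ → Q → Q → GQ Q Γ
  | E : Equiv.Perm (Fin 3) → GQ Q Γ
  | Top : GQ Q Γ

lemma finite_GQ (Q Γ : Type) [Finite Q] [Finite Γ] : Finite (GQ Q Γ) := by
  refine Finite.of_injective (fun s : GQ Q Γ => match s with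
    | .A σ γ q => (Sum.inl (σ, γ, q) : (Equiv.Perm (Fin 3) × Option Γ × Q) ⊕
        (Equiv.Perm (Fin 3) × Γ × Q × Q) ⊕ (Equiv.Perm (Fin 3) × Option Γ × Q × Γ) ⊕
        (Equiv.Perm (Fin 3) × Option Γ × Q × Γ × Q) ⊕ (Equiv.Perm (Fin 3) × Γ × Q × Γ × Q) ⊕
        (Equiv.Perm (Fin 3) × Γ × Q × Γ × Q × Q) ⊕ Equiv.Perm (Fin 3) ⊕ Unit)
    | .P σ g q q2 => Sum.inr (Sum.inl (σ, g, q, q2))
    | .GA σ γ q1 g => Sum.inr (Sum.inr (Sum.inl (σ, γ, q1, g)))
    | .SA σ γ q1 g q2 => Sum.inr (Sum.inr (Sum.inr (Sum.inl (σ, γ, q1, g, q2))))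
    | .GP σ g q2 g' q1 => Sum.inr (Sum.inr (Sum.inr (Sum.inr (Sum.inl (σ, g, q2, g', q1)))))
    | .SP σ g q2 g' q1 q3 =>
        Sum.inr (Sum.inr (Sum.inr (Sum.inr (Sum.inr (Sum.inl (σ, g, q2, g', q1, q3))))))
    | .E σ => Sum.inr (Sum.inr (Sum.inr (Sum.inr (Sum.inr (Sum.inr (Sum.inl σ))))))
    | .Top => Sum.inr (Sum.inr (Sum.inr (Sum.inr (Sum.inr (Sum.inr (Sum.inr ()))))))) ?_
  intro a b h
  cases a <;> cases b <;> simp_all

variable (T : Track ι) (M : Mach T.B Dir)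

/-- The options of the game. -/
def gopts : GQ M.Q M.Γ → (Fin 3 → T.B) → Set (GQ M.Q M.Γ × (Fin 3 → Dir))
  | .A σ γ q, c => {t | (q ∈ M.accept ∧ t = (.Top, idle3)) ∨
      (∃ q' d, (q', d, Op.none) ∈ M.δ q (c (σ 0)) γ ∧ t = (.A σ γ q', single (σ 0) d)) ∨
      (γ = none ∧ ∃ q' d, (q', d, Op.pop) ∈ M.δ q (c (σ 0)) none ∧
        t = (.A σ none q', single (σ 0) d)) ∨
      (∃ q' d g, (q', d, Op.push g) ∈ M.δ q (c (σ 0)) γ ∧
        (t = (.A σ (some g) q', single (σ 0) d) ∨ t = (.GA σ γ q' g, single (σ 0) d)))}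
  | .P σ g q q2, c => {t |
      (∃ q' d, (q', d, Op.none) ∈ M.δ q (c (σ 0)) (some g) ∧
        t = (.P σ g q' q2, single (σ 0) d)) ∨
      (∃ d, (q2, d, Op.pop) ∈ M.δ q (c (σ 0)) (some g) ∧ t = (.E σ, single (σ 0) d)) ∨
      (∃ q' d g', (q', d, Op.push g') ∈ M.δ q (c (σ 0)) (some g) ∧
        t = (.GP σ g q2 g' q', single (σ 0) d))}
  | .GA σ γ q1 g, _ => {t | (∃ d, t = (.GA σ γ q1 g, single (σ 1) d)) ∨
      ∃ q2, t = (.SA σ γ q1 g q2, idle3)}
  | .SA σ γ q1 g q2, _ => {(.P σ g q1 q2, idle3), (.A (σ * Equiv.swap 0 1) γ q2, idle3)}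
  | .GP σ g q2 g' q1, _ => {t | (∃ d, t = (.GP σ g q2 g' q1, single (σ 2) d)) ∨
      ∃ q3, t = (.SP σ g q2 g' q1 q3, idle3)}
  | .SP σ g q2 g' q1 q3, _ => {(.P (σ * Equiv.swap 1 2) g' q1 q3, idle3),
      (.P (σ * Equiv.swap 0 2) g q3 q2, idle3)}
  | .E σ, c => {t | (T.isL (c (σ 0)) = true ∧ T.isL (c (σ 1)) = true ∧ t = (.Top, idle3)) ∨
      (T.isL (c (σ 0)) = false ∧ T.isL (c (σ 1)) = false ∧
        t = (.E σ, fun j => if j = σ 0 ∨ j = σ 1 then Dir.L else Dir.S))}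
  | .Top, _ => ∅

/-- The conjunctive states. -/
def gconj {Q Γ : Type} : GQ Q Γ → Bool
  | .SA _ _ _ _ _ => true
  | .SP _ _ _ _ _ _ => true
  | .Top => true
  | _ => false

/-- The game. -/
def game : Game (Fin 3 → T.B) (Fin 3 → Dir) where
  Q := GQ M.Q M.Γ
  finQ := by
    have := M.finQ
    have := M.finΓ
    exact finite_GQ _ _
  start := .A 1 none M.start
  conj := gconj
  opts := gopts T M

variable (w : ι)

/-- The meaning of the states. -/
def Sem : GQ M.Q M.Γ → (Fin 3 → ℕ) → Prop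
  | .A σ γ q, y => Aa T M w γ q (y (σ 0))
  | .P σ g q q2, y => Pp T M w g q (y (σ 0)) q2 (y (σ 1))
  | .GA σ γ q1 g, y => ∃ q2 x2, Pp T M w g q1 (y (σ 0)) q2 x2 ∧ Aa T M w γ q2 x2
  | .SA σ γ q1 g q2, y => Pp T M w g q1 (y (σ 0)) q2 (y (σ 1)) ∧ Aa T M w γ q2 (y (σ 1))
  | .GP σ g q2 g' q1, y => ∃ q3 x3, Pp T M w g' q1 (y (σ 0)) q3 x3 ∧
      Pp T M w g q3 x3 q2 (y (σ 1))
  | .SP σ g q2 g' q1 q3, y => Pp T M w g' q1 (y (σ 0)) q3 (y (σ 2)) ∧
      Pp T M w g q3 (y (σ 2)) q2 (y (σ 1))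
  | .E σ, y => y (σ 0) = y (σ 1)
  | .Top, _ => True

/-- The device of the game. -/
@[reducible] def dev3 : Dev ι := piDev (Fin 3) T.dev

lemma mv_single (y : Fin 3 → ℕ) (i : Fin 3) (d : Dir) (j : Fin 3) :
    (dev3 T).mv w y (single i d) j = if j = i then move (T.N w) (y i) d else y j := by
  show move (T.N w) (y j) (if j = i then d else Dir.S) = _
  split_ifs with h
  · subst h; rfl
  · rfl

lemma mv_idle3 (y : Fin 3 → ℕ) : (dev3 T).mv w y idle3 = y := rfl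

lemma mv_single_self (y : Fin 3 → ℕ) (i : Fin 3) (d : Dir) :
    (dev3 T).mv w y (single i d) i = move (T.N w) (y i) d := by
  rw [mv_single, if_pos rfl]

lemma mv_single_ne (y : Fin 3 → ℕ) {i j : Fin 3} (h : j ≠ i) (d : Dir) :
    (dev3 T).mv w y (single i d) j = y j := by
  rw [mv_single, if_neg h]

lemma perm_ne (σ : Equiv.Perm (Fin 3)) {i j : Fin 3} (h : i ≠ j) : σ i ≠ σ j :=
  fun h' => h (σ.injective h')

lemma ok_mv3 (y : Fin 3 → ℕ) (hy : ∀ i, y i ≤ T.N w) (d : Fin 3 → Dir) (i : Fin 3) :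
    (dev3 T).mv w y d i ≤ T.N w := move_le _ _ _ (hy i)

theorem game_sound (s : ℕ) : ∀ (q : GQ M.Q M.Γ) (y : Fin 3 → ℕ), (∀ i, y i ≤ T.N w) →
    Game.Acc (dev3 T) (game T M) w s q y → Sem T M w q y := by
  induction s with
  | zero => intro q y _ h; exact h.elim
  | succ s ih =>
    intro q y hy h
    cases q with
    | A σ γ q =>
      obtain ⟨t, ht, h1⟩ := h
      rcases ht with ⟨h2, rfl⟩ | ⟨q', d, h2, rfl⟩ | ⟨rfl, q', d, h2, rfl⟩ |
        ⟨q', d, g, h2, rfl | rfl⟩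
      · exact Aa.acc h2
      · have h3 := ih _ _ (ok_mv3 T w y hy _) h1
        have h3' : Aa T M w γ q' ((dev3 T).mv w y (single (σ 0) d) (σ 0)) := h3
        rw [mv_single_self] at h3'
        exact Aa.none h2 h3'
      · have h3 := ih _ _ (ok_mv3 T w y hy _) h1
        have h3' : Aa T M w none q' ((dev3 T).mv w y (single (σ 0) d) (σ 0)) := h3
        rw [mv_single_self] at h3'
        exact Aa.pop0 h2 h3'
      · have h3 := ih _ _ (ok_mv3 T w y hy _) h1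
        have h3' : Aa T M w (some g) q' ((dev3 T).mv w y (single (σ 0) d) (σ 0)) := h3
        rw [mv_single_self] at h3'
        exact Aa.push h2 h3'
      · have h3 := ih _ _ (ok_mv3 T w y hy _) h1
        obtain ⟨q2, x2, h4, h5⟩ := h3
        rw [mv_single_self] at h4
        exact Aa.pushpop h2 h4 h5
    | P σ g q q2 =>
      obtain ⟨t, ht, h1⟩ := h
      have hne : (σ 1) ≠ (σ 0) := perm_ne σ (by decide)
      rcases ht with ⟨q', d, h2, rfl⟩ | ⟨d, h2, rfl⟩ | ⟨q', d, g', h2, rfl⟩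
      · have h3 := ih _ _ (ok_mv3 T w y hy _) h1
        have h3' : Pp T M w g q' ((dev3 T).mv w y (single (σ 0) d) (σ 0)) q2
          ((dev3 T).mv w y (single (σ 0) d) (σ 1)) := h3
        rw [mv_single_self, mv_single_ne T w y hne] at h3'
        exact Pp.none h2 h3'
      · have h3 := ih _ _ (ok_mv3 T w y hy _) h1
        have h3' : (dev3 T).mv w y (single (σ 0) d) (σ 0) =
          (dev3 T).mv w y (single (σ 0) d) (σ 1) := h3
        rw [mv_single_self, mv_single_ne T w y hne] at h3'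
        show Pp T M w g q (y (σ 0)) q2 (y (σ 1))
        rw [← h3']
        exact Pp.pop h2
      · have h3 := ih _ _ (ok_mv3 T w y hy _) h1
        obtain ⟨q3, x3, h4, h5⟩ := h3
        rw [mv_single_self] at h4
        rw [mv_single_ne T w y hne] at h5
        exact Pp.push h2 h4 h5
    | GA σ γ q1 g =>
      obtain ⟨t, ht, h1⟩ := h
      have hne : (σ 0) ≠ (σ 1) := perm_ne σ (by decide)
      rcases ht with ⟨d, rfl⟩ | ⟨q2, rfl⟩
      · have h3 := ih _ _ (ok_mv3 T w y hy _) h1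
        obtain ⟨q2, x2, h4, h5⟩ := h3
        rw [mv_single_ne T w y hne] at h4
        exact ⟨q2, x2, h4, h5⟩
      · have h3 := ih _ _ (ok_mv3 T w y hy _) h1
        exact ⟨q2, y (σ 1), h3.1, h3.2⟩
    | SA σ γ q1 g q2 =>
      have h' : ∀ t ∈ gopts T M (.SA σ γ q1 g q2) ((dev3 T).lab w y),
        Game.Acc (dev3 T) (game T M) w s t.1 ((dev3 T).mv w y t.2) := h
      have h3 := ih _ _ (ok_mv3 T w y hy _) (h' _ (Or.inl rfl))
      have h4 := ih _ _ (ok_mv3 T w y hy _) (h' _ (Or.inr rfl))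
      exact ⟨h3, h4⟩
    | GP σ g q2 g' q1 =>
      obtain ⟨t, ht, h1⟩ := h
      have hne0 : (σ 0) ≠ (σ 2) := perm_ne σ (by decide)
      have hne1 : (σ 1) ≠ (σ 2) := perm_ne σ (by decide)
      rcases ht with ⟨d, rfl⟩ | ⟨q3, rfl⟩
      · have h3 := ih _ _ (ok_mv3 T w y hy _) h1
        obtain ⟨q3, x3, h4, h5⟩ := h3
        rw [mv_single_ne T w y hne0] at h4
        rw [mv_single_ne T w y hne1] at h5
        exact ⟨q3, x3, h4, h5⟩
      · have h3 := ih _ _ (ok_mv3 T w y hy _) h1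
        exact ⟨q3, y (σ 2), h3.1, h3.2⟩
    | SP σ g q2 g' q1 q3 =>
      have h' : ∀ t ∈ gopts T M (.SP σ g q2 g' q1 q3) ((dev3 T).lab w y),
        Game.Acc (dev3 T) (game T M) w s t.1 ((dev3 T).mv w y t.2) := h
      have h3 := ih _ _ (ok_mv3 T w y hy _) (h' _ (Or.inl rfl))
      have h4 := ih _ _ (ok_mv3 T w y hy _) (h' _ (Or.inr rfl))
      exact ⟨h3, h4⟩
    | E σ =>
      obtain ⟨t, ht, h1⟩ := h
      have hL0 := T.hL w (y (σ 0)) (hy _)
      have hL1 := T.hL w (y (σ 1)) (hy _)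
      rcases ht with ⟨h2, h3, rfl⟩ | ⟨h2, h3, rfl⟩
      · have e1 := hL0.1 h2
        have e2 := hL1.1 h3
        show y (σ 0) = y (σ 1)
        rw [e1, e2]
      · have e1 : y (σ 0) ≠ 0 := by
          intro h
          have h4 := hL0.2 h
          have h2' : T.isL (T.lab w (y (σ 0))) = false := h2
          rw [h2'] at h4
          exact absurd h4 (by simp)
        have e2 : y (σ 1) ≠ 0 := by
          intro h
          have h4 := hL1.2 h
          have h3' : T.isL (T.lab w (y (σ 1))) = false := h3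
          rw [h3'] at h4
          exact absurd h4 (by simp)
        have h5 := ih _ _ (ok_mv3 T w y hy _) h1
        have h5' : move (T.N w) (y (σ 0)) (if σ 0 = σ 0 ∨ σ 0 = σ 1 then Dir.L else Dir.S) =
          move (T.N w) (y (σ 1)) (if σ 1 = σ 0 ∨ σ 1 = σ 1 then Dir.L else Dir.S) := h5
        rw [if_pos (Or.inl rfl), if_pos (Or.inr rfl)] at h5'
        simp only [move] at h5'
        show y (σ 0) = y (σ 1)
        omega
    | Top => trivial

end Pool.Agent.Heads
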