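import Pool.Agent.Lib_helper16.Heads.CookGame

/-!
Completeness of the game of a nondeterministic pushdown machine on a track.
-/

set_option autoImplicit false

namespace Pool.Agent.Heads

variable {ι : Type}

section Win

variable (T : Track ι) (M : Mach T.B Dir) (w : ι)

/-- The game is won from state `q` and position `y`. -/
def Win (q : GQ M.Q M.Γ) (y : Fin 3 → ℕ) : Prop :=
  ∃ s, Game.Acc (dev3 T) (game T M) w s q y

variable {T M w}

lemma win_disj {q : GQ M.Q M.Γ} {y : Fin 3 → ℕ} (hc : gconj q = false)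
    (t : GQ M.Q M.Γ × (Fin 3 → Dir)) (ht : t ∈ gopts T M q ((dev3 T).lab w y))
    (h : Win T M w t.1 ((dev3 T).mv w y t.2)) : Win T M w q y := by
  obtain ⟨s, hs⟩ := h
  refine ⟨s + 1, ?_⟩
  have hacc : Game.Acc (dev3 T) (game T M) w (s + 1) q y = (if gconj q = true then
      ∀ t ∈ gopts T M q ((dev3 T).lab w y),
        Game.Acc (dev3 T) (game T M) w s t.1 ((dev3 T).mv w y t.2)
      else ∃ t ∈ gopts T M q ((dev3 T).lab w y),
        Game.Acc (dev3 T) (game T M) w s t.1 ((dev3 T).mv w y t.2)) := rfl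
  rw [hacc, if_neg (by rw [hc]; simp)]
  exact ⟨t, ht, hs⟩

lemma win_conj {q : GQ M.Q M.Γ} {y : Fin 3 → ℕ} (hc : gconj q = true)
    (t t' : GQ M.Q M.Γ × (Fin 3 → Dir))
    (ht : gopts T M q ((dev3 T).lab w y) = {t, t'})
    (h : Win T M w t.1 ((dev3 T).mv w y t.2)) (h' : Win T M w t'.1 ((dev3 T).mv w y t'.2)) :
    Win T M w q y := by
  obtain ⟨s, hs⟩ := h
  obtain ⟨s', hs'⟩ := h'
  refine ⟨max s s' + 1, ?_⟩
  have hacc : Game.Acc (dev3 T) (game T M) w (max s s' + 1) q y = (if gconj q = true then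
      ∀ t ∈ gopts T M q ((dev3 T).lab w y),
        Game.Acc (dev3 T) (game T M) w (max s s') t.1 ((dev3 T).mv w y t.2)
      else ∃ t ∈ gopts T M q ((dev3 T).lab w y),
        Game.Acc (dev3 T) (game T M) w (max s s') t.1 ((dev3 T).mv w y t.2)) := rfl
  rw [hacc, if_pos hc, ht]
  rintro u (rfl | hu)
  · exact Game.acc_le _ _ _ (le_max_left _ _) _ _ hs
  · have hu' : u = t' := hu
    subst hu'
    exact Game.acc_le _ _ _ (le_max_right _ _) _ _ hs'

lemma win_top (y : Fin 3 → ℕ) : Win T M w .Top y := by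
  refine ⟨1, ?_⟩
  show ∀ t ∈ (∅ : Set (GQ M.Q M.Γ × (Fin 3 → Dir))), _
  intro t ht
  exact ht.elim

/-- Moving one head to an arbitrary cell. -/
lemma guess (P : (Fin 3 → ℕ) → Prop) (i : Fin 3)
    (hP : ∀ y d, (∀ j, y j ≤ T.N w) → P ((dev3 T).mv w y (single i d)) → P y)
    (n : ℕ) : ∀ (y : Fin 3 → ℕ) (x : ℕ), (∀ j, y j ≤ T.N w) → x ≤ T.N w →
      (y i - x) + (x - y i) = n → P (Function.update y i x) → P y := by
  induction n with
  | zero =>
    intro y x hy hx hn h
    have : x = y i := by omega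
    subst this
    rwa [Function.update_eq_self] at h
  | succ n ih =>
    intro y x hy hx hn h
    have hmv : ∀ d, (dev3 T).mv w y (single i d) =
        Function.update y i (move (T.N w) (y i) d) := by
      intro d
      funext j
      rw [mv_single]
      by_cases hj : j = i
      · subst hj; simp
      · simp [hj]
    rcases Nat.lt_or_ge (y i) x with hlt | hge
    · refine hP y Dir.R hy ?_
      rw [hmv]
      have e : move (T.N w) (y i) Dir.R = y i + 1 := by simp only [move]; omega
      rw [e]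
      refine ih _ x ?_ hx ?_ ?_
      · intro j
        by_cases hj : j = i
        · subst hj; simp; omega
        · simp [hj, hy j]
      · simp; omega
      · rwa [Function.update_idem]
    · refine hP y Dir.L hy ?_
      rw [hmv]
      have e : move (T.N w) (y i) Dir.L = y i - 1 := rfl
      rw [e]
      have := hy i
      refine ih _ x ?_ hx ?_ ?_
      · intro j
        by_cases hj : j = i
        · subst hj; simp; omega
        · simp [hj, hy j]
      · simp; omega
      · rwa [Function.update_idem]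

lemma win_E (n : ℕ) : ∀ (σ : Equiv.Perm (Fin 3)) (y : Fin 3 → ℕ), (∀ i, y i ≤ T.N w) →
    y (σ 0) = n → y (σ 1) = n → Win T M w (.E σ) y := by
  induction n with
  | zero =>
    intro σ y hy h0 h1
    refine win_disj rfl (.Top, idle3) (Or.inl ⟨?_, ?_, rfl⟩) (win_top _)
    · exact (T.hL w _ (hy _)).2 h0
    · exact (T.hL w _ (hy _)).2 h1
  | succ n ih =>
    intro σ y hy h0 h1
    refine win_disj rfl (.E σ, fun j => if j = σ 0 ∨ j = σ 1 then Dir.L else Dir.S)
      (Or.inr ⟨?_, ?_, rfl⟩) ?_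
    · have h := T.hL w _ (hy (σ 0))
      show T.isL (T.lab w (y (σ 0))) = false
      rw [Bool.eq_false_iff]
      intro h2
      have := h.1 h2
      omega
    · have h := T.hL w _ (hy (σ 1))
      show T.isL (T.lab w (y (σ 1))) = false
      rw [Bool.eq_false_iff]
      intro h2
      have := h.1 h2
      omega
    · refine ih σ _ (ok_mv3 T w y hy _) ?_ ?_
      · show move (T.N w) (y (σ 0)) (if σ 0 = σ 0 ∨ σ 0 = σ 1 then Dir.L else Dir.S) = n
        rw [if_pos (Or.inl rfl)]
        simp only [move]; omega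
      · show move (T.N w) (y (σ 1)) (if σ 1 = σ 0 ∨ σ 1 = σ 1 then Dir.L else Dir.S) = n
        rw [if_pos (Or.inr rfl)]
        simp only [move]; omega

lemma win_P {g : M.Γ} {q q2 : M.Q} {x x2 : ℕ} (h : Pp T M w g q x q2 x2) :
    ∀ (σ : Equiv.Perm (Fin 3)) (y : Fin 3 → ℕ), (∀ i, y i ≤ T.N w) → y (σ 0) = x →
      y (σ 1) = x2 → Win T M w (.P σ g q q2) y := by
  induction h with
  | @pop g q q' x d h =>
    intro σ y hy h0 h1
    have hne : (σ 1) ≠ (σ 0) := perm_ne σ (by decide)
    subst h0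
    refine win_disj rfl (.E σ, single (σ 0) d) (Or.inr (Or.inl ⟨d, h, rfl⟩)) ?_
    refine win_E (y (σ 1)) σ _ (ok_mv3 T w y hy _) ?_ ?_
    · rw [mv_single_self, h1]
    · rw [mv_single_ne T w y hne]
  | @none g q q' q2 x x2 d h _ ih =>
    intro σ y hy h0 h1
    have hne : (σ 1) ≠ (σ 0) := perm_ne σ (by decide)
    subst h0
    refine win_disj rfl (.P σ g q' q2, single (σ 0) d) (Or.inl ⟨q', d, h, rfl⟩) ?_
    refine ih σ _ (ok_mv3 T w y hy _) ?_ ?_
    · rw [mv_single_self]
    · rw [mv_single_ne T w y hne, h1]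
  | @push g g' q q' q2 q3 x x2 x3 d h hp _ ih1 ih2 =>
    intro σ y hy h0 h1
    have hne : (σ 1) ≠ (σ 0) := perm_ne σ (by decide)
    have hne0 : (σ 0) ≠ (σ 2) := perm_ne σ (by decide)
    have hne1 : (σ 1) ≠ (σ 2) := perm_ne σ (by decide)
    subst h0
    refine win_disj rfl (.GP σ g q2 g' q', single (σ 0) d)
      (Or.inr (Or.inr ⟨q', d, g', h, rfl⟩)) ?_
    have hx3 : x3 ≤ T.N w := hp.le (move_le _ _ _ (hy _))
    have hy' := ok_mv3 T w y hy (single (σ 0) d)
    refine guess (T := T) (w := w) (fun y => Win T M w (.GP σ g q2 g' q') y) (σ 2) ?_ _ _ x3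
      hy' hx3 rfl ?_
    · intro y d _ h
      exact win_disj rfl (.GP σ g q2 g' q', single (σ 2) d) (Or.inl ⟨d, rfl⟩) h
    · have hz : ∀ j, Function.update ((dev3 T).mv w y (single (σ 0) d)) (σ 2) x3 j ≤ T.N w := by
        intro j
        by_cases hj : j = σ 2
        · subst hj; rw [Function.update_self]; exact hx3
        · rw [Function.update_of_ne hj]; exact hy' j
      refine win_disj rfl (.SP σ g q2 g' q' q3, idle3) (Or.inr ⟨q3, rfl⟩) ?_
      rw [mv_idle3]
      refine win_conj rfl (.P (σ * Equiv.swap 1 2) g' q' q3, idle3)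
        (.P (σ * Equiv.swap 0 2) g q3 q2, idle3) rfl ?_ ?_
      · rw [mv_idle3]
        refine ih1 _ _ hz ?_ ?_
        · show Function.update ((dev3 T).mv w y (single (σ 0) d)) (σ 2) x3 (σ 0) = _
          rw [Function.update_of_ne hne0, mv_single_self]
        · show Function.update ((dev3 T).mv w y (single (σ 0) d)) (σ 2) x3 (σ 2) = _
          rw [Function.update_self]
      · rw [mv_idle3]
        refine ih2 _ _ hz ?_ ?_
        · show Function.update ((dev3 T).mv w y (single (σ 0) d)) (σ 2) x3 (σ 2) = _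
          rw [Function.update_self]
        · show Function.update ((dev3 T).mv w y (single (σ 0) d)) (σ 2) x3 (σ 1) = _
          rw [Function.update_of_ne hne1, mv_single_ne T w y hne, h1]

lemma win_A {γ : Option M.Γ} {q : M.Q} {x : ℕ} (h : Aa T M w γ q x) :
    ∀ (σ : Equiv.Perm (Fin 3)) (y : Fin 3 → ℕ), (∀ i, y i ≤ T.N w) → y (σ 0) = x →
      Win T M w (.A σ γ q) y := by
  induction h with
  | acc h =>
    intro σ y hy h0
    exact win_disj rfl (.Top, idle3) (Or.inl ⟨h, rfl⟩) (win_top _)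
  | @none γ q q' x d h _ ih =>
    intro σ y hy h0
    subst h0
    refine win_disj rfl (.A σ γ q', single (σ 0) d) (Or.inr (Or.inl ⟨q', d, h, rfl⟩)) ?_
    exact ih σ _ (ok_mv3 T w y hy _) (mv_single_self T w y _ _)
  | @pop0 q q' x d h _ ih =>
    intro σ y hy h0
    subst h0
    refine win_disj rfl (.A σ none q', single (σ 0) d)
      (Or.inr (Or.inr (Or.inl ⟨rfl, q', d, h, rfl⟩))) ?_
    exact ih σ _ (ok_mv3 T w y hy _) (mv_single_self T w y _ _)
  | @push γ q q' x d g h _ ih =>
    intro σ y hy h0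
    subst h0
    refine win_disj rfl (.A σ (some g) q', single (σ 0) d)
      (Or.inr (Or.inr (Or.inr ⟨q', d, g, h, Or.inl rfl⟩))) ?_
    exact ih σ _ (ok_mv3 T w y hy _) (mv_single_self T w y _ _)
  | @pushpop γ q q' q2 x x2 d g h hp _ ih =>
    intro σ y hy h0
    have hne1 : (σ 0) ≠ (σ 1) := perm_ne σ (by decide)
    subst h0
    refine win_disj rfl (.GA σ γ q' g, single (σ 0) d)
      (Or.inr (Or.inr (Or.inr ⟨q', d, g, h, Or.inr rfl⟩))) ?_
    have hx2 : x2 ≤ T.N w := hp.le (move_le _ _ _ (hy _))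
    have hy' := ok_mv3 T w y hy (single (σ 0) d)
    refine guess (T := T) (w := w) (fun y => Win T M w (.GA σ γ q' g) y) (σ 1) ?_ _ _ x2
      hy' hx2 rfl ?_
    · intro y d _ h
      exact win_disj rfl (.GA σ γ q' g, single (σ 1) d) (Or.inl ⟨d, rfl⟩) h
    · have hz : ∀ j, Function.update ((dev3 T).mv w y (single (σ 0) d)) (σ 1) x2 j ≤ T.N w := by
        intro j
        by_cases hj : j = σ 1
        · subst hj; rw [Function.update_self]; exact hx2
        · rw [Function.update_of_ne hj]; exact hy' j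
      refine win_disj rfl (.SA σ γ q' g q2, idle3) (Or.inr ⟨q2, rfl⟩) ?_
      rw [mv_idle3]
      refine win_conj rfl (.P σ g q' q2, idle3)
        (.A (σ * Equiv.swap 0 1) γ q2, idle3) rfl ?_ ?_
      · rw [mv_idle3]
        refine win_P hp _ _ hz ?_ ?_
        · rw [Function.update_of_ne hne1, mv_single_self]
        · rw [Function.update_self]
      · rw [mv_idle3]
        refine ih _ _ hz ?_
        show Function.update ((dev3 T).mv w y (single (σ 0) d)) (σ 1) x2 (σ 1) = _
        rw [Function.update_self]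

variable (T M w)

/-- The machine accepts iff the game is won. -/
theorem lang_iff_win : w ∈ M.lang T.dev ↔ Win T M w (game T M).start (dev3 T).start := by
  rw [lang_iff_Aa]
  constructor
  · intro h
    exact win_A h 1 _ (fun _ => Nat.zero_le _) rfl
  · rintro ⟨s, hs⟩
    exact game_sound T M w s _ _ (fun _ => Nat.zero_le _) hs

end Win

end Pool.Agent.Heads
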