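import Pool.Agent.Lib_helper16.Heads.Defs
import Pool.Agent.Lib_helper16.Heads.LTS

/-!
Pushdown machines over abstract input devices, and lock-step emulations of devices.
-/

set_option autoImplicit false

namespace Pool.Agent.Heads

/-- An input device, depending on an input from `ι`: positions, labels, moves. -/
structure Dev (ι : Type) where
  P : Type
  C : Type
  D : Type
  start : P
  lab : ι → P → C
  mv : ι → P → D → P

/-- A pushdown machine reading labels from `C` and making moves from `D`. -/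
structure Mach (C D : Type) where
  Q : Type
  Γ : Type
  finQ : Finite Q
  finΓ : Finite Γ
  start : Q
  accept : Set Q
  δ : Q → C → Option Γ → Set (Q × D × Op Γ)

variable {ι : Type}

namespace Mach

variable (X : Dev ι) (M : Mach X.C X.D)

/-- One step. -/
def Step (w : ι) (c c' : Cfg M.Q X.P M.Γ) : Prop :=
  ∃ t ∈ M.δ c.state (X.lab w c.pos) c.stack.head?,
    c' = ⟨t.1, X.mv w c.pos t.2.1, t.2.2.apply c.stack⟩

/-- Reachability. -/
def Reach (w : ι) : ℕ → Cfg M.Q X.P M.Γ → Prop :=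
  ReachN (M.Step X w) ⟨M.start, X.start, []⟩

/-- Acceptance. -/
def lang : Set ι := {w | ∃ t c, M.Reach X w t c ∧ c.state ∈ M.accept}

/-- Determinism. -/
def Det {C D : Type} (M : Mach C D) : Prop := ∀ q x g, (M.δ q x g).Subsingleton

end Mach

/-- A lock-step emulation of device `X` by device `Y` with finite memory. -/
structure Emul (X Y : Dev ι) where
  μ : Type
  fin : Finite μ
  m0 : μ
  dl : μ → Y.C → X.C
  em : μ → Y.C → X.D → Y.D × μ
  ρ : ι → X.P → Y.P → μ → Prop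
  ρ0 : ∀ w, ρ w X.start Y.start m0
  ρlab : ∀ w x y m, ρ w x y m → X.lab w x = dl m (Y.lab w y)
  ρmv : ∀ w x y m, ρ w x y m → ∀ d,
    ρ w (X.mv w x d) (Y.mv w y (em m (Y.lab w y) d).1) (em m (Y.lab w y) d).2

namespace Emul

variable {X Y Z : Dev ι}

/-- The emulating machine. -/
def mach (E : Emul X Y) (M : Mach X.C X.D) : Mach Y.C Y.D where
  Q := M.Q × E.μ
  Γ := M.Γ
  finQ := by
    have := M.finQ
    have := E.fin
    infer_instance
  finΓ := M.finΓ
  start := (M.start, E.m0)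
  accept := {s | s.1 ∈ M.accept}
  δ := fun s c g => {t | ∃ r ∈ M.δ s.1 (E.dl s.2 c) g,
    t = ((r.1, (E.em s.2 c r.2.1).2), (E.em s.2 c r.2.1).1, r.2.2)}

lemma mach_det (E : Emul X Y) (M : Mach X.C X.D) (h : M.Det) : (E.mach M).Det := by
  rintro s c g a ⟨r, hr, rfl⟩ b ⟨r', hr', rfl⟩
  rw [h _ _ _ hr hr']

/-- The emulation is in lock step. -/
lemma mach_reach (E : Emul X Y) (M : Mach X.C X.D) (w : ι) (t : ℕ)
    (c : Cfg (M.Q × E.μ) Y.P M.Γ) (h : (E.mach M).Reach Y w t c) :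
    ∃ x, M.Reach X w t ⟨c.state.1, x, c.stack⟩ ∧ E.ρ w x c.pos c.state.2 := by
  induction h with
  | zero => exact ⟨X.start, ReachN.zero, E.ρ0 w⟩
  | @succ t a a' hr hs ih =>
    obtain ⟨x, hx, hρ⟩ := ih
    obtain ⟨tr, ⟨r, hr', rfl⟩, rfl⟩ := hs
    refine ⟨X.mv w x r.2.1, ReachN.succ hx ⟨r, ?_, rfl⟩, E.ρmv w _ _ _ hρ _⟩
    have h1 := E.ρlab w _ _ _ hρ
    show r ∈ M.δ a.state.1 (X.lab w x) a.stack.head?
    rw [h1]
    exact hr'

lemma mach_reach' (E : Emul X Y) (M : Mach X.C X.D) (w : ι) (t : ℕ)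
    (c : Cfg M.Q X.P M.Γ) (h : M.Reach X w t c) :
    ∃ y m, (E.mach M).Reach Y w t ⟨(c.state, m), y, c.stack⟩ ∧ E.ρ w c.pos y m := by
  induction h with
  | zero => exact ⟨Y.start, E.m0, ReachN.zero, E.ρ0 w⟩
  | @succ t a a' hr hs ih =>
    obtain ⟨y, m, hx, hρ⟩ := ih
    obtain ⟨r, hr', rfl⟩ := hs
    have h1 := E.ρlab w _ _ _ hρ
    refine ⟨Y.mv w y (E.em m (Y.lab w y) r.2.1).1, (E.em m (Y.lab w y) r.2.1).2,
      ReachN.succ hx ⟨_, ⟨r, ?_, rfl⟩, rfl⟩, E.ρmv w _ _ _ hρ _⟩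
    show r ∈ M.δ a.state (E.dl m (Y.lab w y)) a.stack.head?
    rw [← h1]
    exact hr'

lemma mach_lang (E : Emul X Y) (M : Mach X.C X.D) : (E.mach M).lang Y = M.lang X := by
  ext w
  constructor
  · rintro ⟨t, c, h1, h2⟩
    obtain ⟨x, h3, -⟩ := E.mach_reach M w t c h1
    exact ⟨t, _, h3, h2⟩
  · rintro ⟨t, c, h1, h2⟩
    obtain ⟨y, m, h3, -⟩ := E.mach_reach' M w t c h1
    exact ⟨t, _, h3, h2⟩

/-- Composition of emulations. -/
def trans (E : Emul X Y) (F : Emul Y Z) : Emul X Z where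
  μ := E.μ × F.μ
  fin := by
    have := E.fin
    have := F.fin
    infer_instance
  m0 := (E.m0, F.m0)
  dl := fun m c => E.dl m.1 (F.dl m.2 c)
  em := fun m c d => ((F.em m.2 c (E.em m.1 (F.dl m.2 c) d).1).1,
    ((E.em m.1 (F.dl m.2 c) d).2, (F.em m.2 c (E.em m.1 (F.dl m.2 c) d).1).2))
  ρ := fun w x z m => ∃ y, E.ρ w x y m.1 ∧ F.ρ w y z m.2
  ρ0 := fun w => ⟨Y.start, E.ρ0 w, F.ρ0 w⟩
  ρlab := by
    rintro w x z m ⟨y, h1, h2⟩
    rw [E.ρlab w _ _ _ h1, F.ρlab w _ _ _ h2]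
  ρmv := by
    rintro w x z m ⟨y, h1, h2⟩ d
    have h3 := F.ρlab w _ _ _ h2
    have h4 := E.ρmv w _ _ _ h1 d
    rw [h3] at h4
    exact ⟨_, h4, F.ρmv w _ _ _ h2 _⟩

end Emul

/-- The product of two devices. -/
@[reducible] def Dev.prod (X Y : Dev ι) : Dev ι where
  P := X.P × Y.P
  C := X.C × Y.C
  D := X.D × Y.D
  start := (X.start, Y.start)
  lab := fun w p => (X.lab w p.1, Y.lab w p.2)
  mv := fun w p d => (X.mv w p.1 d.1, Y.mv w p.2 d.2)

/-- An emulation in the presence of another device. -/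
def Emul.side {X Y : Dev ι} (E : Emul X Y) (Z : Dev ι) : Emul (X.prod Z) (Y.prod Z) where
  μ := E.μ
  fin := E.fin
  m0 := E.m0
  dl := fun m c => (E.dl m c.1, c.2)
  em := fun m c d => (((E.em m c.1 d.1).1, d.2), (E.em m c.1 d.1).2)
  ρ := fun w x y m => E.ρ w x.1 y.1 m ∧ x.2 = y.2
  ρ0 := fun w => ⟨E.ρ0 w, rfl⟩
  ρlab := by
    rintro w x y m ⟨h1, h2⟩
    show (X.lab w x.1, Z.lab w x.2) = (E.dl m (Y.lab w y.1), Z.lab w y.2)
    rw [E.ρlab w _ _ _ h1, h2]
  ρmv := by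
    rintro w x y m ⟨h1, h2⟩ d
    refine ⟨E.ρmv w _ _ _ h1 d.1, ?_⟩
    show Z.mv w x.2 d.2 = Z.mv w y.2 d.2
    rw [h2]

/-- Reassociation of products of devices. -/
def Emul.assoc (X Y Z : Dev ι) : Emul ((X.prod Y).prod Z) (X.prod (Y.prod Z)) where
  μ := Unit
  fin := inferInstance
  m0 := ()
  dl := fun _ c => ((c.1, c.2.1), c.2.2)
  em := fun _ _ d => ((d.1.1, (d.1.2, d.2)), ())
  ρ := fun _ x y _ => x = ((y.1, y.2.1), y.2.2)
  ρ0 := fun _ => rfl
  ρlab := by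
    rintro w x y m rfl
    rfl
  ρmv := by
    rintro w x y m rfl d
    rfl

/-- Reassociation of products of devices. -/
def Emul.assoc' (X Y Z : Dev ι) : Emul (X.prod (Y.prod Z)) ((X.prod Y).prod Z) where
  μ := Unit
  fin := inferInstance
  m0 := ()
  dl := fun _ c => (c.1.1, (c.1.2, c.2))
  em := fun _ _ d => (((d.1, d.2.1), d.2.2), ())
  ρ := fun _ x y _ => x = (y.1.1, (y.1.2, y.2))
  ρ0 := fun _ => rfl
  ρlab := by
    rintro w x y m rfl
    rfl
  ρmv := by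
    rintro w x y m rfl d
    rfl

/-- The trivial device. -/
def Dev.unit (ι : Type) : Dev ι := ⟨Unit, Unit, Unit, (), fun _ _ => (), fun _ _ _ => ()⟩

/-- Adding the trivial device. -/
def Emul.addUnit (X : Dev ι) : Emul X (X.prod (Dev.unit ι)) where
  μ := Unit
  fin := inferInstance
  m0 := ()
  dl := fun _ c => c.1
  em := fun _ _ d => ((d, ()), ())
  ρ := fun _ x y _ => x = y.1
  ρ0 := fun _ => rfl
  ρlab := by
    rintro w x y m rfl
    rfl
  ρmv := by
    rintro w x y m rfl d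
    rfl

/-- Removing the trivial device. -/
def Emul.rmUnit (X : Dev ι) : Emul (X.prod (Dev.unit ι)) X where
  μ := Unit
  fin := inferInstance
  m0 := ()
  dl := fun _ c => (c, ())
  em := fun _ _ d => (d.1, ())
  ρ := fun _ x y _ => x.1 = y
  ρ0 := fun _ => rfl
  ρlab := by
    rintro w x y m rfl
    rfl
  ρmv := by
    rintro w x y m rfl d
    rfl

end Pool.Agent.Heads
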