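import Pool.Agent.Lib_helper16.Heads.Pi

/-!
Games on devices with reversible moves, and their evaluation by deterministic pushdown machines
whose moves and stack height do not depend on the labels.
-/

set_option autoImplicit false

namespace Pool.Agent.Heads

variable {ι : Type}

/-- A device with reversible moves and finitely many moves. -/
structure RDev (ι : Type) where
  dev : Dev ι
  ok : ι → dev.P → Prop
  ok_start : ∀ w, ok w dev.start
  ok_mv : ∀ w y d, ok w y → ok w (dev.mv w y d)
  inv : dev.C → dev.D → dev.D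
  hinv : ∀ w y d, ok w y → dev.mv w (dev.mv w y d) (inv (dev.lab w y) d) = y
  idle : dev.D
  hidle : ∀ w y, dev.mv w y idle = y
  finD : Finite dev.D

/-- A game with labels in `C` and moves in `D`. -/
structure Game (C D : Type) where
  Q : Type
  finQ : Finite Q
  start : Q
  conj : Q → Bool
  opts : Q → C → Set (Q × D)

namespace Game

variable {C D : Type} (G : Game C D)

/-- The value of the game within `s` moves. -/
def Acc (Y : Dev ι) (G : Game Y.C Y.D) (w : ι) : ℕ → G.Q → Y.P → Prop
  | 0, _, _ => False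
  | s + 1, q, y => if G.conj q = true then
      ∀ t ∈ G.opts q (Y.lab w y), Acc Y G w s t.1 (Y.mv w y t.2)
      else ∃ t ∈ G.opts q (Y.lab w y), Acc Y G w s t.1 (Y.mv w y t.2)

lemma acc_mono (Y : Dev ι) (G : Game Y.C Y.D) (w : ι) (s : ℕ) : ∀ (q : G.Q) (y : Y.P),
    Acc Y G w s q y → Acc Y G w (s + 1) q y := by
  induction s with
  | zero => intro q y h; exact h.elim
  | succ s ih =>
    intro q y h
    unfold Acc at h ⊢
    split_ifs at h ⊢ with hc
    · intro t ht
      exact ih _ _ (h t ht)
    · obtain ⟨t, ht, h⟩ := h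
      exact ⟨t, ht, ih _ _ h⟩

lemma acc_le (Y : Dev ι) (G : Game Y.C Y.D) (w : ι) {s s' : ℕ} (h : s ≤ s') (q : G.Q)
    (y : Y.P) : Acc Y G w s q y → Acc Y G w s' q y := by
  induction s', h using Nat.le_induction with
  | base => exact id
  | succ s' _ ih => exact fun h1 => acc_mono Y G w s' q y (ih h1)

end Game

/-! ### The evaluating machine -/

section Eval

variable (Y : RDev ι) (T : Track ι) (G : Game Y.dev.C Y.dev.D)

/-- The states of the evaluating machine. -/
inductive EQ (Q : Type) (m : ℕ) where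
  | down : Q → EQ Q m
  | loop : Q → Fin (m + 1) → Bool → EQ Q m
  | up : Bool → EQ Q m
  | done : EQ Q m

lemma finite_EQ (Q : Type) [Finite Q] (m : ℕ) : Finite (EQ Q m) := by
  refine Finite.of_injective (fun s : EQ Q m => match s with
    | .down q => (Sum.inl q : Q ⊕ (Q × Fin (m + 1) × Bool) ⊕ Bool ⊕ Unit)
    | .loop q j b => Sum.inr (Sum.inl (q, j, b))
    | .up b => Sum.inr (Sum.inr (Sum.inl b))
    | .done => Sum.inr (Sum.inr (Sum.inr ()))) ?_
  intro a b h
  cases a <;> cases b <;> simp_all

/-- The records on the stack. -/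
structure Rec (Q D : Type) (m : ℕ) where
  q : Q
  j : Fin m
  b : Bool
  used : Bool
  i : D

lemma finite_Rec (Q D : Type) [Finite Q] [Finite D] (m : ℕ) : Finite (Rec Q D m) := by
  refine Finite.of_injective (fun s : Rec Q D m => (s.q, s.j, s.b, s.used, s.i)) ?_
  intro a b h
  cases a; cases b
  simp_all

open Classical in
/-- The transitions of the evaluating machine; `e` enumerates the pairs (state, move). -/
noncomputable def eδ {m : ℕ} (e : Fin m → G.Q × Y.dev.D) (c : Y.dev.C) (a : T.B)
    (top : Option (Rec G.Q Y.dev.D m)) :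
    EQ G.Q m → Option (EQ G.Q m × (Y.dev.D × Dir) × Op (Rec G.Q Y.dev.D m))
  | .down q => if T.isR a then some (.up false, (Y.idle, Dir.S), Op.none)
      else some (.loop q 0 (G.conj q), (Y.idle, Dir.S), Op.none)
  | .loop q j b => if h : (j : ℕ) < m then
      some (.down (e ⟨j, h⟩).1, ((e ⟨j, h⟩).2, Dir.R),
        Op.push ⟨q, ⟨j, h⟩, b, decide (e ⟨j, h⟩ ∈ G.opts q c), Y.inv c (e ⟨j, h⟩).2⟩)
      else some (.up b, (Y.idle, Dir.S), Op.none)
  | .up b => match top with
    | none => if b then some (.done, (Y.idle, Dir.S), Op.none) else none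
    | some r => some (.loop r.q r.j.succ (if r.used then
        (if G.conj r.q then r.b && b else r.b || b) else r.b), (r.i, Dir.L), Op.pop)
  | .done => none

/-- The evaluating machine. -/
noncomputable def eval {m : ℕ} (e : Fin m → G.Q × Y.dev.D) :
    Mach (Y.dev.prod T.dev).C (Y.dev.prod T.dev).D where
  Q := EQ G.Q m
  Γ := Rec G.Q Y.dev.D m
  finQ := by
    have := G.finQ
    exact finite_EQ _ _
  finΓ := by
    have := G.finQ
    have := Y.finD
    exact finite_Rec _ _ _
  start := .down G.start
  accept := {.done}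
  δ := fun s x top => {t | eδ Y T G e x.1 x.2 top s = some t}

lemma eval_det {m : ℕ} (e : Fin m → G.Q × Y.dev.D) : (eval Y T G e).Det := by
  intro s x top a ha b hb
  have ha' : eδ Y T G e x.1 x.2 top s = some a := ha
  have hb' : eδ Y T G e x.1 x.2 top s = some b := hb
  rw [ha'] at hb'
  exact Option.some.inj hb'

variable {m : ℕ} (e : Fin m → G.Q × Y.dev.D)

lemma eval_step (w : ι) (s : EQ G.Q m) (y : Y.dev.P) (t : ℕ) (σ : List (Rec G.Q Y.dev.D m))
    (c' : Cfg (EQ G.Q m) (Y.dev.P × ℕ) (Rec G.Q Y.dev.D m)) :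
    (eval Y T G e).Step (Y.dev.prod T.dev) w ⟨s, (y, t), σ⟩ c' ↔
      ∃ tr, eδ Y T G e (Y.dev.lab w y) (T.lab w t) σ.head? s = some tr ∧
        c' = ⟨tr.1, (Y.dev.mv w y tr.2.1.1, move (T.N w) t tr.2.1.2), tr.2.2.apply σ⟩ :=
  Iff.rfl

/-- Computations. -/
abbrev Steps (w : ι) := Relation.ReflTransGen
  ((eval Y T G e).Step (Y.dev.prod T.dev) w)

lemma steps_of (w : ι) (s : EQ G.Q m) (y : Y.dev.P) (t : ℕ) (σ : List (Rec G.Q Y.dev.D m))
    (tr : EQ G.Q m × (Y.dev.D × Dir) × Op (Rec G.Q Y.dev.D m))
    (h : eδ Y T G e (Y.dev.lab w y) (T.lab w t) σ.head? s = some tr) :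
    Steps Y T G e w ⟨s, (y, t), σ⟩
      ⟨tr.1, (Y.dev.mv w y tr.2.1.1, move (T.N w) t tr.2.1.2), tr.2.2.apply σ⟩ :=
  Relation.ReflTransGen.single ((eval_step Y T G e w s y t σ _).2 ⟨tr, h, rfl⟩)

open Classical in
/-- The partial value after the first `j` options. -/
noncomputable def val (w : ι) (s : ℕ) (q : G.Q) (y : Y.dev.P) (j : ℕ) : Bool :=
  if G.conj q = true then
    decide (∀ i : Fin m, (i : ℕ) < j → e i ∈ G.opts q (Y.dev.lab w y) →
      Game.Acc Y.dev G w s (e i).1 (Y.dev.mv w y (e i).2))
  else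
    decide (∃ i : Fin m, (i : ℕ) < j ∧ e i ∈ G.opts q (Y.dev.lab w y) ∧
      Game.Acc Y.dev G w s (e i).1 (Y.dev.mv w y (e i).2))

open Classical in
lemma val_zero (w : ι) (s : ℕ) (q : G.Q) (y : Y.dev.P) :
    val Y G e w s q y 0 = G.conj q := by
  unfold val
  cases h : G.conj q <;> simp

open Classical in
lemma val_succ (w : ι) (s : ℕ) (q : G.Q) (y : Y.dev.P) (j : Fin m) :
    val Y G e w s q y (j + 1) =
      if decide (e j ∈ G.opts q (Y.dev.lab w y)) = true then
        (if G.conj q = true then val Y G e w s q y j &&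
            decide (Game.Acc Y.dev G w s (e j).1 (Y.dev.mv w y (e j).2))
          else val Y G e w s q y j ||
            decide (Game.Acc Y.dev G w s (e j).1 (Y.dev.mv w y (e j).2)))
      else val Y G e w s q y j := by
  have hlt : ∀ i : Fin m, (i : ℕ) < j + 1 ↔ (i : ℕ) < j ∨ i = j := by
    intro i
    rw [Fin.ext_iff]
    omega
  unfold val
  cases h : G.conj q with
  | true =>
    simp only [if_true]
    by_cases h1 : e j ∈ G.opts q (Y.dev.lab w y)
    · simp only [h1, decide_true, if_true]
      rw [← Bool.decide_and]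
      congr 1
      apply propext
      constructor
      · intro h2
        exact ⟨fun i hi hi' => h2 i ((hlt i).2 (Or.inl hi)) hi',
          h2 j ((hlt j).2 (Or.inr rfl)) h1⟩
      · rintro ⟨h2, h3⟩ i hi hi'
        rcases (hlt i).1 hi with h4 | rfl
        · exact h2 i h4 hi'
        · exact h3
    · simp only [h1, decide_false, Bool.false_eq_true, if_false]
      congr 1
      apply propext
      constructor
      · intro h2 i hi hi'
        exact h2 i ((hlt i).2 (Or.inl hi)) hi'
      · intro h2 i hi hi'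
        rcases (hlt i).1 hi with h4 | rfl
        · exact h2 i h4 hi'
        · exact absurd hi' h1
  | false =>
    simp only [Bool.false_eq_true, if_false]
    by_cases h1 : e j ∈ G.opts q (Y.dev.lab w y)
    · simp only [h1, decide_true, if_true]
      rw [← Bool.decide_or]
      congr 1
      apply propext
      constructor
      · rintro ⟨i, hi, hi', h2⟩
        rcases (hlt i).1 hi with h4 | rfl
        · exact Or.inl ⟨i, h4, hi', h2⟩
        · exact Or.inr h2
      · rintro (⟨i, hi, hi', h2⟩ | h2)
        · exact ⟨i, (hlt i).2 (Or.inl hi), hi', h2⟩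
        · exact ⟨j, (hlt j).2 (Or.inr rfl), h1, h2⟩
    · simp only [h1, decide_false, Bool.false_eq_true, if_false]
      congr 1
      apply propext
      constructor
      · rintro ⟨i, hi, hi', h2⟩
        rcases (hlt i).1 hi with h4 | rfl
        · exact ⟨i, h4, hi', h2⟩
        · exact absurd hi' h1
      · rintro ⟨i, hi, hi', h2⟩
        exact ⟨i, (hlt i).2 (Or.inl hi), hi', h2⟩

open Classical in
lemma val_last (he : Function.Surjective e) (w : ι) (s : ℕ) (q : G.Q) (y : Y.dev.P) :
    val Y G e w s q y m = decide (Game.Acc Y.dev G w (s + 1) q y) := by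
  have hacc : Game.Acc Y.dev G w (s + 1) q y = (if G.conj q = true then
      ∀ t ∈ G.opts q (Y.dev.lab w y), Game.Acc Y.dev G w s t.1 (Y.dev.mv w y t.2)
      else ∃ t ∈ G.opts q (Y.dev.lab w y), Game.Acc Y.dev G w s t.1 (Y.dev.mv w y t.2)) := rfl
  rw [hacc]
  unfold val
  cases h : G.conj q with
  | true =>
    simp only [if_true]
    congr 1
    apply propext
    constructor
    · intro h2 t ht
      obtain ⟨i, rfl⟩ := he t
      exact h2 i i.2 ht
    · intro h2 i _ hi
      exact h2 _ hi
  | false =>
    simp only [Bool.false_eq_true, if_false]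
    congr 1
    apply propext
    constructor
    · rintro ⟨i, -, hi, h2⟩
      exact ⟨_, hi, h2⟩
    · rintro ⟨t, ht, h2⟩
      obtain ⟨i, rfl⟩ := he t
      exact ⟨i, i.2, ht, h2⟩

open Classical in
theorem eval_spec (he : Function.Surjective e) (w : ι) (s : ℕ) : ∀ (q : G.Q) (y : Y.dev.P)
    (t : ℕ) (σ : List (Rec G.Q Y.dev.D m)), Y.ok w y → t + s = T.N w →
    Steps Y T G e w ⟨.down q, (y, t), σ⟩
      ⟨.up (decide (Game.Acc Y.dev G w s q y)), (y, t), σ⟩ := by
  induction s with
  | zero =>
    intro q y t σ hy ht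
    have hR : T.isR (T.lab w t) = true := (T.hR w t (by omega)).2 (by omega)
    have h1 := steps_of Y T G e w (.down q) y t σ (.up false, (Y.idle, Dir.S), Op.none) (by
      simp only [eδ, hR, if_true])
    have h2 : decide (Game.Acc Y.dev G w 0 q y) = false := decide_eq_false (fun h => h)
    rw [h2]
    simpa [Y.hidle, move, Op.apply] using h1
  | succ s ih =>
    intro q y t σ hy ht
    have hR : T.isR (T.lab w t) = false := by
      rw [Bool.eq_false_iff]
      intro h
      have := (T.hR w t (by omega)).1 h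
      omega
    have h1 := steps_of Y T G e w (.down q) y t σ
      (.loop q 0 (G.conj q), (Y.idle, Dir.S), Op.none) (by
      simp only [eδ, hR, Bool.false_eq_true, if_false])
    have h1' : Steps Y T G e w ⟨.down q, (y, t), σ⟩ ⟨.loop q 0 (G.conj q), (y, t), σ⟩ := by
      simpa [Y.hidle, move, Op.apply] using h1
    -- the loop
    have hloop : ∀ j : ℕ, ∀ hj : j < m + 1, Steps Y T G e w ⟨.down q, (y, t), σ⟩
        ⟨.loop q ⟨j, hj⟩ (val Y G e w s q y j), (y, t), σ⟩ := by
      intro j
      induction j with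
      | zero =>
        intro hj
        rw [val_zero]
        exact h1'
      | succ j ihj =>
        intro hj
        have hjm : j < m := by omega
        have h2 := ihj (by omega)
        have h3 := steps_of Y T G e w (.loop q ⟨j, by omega⟩ (val Y G e w s q y j)) y t σ
          (.down (e ⟨j, hjm⟩).1, ((e ⟨j, hjm⟩).2, Dir.R),
            Op.push ⟨q, ⟨j, hjm⟩, val Y G e w s q y j,
              decide (e ⟨j, hjm⟩ ∈ G.opts q (Y.dev.lab w y)),
              Y.inv (Y.dev.lab w y) (e ⟨j, hjm⟩).2⟩) (by
          simp only [eδ, hjm, dif_pos])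
        have hmv : move (T.N w) t Dir.R = t + 1 := by simp only [move]; omega
        have h4 := ih (e ⟨j, hjm⟩).1 (Y.dev.mv w y (e ⟨j, hjm⟩).2) (t + 1)
          (⟨q, ⟨j, hjm⟩, val Y G e w s q y j,
              decide (e ⟨j, hjm⟩ ∈ G.opts q (Y.dev.lab w y)),
              Y.inv (Y.dev.lab w y) (e ⟨j, hjm⟩).2⟩ :: σ) (Y.ok_mv _ _ _ hy) (by omega)
        have h5 := steps_of Y T G e w
          (.up (decide (Game.Acc Y.dev G w s (e ⟨j, hjm⟩).1 (Y.dev.mv w y (e ⟨j, hjm⟩).2))))
          (Y.dev.mv w y (e ⟨j, hjm⟩).2) (t + 1)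
          (⟨q, ⟨j, hjm⟩, val Y G e w s q y j,
              decide (e ⟨j, hjm⟩ ∈ G.opts q (Y.dev.lab w y)),
              Y.inv (Y.dev.lab w y) (e ⟨j, hjm⟩).2⟩ :: σ)
          (.loop q (Fin.succ ⟨j, hjm⟩) (val Y G e w s q y (j + 1)),
            (Y.inv (Y.dev.lab w y) (e ⟨j, hjm⟩).2, Dir.L), Op.pop) (by
          simp only [eδ, List.head?_cons]
          rw [val_succ Y G e w s q y ⟨j, hjm⟩])
        have hmv2 : move (T.N w) (t + 1) Dir.L = t := by simp only [move]; omega
        have h3' : Steps Y T G e w ⟨.loop q ⟨j, by omega⟩ (val Y G e w s q y j), (y, t), σ⟩ _ :=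
          h3
        simp only [hmv] at h3'
        have h5' := h5
        simp only [hmv2, Y.hinv w y _ hy] at h5'
        exact h2.trans (h3'.trans (h4.trans h5'))
    have h6 := hloop m (by omega)
    have h7 := steps_of Y T G e w (.loop q ⟨m, by omega⟩ (val Y G e w s q y m)) y t σ
      (.up (val Y G e w s q y m), (Y.idle, Dir.S), Op.none) (by
      simp only [eδ, lt_irrefl, dif_neg, not_false_eq_true])
    have h7' : Steps Y T G e w ⟨.loop q ⟨m, by omega⟩ (val Y G e w s q y m), (y, t), σ⟩
        ⟨.up (val Y G e w s q y m), (y, t), σ⟩ := by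
      simpa [Y.hidle, move, Op.apply] using h7
    rw [val_last Y G e he] at h7' h6
    exact h6.trans h7'

lemma reachN_steps {B : Type} {R : B → B → Prop} {b c : B} :
    Relation.ReflTransGen R b c ↔ ∃ t, ReachN R b t c := by
  constructor
  · intro h
    induction h with
    | refl => exact ⟨0, ReachN.zero⟩
    | tail h1 h2 ih =>
      obtain ⟨t, ht⟩ := ih
      exact ⟨t + 1, ReachN.succ ht h2⟩
  · rintro ⟨t, ht⟩
    induction ht with
    | zero => exact Relation.ReflTransGen.refl
    | succ h1 h2 ih => exact Relation.ReflTransGen.tail ih h2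

lemma step_unique (w : ι) (c c1 c2 : Cfg (EQ G.Q m) (Y.dev.P × ℕ) (Rec G.Q Y.dev.D m))
    (h1 : (eval Y T G e).Step (Y.dev.prod T.dev) w c c1)
    (h2 : (eval Y T G e).Step (Y.dev.prod T.dev) w c c2) : c1 = c2 := by
  obtain ⟨s, ⟨y, t⟩, σ⟩ := c
  obtain ⟨tr, h3, rfl⟩ := (eval_step Y T G e w s y t σ _).1 h1
  obtain ⟨tr', h4, rfl⟩ := (eval_step Y T G e w s y t σ _).1 h2
  rw [h3] at h4
  rw [Option.some.inj h4]

open Classical in
/-- The evaluating machine accepts iff the value of the game is true. -/
theorem eval_lang (he : Function.Surjective e) : (eval Y T G e).lang (Y.dev.prod T.dev) =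
    {w | Game.Acc Y.dev G w (T.N w) G.start Y.dev.start} := by
  ext w
  have h1 := eval_spec Y T G e he w (T.N w) G.start Y.dev.start 0 [] (Y.ok_start w) (by omega)
  constructor
  · rintro ⟨t, c, h2, h3⟩
    by_contra h4
    have h4' : ¬ Game.Acc Y.dev G w (T.N w) G.start Y.dev.start := h4
    rw [decide_eq_false h4'] at h1
    have h5 : Steps Y T G e w ⟨.down G.start, (Y.dev.start, 0), []⟩ c :=
      reachN_steps.2 ⟨t, h2⟩
    have hstuck1 : ∀ c', ¬ (eval Y T G e).Step (Y.dev.prod T.dev) w
        ⟨.up false, (Y.dev.start, 0), []⟩ c' := by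
      intro c' hc
      obtain ⟨tr, htr, -⟩ := (eval_step Y T G e w _ _ _ _ _).1 hc
      have htr' : (none : Option (EQ G.Q m × (Y.dev.D × Dir) × Op (Rec G.Q Y.dev.D m))) =
        some tr := htr
      exact absurd htr' (by simp)
    have hstuck2 : ∀ c', ¬ (eval Y T G e).Step (Y.dev.prod T.dev) w c c' := by
      intro c' hc
      obtain ⟨s, ⟨y, u⟩, σ⟩ := c
      have hs : s = .done := h3
      subst hs
      obtain ⟨tr, htr, -⟩ := (eval_step Y T G e w _ _ _ _ _).1 hc
      simp [eδ] at htr
    have h6 := Relation.ReflTransGen.total_of_right_unique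
      (fun a b c h h' => step_unique Y T G e w a b c h h') h1 h5
    have h7 : (⟨.up false, (Y.dev.start, 0), []⟩ :
        Cfg (EQ G.Q m) (Y.dev.P × ℕ) (Rec G.Q Y.dev.D m)) = c := by
      rcases h6 with h6 | h6
      · rcases Relation.ReflTransGen.cases_head h6 with h | ⟨c', h, -⟩
        · exact h
        · exact absurd h (hstuck1 c')
      · rcases Relation.ReflTransGen.cases_head h6 with h | ⟨c', h, -⟩
        · exact h.symm
        · exact absurd h (hstuck2 c')
    subst h7
    have h8 : (EQ.up false : EQ G.Q m) = .done := h3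
    simp at h8
  · intro h
    have h' : Game.Acc Y.dev G w (T.N w) G.start Y.dev.start := h
    rw [decide_eq_true h'] at h1
    have h2 := steps_of Y T G e w (.up true) Y.dev.start 0 []
      (.done, (Y.idle, Dir.S), Op.none) (by simp [eδ])
    obtain ⟨t, ht⟩ := reachN_steps.1 (h1.trans h2)
    exact ⟨t, _, ht, rfl⟩

/-- Same shape of states. -/
def sameS {Q : Type} {m : ℕ} : EQ Q m → EQ Q m → Prop
  | .down _, .down _ => True
  | .loop _ j _, .loop _ j' _ => j = j'
  | .up _, .up _ => True
  | .done, .done => True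
  | _, _ => False

/-- Same shape of records. -/
def sameR {Q D : Type} {m : ℕ} (r r' : Rec Q D m) : Prop := r.j = r'.j ∧ r.i = r'.i

/-- The moves of the evaluating machine do not depend on the labels. -/
theorem eval_obl (w w' : ι)
    (hmv : ∀ y d, Y.ok w y → Y.dev.mv w y d = Y.dev.mv w' y d)
    (hiv : ∀ y d, Y.ok w y → Y.inv (Y.dev.lab w y) d = Y.inv (Y.dev.lab w' y) d)
    (hT : T.N w = T.N w') (t : ℕ) :
    ∀ (c c' : Cfg (EQ G.Q m) (Y.dev.P × ℕ) (Rec G.Q Y.dev.D m)),
      (eval Y T G e).Reach (Y.dev.prod T.dev) w t c →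
      (eval Y T G e).Reach (Y.dev.prod T.dev) w' t c' →
      c.pos = c'.pos ∧ sameS c.state c'.state ∧ List.Forall₂ sameR c.stack c'.stack ∧
        Y.ok w c.pos.1 ∧ c.pos.2 ≤ T.N w := by
  induction t with
  | zero =>
    intro c c' h h'
    cases h
    cases h'
    exact ⟨rfl, trivial, List.Forall₂.nil, Y.ok_start w, Nat.zero_le _⟩
  | succ t ih =>
    intro c c' h h'
    cases h with
    | succ h1 h2 =>
    cases h' with
    | succ h3 h4 =>
    rename_i b b'
    obtain ⟨e1, e2, e3, e4, e5⟩ := ih b b' h1 h3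
    obtain ⟨s, ⟨y, u⟩, σ⟩ := b
    obtain ⟨s', ⟨y', u'⟩, σ'⟩ := b'
    have e1' : (y, u) = (y', u') := e1
    obtain ⟨rfl, rfl⟩ := Prod.mk.inj e1'
    obtain ⟨tr, h5, rfl⟩ := (eval_step Y T G e w s y u σ _).1 h2
    obtain ⟨tr', h6, rfl⟩ := (eval_step Y T G e w' s' y u σ' _).1 h4
    simp only at e2 e3 e4 e5
    -- it suffices to compare the transitions
    suffices hh : tr.2.1 = tr'.2.1 ∧ sameS tr.1 tr'.1 ∧
        List.Forall₂ sameR (tr.2.2.apply σ) (tr'.2.2.apply σ') by
      obtain ⟨f1, f2, f3⟩ := hh
      refine ⟨?_, f2, f3, Y.ok_mv _ _ _ e4, move_le _ _ _ e5⟩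
      show (Y.dev.mv w y tr.2.1.1, move (T.N w) u tr.2.1.2) =
        (Y.dev.mv w' y tr'.2.1.1, move (T.N w') u tr'.2.1.2)
      rw [f1, hmv y _ e4, hT]
    have hR : T.isR (T.lab w u) = T.isR (T.lab w' u) := by
      have g1 := T.hR w u e5
      have g2 := T.hR w' u (by rw [← hT]; exact e5)
      rw [hT] at g1
      cases h7 : T.isR (T.lab w u) <;> cases h8 : T.isR (T.lab w' u) <;> simp_all
    cases s with
    | down q =>
      cases s' with
      | down q' =>
        simp only [eδ] at h5 h6
        rw [hR] at h5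
        split_ifs at h5 h6 with h7
        · obtain rfl := Option.some.inj h5
          obtain rfl := Option.some.inj h6
          exact ⟨rfl, trivial, e3⟩
        · obtain rfl := Option.some.inj h5
          obtain rfl := Option.some.inj h6
          exact ⟨rfl, rfl, e3⟩
      | loop _ _ _ => exact e2.elim
      | up _ => exact e2.elim
      | done => exact e2.elim
    | loop q j b =>
      cases s' with
      | down _ => exact e2.elim
      | loop q' j' b' =>
        have e2' : j = j' := e2
        subst e2'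
        simp only [eδ] at h5 h6
        by_cases hj : (j : ℕ) < m
        · rw [dif_pos hj] at h5 h6
          obtain rfl := Option.some.inj h5
          obtain rfl := Option.some.inj h6
          exact ⟨rfl, trivial, List.Forall₂.cons ⟨rfl, hiv y _ e4⟩ e3⟩
        · rw [dif_neg hj] at h5 h6
          obtain rfl := Option.some.inj h5
          obtain rfl := Option.some.inj h6
          exact ⟨rfl, trivial, e3⟩
      | up _ => exact e2.elim
      | done => exact e2.elim
    | up b =>
      cases s' with
      | down _ => exact e2.elim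
      | loop _ _ _ => exact e2.elim
      | up b' =>
        cases e3 with
        | nil =>
          simp only [eδ, List.head?_nil] at h5 h6
          split_ifs at h5 h6
          obtain rfl := Option.some.inj h5
          obtain rfl := Option.some.inj h6
          exact ⟨rfl, trivial, List.Forall₂.nil⟩
        | cons g1 g2 =>
          simp only [eδ, List.head?_cons] at h5 h6
          obtain rfl := Option.some.inj h5
          obtain rfl := Option.some.inj h6
          refine ⟨?_, ?_, g2⟩
          · simp only [g1.2]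
          · show Fin.succ _ = Fin.succ _
            rw [g1.1]
      | done => exact e2.elim
    | done =>
      simp [eδ] at h5

end Eval

end Pool.Agent.Heads
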