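import Pool.Agent.Lib_helper16.Heads.Pi

/-!
The main theorems: data-independent multihead pushdown automata, sweeping one-head pushdown
automata, and the reduction of the two questions to sweeping one-head pushdown automata.
-/

set_option autoImplicit false

namespace Pool.Agent.Heads

variable {α : Type}

/-! ### Automata as machines -/

/-- A pushdown automaton as a machine. -/
def PDA.toMach {k : ℕ} (M : PDA α k) : Mach (Fin k → Sym α) (Fin k → Dir) :=
  ⟨M.Q, M.Γ, M.finQ, M.finΓ, M.start, M.accept, M.δ⟩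

/-- A machine as a pushdown automaton. -/
def Mach.toPDA {k : ℕ} (M : Mach (Fin k → Sym α) (Fin k → Dir)) : PDA α k :=
  ⟨M.Q, M.Γ, M.finQ, M.finΓ, M.start, M.accept, M.δ⟩

lemma PDA.reach_toMach {k : ℕ} (M : PDA α k) (w : List α) (t : ℕ)
    (c : Cfg M.Q (Fin k → ℕ) M.Γ) :
    M.Reach w t c ↔ M.toMach.Reach (piDev (Fin k) (headDev α)) w t c := by
  constructor
  · intro h
    induction h with
    | zero => exact ReachN.zero
    | succ h1 h2 ih => exact ReachN.succ ih h2
  · intro h
    induction h with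
    | zero => exact PDA.Reach.zero
    | succ h1 h2 ih => exact PDA.Reach.succ ih h2

lemma Mach.reach_toPDA {k : ℕ} (M : Mach (Fin k → Sym α) (Fin k → Dir)) (w : List α) (t : ℕ)
    (c : Cfg M.Q (Fin k → ℕ) M.Γ) :
    M.toPDA.Reach w t c ↔ M.Reach (piDev (Fin k) (headDev α)) w t c :=
  M.toPDA.reach_toMach w t c

lemma PDA.lang_toMach {k : ℕ} (M : PDA α k) :
    M.toMach.lang (piDev (Fin k) (headDev α)) = M.lang := by
  ext w
  constructor
  · rintro ⟨t, c, h1, h2⟩
    exact ⟨t, c, (M.reach_toMach w t c).2 h1, h2⟩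
  · rintro ⟨t, c, h1, h2⟩
    exact ⟨t, c, (M.reach_toMach w t c).1 h1, h2⟩

lemma Mach.lang_toPDA {k : ℕ} (M : Mach (Fin k → Sym α) (Fin k → Dir)) :
    M.toPDA.lang = M.lang (piDev (Fin k) (headDev α)) :=
  (M.toPDA.lang_toMach).symm

/-! ### Data-independent automata -/

/-- The trajectory of the `k + 1` heads. -/
def traj (k n t : ℕ) : Fin (k + 1) → ℕ := grid k n (tri (glen k n) t)

/-- Every pushdown automaton with `k + 1` heads is equivalent to one whose heads follow the
trajectory `traj k`. -/
theorem dataIndependent (k : ℕ) (M : PDA α (k + 1)) : ∃ M' : PDA α (k + 1),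
    M'.lang = M.lang ∧ (M.Det → M'.Det) ∧
      ∀ w t c, M'.Reach w t c → c.pos = traj k w.length t := by
  obtain ⟨M1, h1, h2⟩ := toTrack α k M.toMach
  let M2 := SweepT.sweep (TT α k) M1
  let M3 := (toPi α k).mach M2
  refine ⟨Mach.toPDA M3, ?_, ?_, ?_⟩
  · exact (Mach.lang_toPDA M3).trans (((toPi α k).mach_lang M2).trans
      ((SweepT.sweep_lang (TT α k) M1).trans (h1.trans M.lang_toMach)))
  · intro hd
    exact (toPi α k).mach_det M2 (SweepT.sweep_det (TT α k) M1 (h2 hd))
  · intro w t c hc
    obtain ⟨x, h3, h4⟩ := (toPi α k).mach_reach M2 w t c ((Mach.reach_toPDA M3 w t c).1 hc)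
    have h5 := SweepT.sweep_pos (TT α k) M1 w t _ h3
    have h6 := toPi_pos α k w x c.pos _ h4
    rw [h6, traj, ← TT_N]
    show grid k w.length x = _
    have h5' : x = tri ((TT α k).N w) t := h5
    rw [h5']

/-! ### Sweeping one-head automata -/

/-- Every one-head pushdown automaton is equivalent to a sweeping one which never pops after a
push in the same sweep. -/
theorem sweeping (M : PDA α 1) : ∃ M' : PDA α 1, M'.lang = M.lang ∧ (M.Det → M'.Det) ∧
    M'.Sweeping ∧ M'.PopThenPush := by
  let M1 := (Emul.one (headDev α)).mach M.toMach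
  let M2 := SweepT.sweep (base α) M1
  let M3 := (Emul.one' (headDev α)).mach M2
  refine ⟨Mach.toPDA M3, ?_, ?_, ?_, ?_⟩
  · exact (Mach.lang_toPDA M3).trans (((Emul.one' (headDev α)).mach_lang M2).trans
      ((SweepT.sweep_lang (base α) M1).trans
        (((Emul.one (headDev α)).mach_lang M.toMach).trans M.lang_toMach)))
  · intro hd
    exact (Emul.one' (headDev α)).mach_det M2
      (SweepT.sweep_det (base α) M1 ((Emul.one (headDev α)).mach_det M.toMach hd))
  · intro w t c hc
    obtain ⟨x, h3, h4⟩ := (Emul.one' (headDev α)).mach_reach M2 w t c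
      ((Mach.reach_toPDA M3 w t c).1 hc)
    have h5 : x = tri (w.length + 1) t := SweepT.sweep_pos (base α) M1 w t _ h3
    have h6 : x = c.pos 0 := h4
    rw [← h6, h5]
  · intro w n r h0 hstep
    let φ : Cfg (M2.Q × Unit) (Fin 1 → ℕ) M2.Γ → Cfg M2.Q ℕ M2.Γ :=
      fun c => ⟨c.state.1, c.pos 0, c.stack⟩
    have key := SweepT.sweep_popThenPush (base α) M1 w n (fun t => φ (r t)) (by
      show φ (r 0) = _
      rw [h0]
      rfl) (by
      intro t ht
      obtain ⟨tr, ⟨s, hs, rfl⟩, he⟩ := hstep t ht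
      refine ⟨s, hs, ?_⟩
      show φ (r (t + 1)) = _
      rw [he]
      rfl)
    exact key

/-! ### Finite automata as machines without stack -/

/-- A finite automaton as a machine with empty stack alphabet. -/
def FA.toMach {k : ℕ} (A : FA α k) : Mach (Fin k → Sym α) (Fin k → Dir) where
  Q := A.Q
  Γ := Empty
  finQ := A.finQ
  finΓ := inferInstance
  start := A.start
  accept := A.accept
  δ := fun q c _ => {t | ∃ s ∈ A.δ q c, t = (s.1, s.2, Op.none)}

/-- A machine as a finite automaton: the stack is ignored. -/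
def Mach.toFA {k : ℕ} (M : Mach (Fin k → Sym α) (Fin k → Dir)) : FA α k where
  Q := M.Q
  finQ := M.finQ
  start := M.start
  accept := M.accept
  δ := fun q c => {s | ∃ t ∈ M.δ q c none, s = (t.1, t.2.1)}

lemma FA.lang_toMach {k : ℕ} (A : FA α k) :
    A.toMach.lang (piDev (Fin k) (headDev α)) = A.lang := by
  ext w
  constructor
  · rintro ⟨t, c, h1, h2⟩
    refine ⟨(c.state, c.pos), ?_, h2⟩
    clear h2
    induction h1 with
    | zero => exact Relation.ReflTransGen.refl
    | succ h1 h2 ih =>
      refine Relation.ReflTransGen.tail ih ?_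
      obtain ⟨tr, ⟨s, hs, rfl⟩, rfl⟩ := h2
      exact ⟨s, hs, rfl⟩
  · rintro ⟨c, h1, h2⟩
    have key : ∀ c, Relation.ReflTransGen (A.Step w) (A.start, fun _ => 0) c →
        ∃ t, A.toMach.Reach (piDev (Fin k) (headDev α)) w t
          (⟨c.1, c.2, []⟩ : Cfg A.Q (Fin k → ℕ) Empty) := by
      intro c h
      induction h with
      | refl => exact ⟨0, ReachN.zero⟩
      | tail h1 h2 ih =>
        obtain ⟨t, ht⟩ := ih
        obtain ⟨s, hs, rfl⟩ := h2
        exact ⟨t + 1, ReachN.succ ht ⟨_, ⟨s, hs, rfl⟩, rfl⟩⟩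
    obtain ⟨t, ht⟩ := key c h1
    exact ⟨t, _, ht, h2⟩

lemma Mach.lang_toFA {k : ℕ} (M : Mach (Fin k → Sym α) (Fin k → Dir)) (hM : IsEmpty M.Γ) :
    M.toFA.lang = M.lang (piDev (Fin k) (headDev α)) := by
  have hnil : ∀ s : List M.Γ, s = [] := by
    intro s
    cases s with
    | nil => rfl
    | cons a s => exact hM.elim a
  ext w
  constructor
  · rintro ⟨c, h1, h2⟩
    have key : ∀ c, Relation.ReflTransGen (M.toFA.Step w) (M.start, fun _ => 0) c →
        ∃ t, M.Reach (piDev (Fin k) (headDev α)) w t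
          (⟨c.1, c.2, []⟩ : Cfg M.Q (Fin k → ℕ) M.Γ) := by
      intro c h
      induction h with
      | refl => exact ⟨0, ReachN.zero⟩
      | tail h1 h2 ih =>
        obtain ⟨t, ht⟩ := ih
        obtain ⟨s, ⟨tr, htr, rfl⟩, rfl⟩ := h2
        refine ⟨t + 1, ReachN.succ ht ⟨tr, htr, ?_⟩⟩
        rw [hnil (tr.2.2.apply _)]
        rfl
    obtain ⟨t, ht⟩ := key c h1
    exact ⟨t, _, ht, h2⟩
  · rintro ⟨t, c, h1, h2⟩
    refine ⟨(c.state, c.pos), ?_, h2⟩
    clear h2
    induction h1 with
    | zero => exact Relation.ReflTransGen.refl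
    | @succ t a a' h1 h2 ih =>
      refine Relation.ReflTransGen.tail ih ?_
      obtain ⟨tr, htr, rfl⟩ := h2
      have h3 : a.stack.head? = none := by rw [hnil a.stack]; rfl
      rw [h3] at htr
      exact ⟨_, ⟨tr, htr, rfl⟩, rfl⟩

lemma FA.det_toMach {k : ℕ} (A : FA α k) (h : A.Det) : A.toMach.Det := by
  rintro q x g a ⟨s, hs, rfl⟩ b ⟨s', hs', rfl⟩
  rw [h _ _ hs hs']

lemma Mach.det_toFA {k : ℕ} (M : Mach (Fin k → Sym α) (Fin k → Dir)) (h : M.Det) :
    M.toFA.Det := by
  rintro q x a ⟨s, hs, rfl⟩ b ⟨s', hs', rfl⟩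
  rw [h _ _ _ hs hs']

/-! ### The word of labels -/

/-- The word of the labels of the cells `1, …, N` of the track `TT α k`. -/
def word (α : Type) (k : ℕ) (w : List α) : List (TT α k).B :=
  (List.range ((TT α k).N w)).map fun p => (TT α k).lab w (p + 1)

lemma length_word (k : ℕ) (w : List α) : (word α k w).length = (TT α k).N w := by
  simp [word]

/-- The tape of `word α k w`, as a device with input `w`. -/
@[reducible] def wordDev (α : Type) (k : ℕ) : Dev (List α) where
  P := ℕ
  C := Sym (TT α k).B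
  D := Dir
  start := 0
  lab := fun w p => tape (word α k w) p
  mv := fun w p d => move ((word α k w).length + 1) p d

lemma tape_word {k : ℕ} (w : List α) {p : ℕ} (h0 : 0 < p) (h : p ≤ (TT α k).N w) :
    tape (word α k w) p = Sym.letter ((TT α k).lab w p) := by
  obtain ⟨q, rfl⟩ : ∃ q, p = q + 1 := ⟨p - 1, by omega⟩
  have hq : q < (TT α k).N w := by omega
  simp [tape, word, hq]

lemma tape_word_last {k : ℕ} (w : List α) :
    tape (word α k w) ((TT α k).N w + 1) = Sym.right := by
  simp [tape, word]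

/-- The label of cell `0`. -/
def lab0 (α : Type) : (k : ℕ) → (TT α k).B
  | 0 => Sym.left
  | k + 1 => (lab0 α k, Sym.left, false)

lemma lab_zero (k : ℕ) (w : List α) : (TT α k).lab w 0 = lab0 α k := by
  induction k with
  | zero => rfl
  | succ k ih =>
    have h : dec ((base α).N w) 0 = (0, 0) := by
      have := dec_at (N2 := (base α).N w) (p1 := 0) (r := 0) (Nat.zero_le _)
      simp only [Nat.zero_mul, Nat.zero_add] at this
      rw [this, idx_even rfl]
    show ((TT α k).lab w (dec ((base α).N w) 0).1, tape w (dec ((base α).N w) 0).2,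
      odd (dec ((base α).N w) 0).1) = (lab0 α k, Sym.left, false)
    rw [h]
    show ((TT α k).lab w 0, tape w 0, odd 0) = _
    rw [ih]
    rfl

/-- The moves of a head on the word of labels emulating a head on the track. -/
def emW (T : Track (List α)) : Sym T.B → Dir → Dir
  | Sym.letter b, Dir.R => if T.isR b then Dir.S else Dir.R
  | _, d => d

/-- The label of the track, from the scanned symbol of the word of labels. -/
def dlW (α : Type) (k : ℕ) : Sym (TT α k).B → (TT α k).B
  | Sym.letter b => b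
  | _ => lab0 α k

lemma dlW_eq (k : ℕ) (w : List α) (x : ℕ) (hx : x ≤ (TT α k).N w) :
    (TT α k).lab w x = dlW α k (tape (word α k w) x) := by
  rcases Nat.eq_zero_or_pos x with h | h
  · subst h
    exact lab_zero k w
  · rw [tape_word w h hx]
    rfl

lemma emW_eq (k : ℕ) (w : List α) (x : ℕ) (hx : x ≤ (TT α k).N w) (d : Dir) :
    move ((TT α k).N w) x d =
      move ((word α k w).length + 1) x (emW (TT α k) (tape (word α k w) x) d) := by
  have hN := (TT α k).hN w
  rw [length_word]
  rcases Nat.eq_zero_or_pos x with h | h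
  · subst h
    show move ((TT α k).N w) 0 d = move ((TT α k).N w + 1) 0 d
    cases d <;> simp only [move]
    omega
  · rw [tape_word w h hx]
    have hR := (TT α k).hR w x hx
    cases d with
    | L => rfl
    | S => rfl
    | R =>
      show move ((TT α k).N w) x Dir.R = move ((TT α k).N w + 1) x
        (if (TT α k).isR ((TT α k).lab w x) = true then Dir.S else Dir.R)
      rcases Nat.lt_or_ge x ((TT α k).N w) with h1 | h1
      · rw [if_neg (by rw [hR]; omega)]
        simp only [move]; omega
      · rw [if_pos (by rw [hR]; omega)]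
        simp only [move]; omega

/-- The tape of the word of labels emulates the track. -/
def toWord (α : Type) (k : ℕ) : Emul (TT α k).dev (wordDev α k) where
  μ := Unit
  fin := inferInstance
  m0 := ()
  dl := fun _ c => dlW α k c
  em := fun _ c d => (emW (TT α k) c d, ())
  ρ := fun w x y _ => x = y ∧ x ≤ (TT α k).N w
  ρ0 := fun w => ⟨rfl, Nat.zero_le _⟩
  ρlab := by
    rintro w x y m ⟨rfl, hx⟩
    exact dlW_eq k w x hx
  ρmv := by
    rintro w x y m ⟨rfl, hx⟩ d
    exact ⟨emW_eq k w x hx d, move_le _ _ _ hx⟩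

/-- The moves of a head on the track emulating a head on the word of labels; the flag tells that
the latter is on the right endmarker. -/
def emT (T : Track (List α)) : Bool → T.B → Dir → Dir × Bool
  | m, _, Dir.S => (Dir.S, m)
  | true, _, Dir.L => (Dir.S, false)
  | false, _, Dir.L => (Dir.L, false)
  | true, _, Dir.R => (Dir.S, true)
  | false, b, Dir.R => if T.isR b then (Dir.S, true) else (Dir.R, false)

/-- The scanned symbol of the word of labels, from the label of the track. -/
def dlT (T : Track (List α)) (m : Bool) (b : T.B) : Sym T.B :=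
  if m then Sym.right else if T.isL b then Sym.left else Sym.letter b

/-- The relation of the positions. -/
def RT (N x y : ℕ) (m : Bool) : Prop :=
  y ≤ N ∧ ((m = true ∧ y = N ∧ x = N + 1) ∨ (m = false ∧ x = y))

lemma RT_lab (k : ℕ) (w : List α) (x y : ℕ) (m : Bool) (h : RT ((TT α k).N w) x y m) :
    tape (word α k w) x = dlT (TT α k) m ((TT α k).lab w y) := by
  obtain ⟨hy, ⟨rfl, rfl, rfl⟩ | ⟨rfl, rfl⟩⟩ := h
  · exact tape_word_last w
  · have hL := (TT α k).hL w x hy
    simp only [dlT, Bool.false_eq_true, if_false]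
    rcases Nat.eq_zero_or_pos x with h | h
    · rw [if_pos (hL.2 h)]
      subst h
      rfl
    · rw [if_neg (by rw [hL]; omega)]
      exact tape_word w h hy

lemma RT_mv (k : ℕ) (w : List α) (x y : ℕ) (m : Bool) (h : RT ((TT α k).N w) x y m)
    (d : Dir) : RT ((TT α k).N w) (move ((word α k w).length + 1) x d)
      (move ((TT α k).N w) y (emT (TT α k) m ((TT α k).lab w y) d).1)
      (emT (TT α k) m ((TT α k).lab w y) d).2 := by
  have hN := (TT α k).hN w
  rw [length_word]
  obtain ⟨hy, ⟨rfl, rfl, rfl⟩ | ⟨rfl, rfl⟩⟩ := h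
  · cases d with
    | L => exact ⟨le_rfl, Or.inr ⟨rfl, rfl⟩⟩
    | S => exact ⟨le_rfl, Or.inl ⟨rfl, rfl, rfl⟩⟩
    | R =>
      refine ⟨le_rfl, Or.inl ⟨rfl, rfl, ?_⟩⟩
      simp only [move]; omega
  · cases d with
    | L => exact ⟨move_le _ x Dir.L hy, Or.inr ⟨rfl, rfl⟩⟩
    | S => exact ⟨hy, Or.inr ⟨rfl, rfl⟩⟩
    | R =>
      have hR := (TT α k).hR w x hy
      simp only [emT]
      rcases Nat.lt_or_ge x ((TT α k).N w) with h1 | h1
      · rw [if_neg (by rw [hR]; omega)]
        refine ⟨move_le _ _ _ hy, Or.inr ⟨rfl, ?_⟩⟩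
        simp only [move]; omega
      · rw [if_pos (by rw [hR]; omega)]
        refine ⟨hy, Or.inl ⟨rfl, ?_, ?_⟩⟩
        · simp only [move]; omega
        · simp only [move]; omega

/-- The track emulates the tape of the word of labels. -/
def ofWord (α : Type) (k : ℕ) : Emul (wordDev α k) (TT α k).dev where
  μ := Bool
  fin := inferInstance
  m0 := false
  dl := dlT (TT α k)
  em := emT (TT α k)
  ρ := fun w x y m => RT ((TT α k).N w) x y m
  ρ0 := fun w => ⟨Nat.zero_le _, Or.inr ⟨rfl, rfl⟩⟩
  ρlab := fun w x y m h => RT_lab k w x y m h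
  ρmv := fun w x y m h d => RT_mv k w x y m h d

/-- The encoding turns a pushdown automaton with `k + 1` heads into a sweeping pushdown automaton
with one head. -/
theorem encode (k : ℕ) (M : PDA α (k + 1)) : ∃ M' : PDA (TT α k).B 1,
    (∀ w, word α k w ∈ M'.lang ↔ w ∈ M.lang) ∧ (M.Det → M'.Det) ∧
      M'.Sweeping ∧ M'.PopThenPush := by
  obtain ⟨M1, h1, h2⟩ := toTrack α k M.toMach
  let M2 : Mach (Sym (TT α k).B) Dir := (toWord α k).mach M1
  let M3 : Mach (Fin 1 → Sym (TT α k).B) (Fin 1 → Dir) :=
    (Emul.one' (headDev (TT α k).B)).mach M2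
  obtain ⟨M', h3, h4, h5, h6⟩ := sweeping (Mach.toPDA M3)
  refine ⟨M', ?_, ?_, h5, h6⟩
  · intro w
    rw [h3]
    have e1 : M3.toPDA.lang = M2.lang (headDev (TT α k).B) :=
      (Mach.lang_toPDA M3).trans ((Emul.one' (headDev (TT α k).B)).mach_lang M2)
    have e2 : M2.lang (wordDev α k) = M.lang :=
      ((toWord α k).mach_lang M1).trans (h1.trans M.lang_toMach)
    rw [e1, ← e2]
    exact Iff.rfl
  · intro hd
    exact h4 ((Emul.one' (headDev (TT α k).B)).mach_det M2
      ((toWord α k).mach_det M1 (h2 hd)))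

/-- A multihead finite automaton reading the encoded word is simulated by a multihead finite
automaton reading the word. -/
theorem decode (k m : ℕ) (A : FA (TT α k).B m) : ∃ A' : FA α (m * (k + 1)),
    (∀ w, w ∈ A'.lang ↔ word α k w ∈ A.lang) ∧ (A.Det → A'.Det) := by
  let E : Emul (piDev (Fin m) (wordDev α k)) (piDev (Fin (m * (k + 1))) (headDev α)) :=
    (Emul.pi (Fin m) ((ofWord α k).trans (toPi α k))).trans
      ((Emul.uncurry (headDev α) (Fin m) (Fin (k + 1))).trans
        (Emul.reindex (headDev α) finProdFinEquiv))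
  let M : Mach (Fin (m * (k + 1)) → Sym α) (Fin (m * (k + 1)) → Dir) := E.mach A.toMach
  have hΓ : IsEmpty M.Γ := (inferInstance : IsEmpty Empty)
  refine ⟨M.toFA, ?_, ?_⟩
  · intro w
    have e1 : M.toFA.lang = A.toMach.lang (piDev (Fin m) (wordDev α k)) :=
      (Mach.lang_toFA M hΓ).trans (E.mach_lang A.toMach)
    rw [e1, ← A.lang_toMach]
    exact Iff.rfl
  · intro hd
    exact Mach.det_toFA M (E.mach_det A.toMach (A.det_toMach hd))

/-- The alphabet of the encoding is finite. -/
lemma finite_B (α : Type) [Finite α] (k : ℕ) : Finite (TT α k).B := by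
  have hs : Finite (Sym α) := by
    refine Finite.of_injective (fun s : Sym α => match s with
      | Sym.left => (Sum.inl true : Bool ⊕ α)
      | Sym.right => Sum.inl false
      | Sym.letter a => Sum.inr a) ?_
    intro a b h
    cases a <;> cases b <;> simp_all
  induction k with
  | zero => exact hs
  | succ k ih =>
    show Finite ((TT α k).B × Sym α × Bool)
    infer_instance

end Pool.Agent.Heads
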