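import Pool.Agent.Lib_helper16.Heads.Track

/-!
Every pushdown machine on a track is simulated by a sweeping one. The head position `i` of the
simulated machine is kept, in unary, on top of the simulated stack.
-/

set_option autoImplicit false

namespace Pool.Agent.Heads

/-- Phases of the simulating machine. -/
inductive Ph where
  | up : Bool → Ph
  | skip : Dir → Ph
  | pushB : Dir → Ph
  | down : Dir → Ph
  | downA : Bool → Ph

instance : Finite Ph := by
  refine Finite.of_injective (fun p : Ph => match p with
    | .up b => (Sum.inl b : Bool ⊕ Dir ⊕ Dir ⊕ Dir ⊕ Bool)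
    | .skip d => Sum.inr (Sum.inl d)
    | .pushB d => Sum.inr (Sum.inr (Sum.inl d))
    | .down d => Sum.inr (Sum.inr (Sum.inr (Sum.inl d)))
    | .downA b => Sum.inr (Sum.inr (Sum.inr (Sum.inr b)))) ?_
  intro a b h
  cases a <;> cases b <;> simp_all

/-- On the left end the descending phases act as an ascending phase. -/
def Ph.norm : Ph → Ph
  | .up b => .up b
  | .skip d => .skip d
  | .pushB d => .pushB d
  | .down Dir.R => .up true
  | .down _ => .up false
  | .downA b => .up b

/-- The effective direction of a move made on a cell of kind `x`. -/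
def eff (x : Kd) (d : Dir) : Dir :=
  match x, d with
  | Kd.left, Dir.L => Dir.S
  | Kd.right, Dir.R => Dir.S
  | _, d => d

/-- The phase entered when a step of the simulated machine with effective direction `d` is
made on a cell of kind `x`, and the direction of the head. -/
def after (x : Kd) (d : Dir) : Ph × Dir :=
  match x, d with
  | Kd.right, Dir.L => (Ph.downA false, Dir.L)
  | Kd.right, _ => (Ph.downA true, Dir.L)
  | _, d => (Ph.skip d, Dir.R)

def Op.emb {Γ : Type} : Op Γ → Op (Γ ⊕ Bool)
  | .none => .none
  | .push g => .push (Sum.inl g)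
  | .pop => .pop

/-- Embedding of simulated stacks. -/
def embS {Γ : Type} (s : List Γ) : List (Γ ⊕ Bool) := s.map Sum.inl

lemma embS_apply {Γ : Type} (o : Op Γ) (s : List Γ) :
    embS (o.apply s) = o.emb.apply (embS s) := by
  cases o <;> simp [Op.apply, Op.emb, embS]

lemma embS_head {Γ : Type} (s : List Γ) : (embS s).head? = s.head?.map Sum.inl := by
  cases s <;> simp [embS]

lemma head_rep {Γ : Type} (n : ℕ) (b : Bool) (s : List (Γ ⊕ Bool)) (hn : 0 < n) :
    (List.replicate n (Sum.inr b) ++ s).head? = some (Sum.inr b) := by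
  cases n with
  | zero => omega
  | succ n => simp [List.replicate_succ]

lemma tail_rep {Γ : Type} (n : ℕ) (b : Bool) (s : List (Γ ⊕ Bool)) (hn : 0 < n) :
    (List.replicate n (Sum.inr b) ++ s).tail = List.replicate (n - 1) (Sum.inr b) ++ s := by
  cases n with
  | zero => omega
  | succ n => simp [List.replicate_succ]

lemma cons_rep {Γ : Type} (n : ℕ) (b : Bool) (s : List (Γ ⊕ Bool)) :
    Sum.inr b :: (List.replicate n (Sum.inr b) ++ s) =
      List.replicate (n + 1) (Sum.inr b) ++ s := by
  simp [List.replicate_succ]

lemma embS_head_ne {Γ : Type} (s : List Γ) (b : Bool) : (embS s).head? ≠ some (Sum.inr b) := by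
  rw [embS_head]
  cases s <;> simp

namespace SweepT

variable {ι : Type} {T : Track ι}

/-- The move of the simulating machine which ends the phase `down d`. -/
def dn {Q Γ : Type} (q : Q) : Dir → Set ((Ph × Q) × Dir × Op (Γ ⊕ Bool))
  | Dir.L => {((Ph.downA false, q), Dir.L, Op.none)}
  | Dir.S => {((Ph.downA false, q), Dir.L, Op.push (Sum.inr true))}
  | Dir.R => {((Ph.downA true, q), Dir.L, Op.push (Sum.inr true))}

/-- The simulated steps. -/
def real (T : Track ι) (M : Mach T.B Dir) (q : M.Q) (x : T.B) (g : Option M.Γ) :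
    Set ((Ph × M.Q) × Dir × Op (M.Γ ⊕ Bool)) :=
  {t | ∃ s ∈ M.δ q x g, t = (((after (T.kd x) (eff (T.kd x) s.2.1)).1, s.1),
    (after (T.kd x) (eff (T.kd x) s.2.1)).2, s.2.2.emb)}

/-- The moves of the simulating machine in a normalised phase. -/
def trans (T : Track ι) (M : Mach T.B Dir) (q : M.Q) (x : T.B) (top : Option (M.Γ ⊕ Bool)) :
    Ph → Set ((Ph × M.Q) × Dir × Op (M.Γ ⊕ Bool))
  | .up true => {((Ph.up false, q), Dir.R, Op.none)}
  | .up false => match top with
    | some (Sum.inr true) => {((Ph.up false, q), Dir.R, Op.pop)}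
    | some (Sum.inr false) => ∅
    | some (Sum.inl g) => real T M q x (some g)
    | none => real T M q x none
  | .skip d => match T.kd x with
    | Kd.right => {((Ph.down d, q), Dir.L, Op.none)}
    | _ => {((Ph.pushB d, q), Dir.R, Op.none)}
  | .pushB d => match T.kd x with
    | Kd.right => {((Ph.down d, q), Dir.L, Op.push (Sum.inr false))}
    | _ => {((Ph.pushB d, q), Dir.R, Op.push (Sum.inr false))}
  | .down d => match top with
    | some (Sum.inr false) => {((Ph.down d, q), Dir.L, Op.pop)}
    | _ => dn q d
  | .downA b => {((Ph.downA b, q), Dir.L, Op.push (Sum.inr true))}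

/-- Normalise the phase on the left end. -/
def normAt (x : Kd) (p : Ph) : Ph :=
  match x with
  | Kd.left => p.norm
  | _ => p

/-- The sweeping machine simulating `M`. -/
def sweep (T : Track ι) (M : Mach T.B Dir) : Mach T.B Dir where
  Q := Ph × M.Q
  Γ := M.Γ ⊕ Bool
  finQ := by
    have := M.finQ
    infer_instance
  finΓ := by
    have := M.finΓ
    infer_instance
  start := (Ph.up false, M.start)
  accept := {s | s.2 ∈ M.accept}
  δ := fun s x top => trans T M s.2 x top (normAt (T.kd x) s.1)

lemma sweep_det (T : Track ι) (M : Mach T.B Dir) (hM : M.Det) : (sweep T M).Det := by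
  have key : ∀ (q : M.Q) (x : T.B) (g : Option M.Γ), (real T M q x g).Subsingleton := by
    rintro q x g a ⟨s, hs, rfl⟩ b ⟨s', hs', rfl⟩
    rw [hM q x g hs hs']
  intro s x top
  show (trans T M s.2 x top (normAt (T.kd x) s.1)).Subsingleton
  generalize normAt (T.kd x) s.1 = p
  cases p with
  | up b =>
    cases b with
    | true => exact Set.subsingleton_singleton
    | false =>
      rcases top with _ | (g | (_ | _))
      · exact key _ _ _
      · exact key _ _ _
      · exact Set.subsingleton_empty
      · exact Set.subsingleton_singleton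
  | skip d =>
    show (match T.kd x with
      | Kd.right => {((Ph.down d, s.2), Dir.L, Op.none)}
      | _ => {((Ph.pushB d, s.2), Dir.R, Op.none)} : Set _).Subsingleton
    cases T.kd x <;> exact Set.subsingleton_singleton
  | pushB d =>
    show (match T.kd x with
      | Kd.right => {((Ph.down d, s.2), Dir.L, Op.push (Sum.inr false))}
      | _ => {((Ph.pushB d, s.2), Dir.R, Op.push (Sum.inr false))} : Set _).Subsingleton
    cases T.kd x <;> exact Set.subsingleton_singleton
  | down d =>
    rcases top with _ | (g | (_ | _)) <;> cases d <;> exact Set.subsingleton_singleton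
  | downA b => exact Set.subsingleton_singleton

/-- The offset of a direction. -/
def bit : Dir → Bool
  | Dir.R => true
  | _ => false

/-- The relation between a configuration `(q, i, γ)` of the simulated machine and a
configuration `((p, q), x, s)` of the simulating one, `N` being the last cell. In the
phases `skip`, `pushB`, `down` the parameter is the direction of the last simulated move, from
cell `j` to cell `i`. -/
def Inv {Γ : Type} (N : ℕ) (i : ℕ) (γ : List Γ) (x : ℕ) (s : List (Γ ⊕ Bool)) : Ph → Prop
  | .up false => x ≤ i ∧ s = List.replicate (i - x) (Sum.inr true) ++ embS γ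
  | .up true => x = 0 ∧ 1 ≤ i ∧ s = List.replicate (i - 1) (Sum.inr true) ++ embS γ
  | .skip d => ∃ j, x = j + 1 ∧ x ≤ N ∧ s = embS γ ∧ i = move N j d ∧ (j = 0 → d ≠ Dir.L)
  | .pushB d => ∃ j, j + 2 ≤ x ∧ x ≤ N ∧ s = List.replicate (x - j - 2) (Sum.inr false) ++ embS γ ∧
      i = move N j d ∧ (j = 0 → d ≠ Dir.L)
  | .down d => ∃ j, j ≤ x ∧ x < N ∧ s = List.replicate (x - j) (Sum.inr false) ++ embS γ ∧
      i = move N j d ∧ (j = 0 → d ≠ Dir.L)
  | .downA b => x < N ∧ x + b.toNat ≤ i ∧
      s = List.replicate (i - b.toNat - x) (Sum.inr true) ++ embS γ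

/-- The relation between time and position: `t % (2 * N) = x` in ascending phases,
`(t + x) % (2 * N) = 0` in descending phases. -/
def Tm (N t x : ℕ) : Ph → Prop
  | .up _ => x ≤ N ∧ t % (2 * N) = x
  | .skip _ => x ≤ N ∧ t % (2 * N) = x
  | .pushB _ => x ≤ N ∧ t % (2 * N) = x
  | .down _ => x < N ∧ (t + x) % (2 * N) = 0
  | .downA _ => x < N ∧ (t + x) % (2 * N) = 0

lemma tri_up {N t x : ℕ} (hx : x ≤ N) (h : t % (2 * N) = x) : tri N t = x := by
  unfold tri
  rw [h, if_pos hx]

lemma tri_down {N t x : ℕ} (hx : x < N) (h : (t + x) % (2 * N) = 0) : tri N t = x := by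
  unfold tri
  have hN : 0 < 2 * N := by omega
  have h1 : t % (2 * N) < 2 * N := Nat.mod_lt _ hN
  rcases Nat.eq_zero_or_pos x with h0 | h0
  · subst h0
    simp only [add_zero] at h
    rw [h]
    simp
  · have h2 : t % (2 * N) = 2 * N - x := by
      have h3 : (t % (2 * N) + x) % (2 * N) = 0 := by
        rw [Nat.mod_add_mod]
        exact h
      rcases Nat.lt_or_ge (t % (2 * N) + x) (2 * N) with h4 | h4
      · rw [Nat.mod_eq_of_lt h4] at h3
        omega
      · have h5 : (t % (2 * N) + x) % (2 * N) = t % (2 * N) + x - 2 * N := by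
          rw [Nat.mod_eq_sub_mod h4, Nat.mod_eq_of_lt (by omega)]
        omega
    rw [h2, if_neg (by omega)]
    omega

lemma Tm_tri {N t x : ℕ} {p : Ph} (h : Tm N t x p) : x = tri N t := by
  cases p with
  | up b => exact (tri_up h.1 h.2).symm
  | skip b => exact (tri_up h.1 h.2).symm
  | pushB b => exact (tri_up h.1 h.2).symm
  | down b => exact (tri_down h.1 h.2).symm
  | downA b => exact (tri_down h.1 h.2).symm

/-- Normalisation preserves the invariants on cell `0`. -/
lemma Inv_norm {Γ : Type} {N i : ℕ} {γ : List Γ} {s : List (Γ ⊕ Bool)} {p : Ph}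
    (hN : 1 ≤ N) (h : Inv N i γ 0 s p) : Inv N i γ 0 s p.norm := by
  cases p with
  | up b => exact h
  | skip d => exact h
  | pushB d => exact h
  | down d =>
    obtain ⟨j, hj, -, hs, hi, hd⟩ := h
    have hj0 : j = 0 := by omega
    subst hj0
    cases d with
    | L => exact absurd rfl (hd rfl)
    | S =>
      have hi' : i = 0 := hi
      subst hi'
      exact ⟨le_rfl, by simpa using hs⟩
    | R =>
      have hi' : i = 1 := by rw [hi]; simp [move]; omega
      subst hi'
      exact ⟨rfl, le_rfl, by simpa using hs⟩
  | downA b =>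
    obtain ⟨-, h1, h2⟩ := h
    cases b with
    | false => exact ⟨Nat.zero_le _, by simpa using h2⟩
    | true => exact ⟨rfl, by simpa using h1, by simpa using h2⟩

lemma Tm_norm {N t : ℕ} {p : Ph} (h : Tm N t 0 p) : Tm N t 0 p.norm := by
  cases p with
  | up b => exact h
  | skip d => exact h
  | pushB d => exact h
  | down d =>
    have h2 : t % (2 * N) = 0 := by simpa using h.2
    cases d <;> exact ⟨Nat.zero_le _, h2⟩
  | downA b => exact ⟨Nat.zero_le _, by simpa using h.2⟩

/-- A measure of the number of steps before the next simulated step. -/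
def meas (N i : ℕ) : Ph → ℕ → ℕ
  | .up false, x => i - x
  | .up true, _ => i
  | .downA _, x => N + 1 + x
  | .down _, x => N + 1 + x
  | .pushB _, x => 3 * N + 2 - x
  | .skip _, x => 3 * N + 3 - x

lemma mod_succ {N t x : ℕ} (hx : x < N) (h : t % (2 * N) = x) : (t + 1) % (2 * N) = x + 1 := by
  rw [Nat.add_mod, h, Nat.mod_eq_of_lt (show 1 < 2 * N by omega), Nat.mod_eq_of_lt (by omega)]

lemma mod_turn {N t : ℕ} (hN : 1 ≤ N) (h : t % (2 * N) = N) :
    (t + 1 + (N - 1)) % (2 * N) = 0 := by
  have : t + 1 + (N - 1) = t + N := by omega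
  rw [this, Nat.add_mod, h, Nat.mod_eq_of_lt (show N < 2 * N by omega)]
  have : N + N = 2 * N := by ring
  rw [this, Nat.mod_self]

lemma mod_down {N t x : ℕ} (hx : 0 < x) (h : (t + x) % (2 * N) = 0) :
    (t + 1 + (x - 1)) % (2 * N) = 0 := by
  have : t + 1 + (x - 1) = t + x := by omega
  rw [this, h]

/-- In a situation which is not ready for the next simulated step, exactly one step is possible,
and it preserves the invariants. -/
lemma tick (T : Track ι) (M : Mach T.B Dir) (w : ι) (q : M.Q) (i : ℕ) (γ : List M.Γ) (x : ℕ)
    (s : List (M.Γ ⊕ Bool)) (p : Ph) (t : ℕ) (hi : i ≤ T.N w)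
    (hinv : Inv (T.N w) i γ x s p) (htm : Tm (T.N w) t x p) :
    (∃ (p' : Ph) (d : Dir) (o : Op (M.Γ ⊕ Bool)),
      trans T M q (T.lab w x) s.head? (normAt (T.kd (T.lab w x)) p) = {((p', q), d, o)} ∧
      Inv (T.N w) i γ (move (T.N w) x d) (o.apply s) p' ∧
      Tm (T.N w) (t + 1) (move (T.N w) x d) p' ∧
      meas (T.N w) i p' (move (T.N w) x d) < meas (T.N w) i p x) ∨
    (x = i ∧ s = embS γ ∧ normAt (T.kd (T.lab w x)) p = Ph.up false) := by
  have hN : 1 ≤ T.N w := T.hN w
  have hcases := fun h => T.kd_cases w (p := x) h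
  generalize hNdef : T.N w = N at *
  have hxN : x ≤ N := by
    cases p with
    | up b => exact htm.1
    | skip b => exact htm.1
    | pushB b => exact htm.1
    | down b => exact htm.1.le
    | downA b => exact htm.1.le
  -- the ascending phases
  have hup : ∀ (y : T.B) (b : Bool) (m : ℕ), Inv N i γ x s (Ph.up b) → Tm N t x (Ph.up b) →
      (b = false → i - x ≤ m) → (b = true → i ≤ m) →
      (∃ (p' : Ph) (d : Dir) (o : Op (M.Γ ⊕ Bool)),
        trans T M q y s.head? (Ph.up b) = {((p', q), d, o)} ∧
        Inv N i γ (move N x d) (o.apply s) p' ∧ Tm N (t + 1) (move N x d) p' ∧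
        meas N i p' (move N x d) < m) ∨
      (x = i ∧ s = embS γ ∧ Ph.up b = Ph.up false) := by
    intro y b m h1 h2 hm1 hm2
    cases b with
    | true =>
      obtain ⟨hx0, hi1, hs⟩ := h1
      subst hx0
      left
      have hmv : move N 0 Dir.R = 1 := by simp [move]; omega
      refine ⟨Ph.up false, Dir.R, Op.none, rfl, ?_, ?_, ?_⟩
      · rw [hmv]; exact ⟨hi1, hs⟩
      · rw [hmv]; exact ⟨hN, mod_succ (by omega) h2.2⟩
      · rw [hmv]
        have := hm2 rfl
        simp only [meas]; omega
    | false =>
      obtain ⟨hxi, hs⟩ := h1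
      rcases Nat.lt_or_ge x i with h | h
      · left
        have hmv : move N x Dir.R = x + 1 := by simp [move]; omega
        refine ⟨Ph.up false, Dir.R, Op.pop, ?_, ?_, ?_, ?_⟩
        · rw [hs, head_rep _ _ _ (by omega)]
          rfl
        · rw [hmv]
          refine ⟨by omega, ?_⟩
          show s.tail = _
          rw [hs, tail_rep _ _ _ (by omega)]
          congr 2
        · rw [hmv]; exact ⟨by omega, mod_succ (by omega) h2.2⟩
        · rw [hmv]
          have := hm1 rfl
          simp only [meas]; omega
      · right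
        have hxi' : x = i := by omega
        refine ⟨hxi', ?_, rfl⟩
        rw [hs, hxi']; simp
  rcases hcases hxN with ⟨hx0, hsym⟩ | ⟨hx0, hxl, hsym⟩ | ⟨hxr, hsym⟩
  · -- left end
    subst hx0
    have h1 := Inv_norm hN hinv
    have h2 := Tm_norm htm
    rw [hsym]
    cases p with
    | up b =>
      exact hup _ b (meas N i (Ph.up b) 0) h1 h2 (by rintro rfl; simp [meas])
        (by rintro rfl; simp [meas])
    | skip d =>
      obtain ⟨j, hj, -⟩ := hinv
      omega
    | pushB d =>
      obtain ⟨j, hj, -⟩ := hinv
      omega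
    | down d =>
      cases d with
      | L =>
        exact hup _ false (meas N i (Ph.down Dir.L) 0) h1 h2 (by intro _; simp [meas]; omega)
          (by simp)
      | S =>
        exact hup _ false (meas N i (Ph.down Dir.S) 0) h1 h2 (by intro _; simp [meas]; omega)
          (by simp)
      | R =>
        exact hup _ true (meas N i (Ph.down Dir.R) 0) h1 h2 (by simp)
          (by intro _; simp [meas]; omega)
    | downA b =>
      exact hup _ b (meas N i (Ph.downA b) 0) h1 h2 (by intro _; simp [meas]; omega)
        (by intro _; simp [meas]; omega)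
  · -- a middle cell
    have hmvR : move N x Dir.R = x + 1 := by simp [move]; omega
    have hmvL : move N x Dir.L = x - 1 := rfl
    cases p with
    | up b =>
      rw [hsym]
      exact hup _ b (meas N i (Ph.up b) x) hinv htm (by rintro rfl; simp [meas])
        (by rintro rfl; simp [meas])
    | skip d =>
      left
      obtain ⟨j, hj, hjN, hs, hij, hd⟩ := hinv
      refine ⟨Ph.pushB d, Dir.R, Op.none, ?_, ?_, ?_, ?_⟩
      · simp only [trans, normAt, hsym]
      · rw [hmvR]
        refine ⟨j, by omega, by omega, ?_, hij, hd⟩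
        show s = _
        rw [hs]
        have : x + 1 - j - 2 = 0 := by omega
        rw [this]; simp
      · rw [hmvR]; exact ⟨by omega, mod_succ (by omega) htm.2⟩
      · rw [hmvR]; simp only [meas]; omega
    | pushB d =>
      left
      obtain ⟨j, hj, hjN, hs, hij, hd⟩ := hinv
      refine ⟨Ph.pushB d, Dir.R, Op.push (Sum.inr false), ?_, ?_, ?_, ?_⟩
      · simp only [trans, normAt, hsym]
      · rw [hmvR]
        refine ⟨j, by omega, by omega, ?_, hij, hd⟩
        show Sum.inr false :: s = _
        rw [hs, cons_rep]
        congr 2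
        omega
      · rw [hmvR]; exact ⟨by omega, mod_succ (by omega) htm.2⟩
      · rw [hmvR]; simp only [meas]; omega
    | down d =>
      left
      rw [hsym]
      obtain ⟨j, hj, hjN, hs, hij, hd⟩ := hinv
      rcases Nat.lt_or_ge j x with h | h
      · refine ⟨Ph.down d, Dir.L, Op.pop, ?_, ?_, ?_, ?_⟩
        · rw [hs, head_rep _ _ _ (by omega)]; rfl
        · rw [hmvL]
          refine ⟨j, by omega, by omega, ?_, hij, hd⟩
          show s.tail = _
          rw [hs, tail_rep _ _ _ (by omega)]
          congr 2
          omega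
        · rw [hmvL]; exact ⟨by omega, mod_down hx0 htm.2⟩
        · rw [hmvL]; simp only [meas]; omega
      · have hxj : x = j := by omega
        have hs' : s = embS γ := by rw [hs, hxj]; simp
        have htop : ∀ b, s.head? ≠ some (Sum.inr b) := by
          intro b; rw [hs']; exact embS_head_ne _ _
        have hmatch : ∀ y : T.B, trans T M q y s.head? (Ph.down d) = dn q d := by
          intro y
          have h3 := htop false
          cases hh : s.head? with
          | none => rfl
          | some g =>
            rw [hh] at h3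
            rcases g with g | (_ | _)
            · rfl
            · exact absurd rfl h3
            · rfl
        have htm' : Tm N (t + 1) (x - 1) (Ph.downA false) := ⟨by omega, mod_down hx0 htm.2⟩
        cases d with
        | L =>
          refine ⟨Ph.downA false, Dir.L, Op.none, hmatch _, ?_, ?_, ?_⟩
          · rw [hmvL]
            have : i = x - 1 := by rw [hij, hxj]; rfl
            refine ⟨by omega, by simp; omega, ?_⟩
            show s = _
            rw [hs', this]; simp
          · rw [hmvL]; exact htm'
          · rw [hmvL]; simp only [meas]; omega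
        | S =>
          refine ⟨Ph.downA false, Dir.L, Op.push (Sum.inr true), hmatch _, ?_, ?_, ?_⟩
          · rw [hmvL]
            have : i = x := by rw [hij, hxj]; rfl
            refine ⟨by omega, by simp; omega, ?_⟩
            show Sum.inr true :: s = _
            have h1 : i - Bool.toNat false - (x - 1) = 1 := by simp; omega
            rw [hs', h1]; simp
          · rw [hmvL]; exact htm'
          · rw [hmvL]; simp only [meas]; omega
        | R =>
          refine ⟨Ph.downA true, Dir.L, Op.push (Sum.inr true), hmatch _, ?_, ?_, ?_⟩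
          · rw [hmvL]
            have : i = x + 1 := by rw [hij, ← hxj]; exact hmvR
            refine ⟨by omega, by simp; omega, ?_⟩
            show Sum.inr true :: s = _
            have h1 : i - Bool.toNat true - (x - 1) = 1 := by simp; omega
            rw [hs', h1]; simp
          · rw [hmvL]; exact ⟨htm'.1, htm'.2⟩
          · rw [hmvL]; simp only [meas]; omega
    | downA b =>
      left
      rw [hsym]
      obtain ⟨h1, h2, h3⟩ := hinv
      refine ⟨Ph.downA b, Dir.L, Op.push (Sum.inr true), rfl, ?_, ?_, ?_⟩
      · rw [hmvL]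
        refine ⟨by omega, by omega, ?_⟩
        show Sum.inr true :: s = _
        rw [h3, cons_rep]
        congr 2
        omega
      · rw [hmvL]; exact ⟨by omega, mod_down hx0 htm.2⟩
      · rw [hmvL]; simp only [meas]; omega
  · -- right end
    have hmvL : move N x Dir.L = N - 1 := by rw [hxr]; rfl
    cases p with
    | up b =>
      rw [hsym]
      exact hup _ b (meas N i (Ph.up b) x) hinv htm (by rintro rfl; simp [meas])
        (by rintro rfl; simp [meas])
    | skip d =>
      left
      obtain ⟨j, hj, hjN, hs, hij, hd⟩ := hinv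
      refine ⟨Ph.down d, Dir.L, Op.none, ?_, ?_, ?_, ?_⟩
      · simp only [trans, normAt, hsym]
      · rw [hmvL]
        refine ⟨j, by omega, by omega, ?_, hij, hd⟩
        show s = _
        rw [hs]
        have : N - 1 - j = 0 := by omega
        rw [this]; simp
      · rw [hmvL]
        refine ⟨by omega, mod_turn hN ?_⟩
        rw [htm.2, hxr]
      · rw [hmvL]; simp only [meas]; omega
    | pushB d =>
      left
      obtain ⟨j, hj, hjN, hs, hij, hd⟩ := hinv
      refine ⟨Ph.down d, Dir.L, Op.push (Sum.inr false), ?_, ?_, ?_, ?_⟩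
      · simp only [trans, normAt, hsym]
      · rw [hmvL]
        refine ⟨j, by omega, by omega, ?_, hij, hd⟩
        show Sum.inr false :: s = _
        rw [hs, cons_rep]
        congr 2
        omega
      · rw [hmvL]
        refine ⟨by omega, mod_turn hN ?_⟩
        rw [htm.2, hxr]
      · rw [hmvL]; simp only [meas]; omega
    | down d =>
      have := htm.1
      omega
    | downA b =>
      have := htm.1
      omega

/-- In a situation which is ready, the possible steps correspond to the steps of `M`. -/
lemma ready (T : Track ι) (M : Mach T.B Dir) (w : ι) (γ : List M.Γ) (x : ℕ) (t : ℕ)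
    (p : Ph) (htm : Tm (T.N w) t x p) (sd : M.Q × Dir × Op M.Γ)
    (hp : normAt (T.kd (T.lab w x)) p = Ph.up false) :
    let k := T.kd (T.lab w x)
    let r := after k (eff k sd.2.1)
    Inv (T.N w) (move (T.N w) x sd.2.1) (sd.2.2.apply γ)
      (move (T.N w) x r.2) (sd.2.2.emb.apply (embS γ)) r.1 ∧
    Tm (T.N w) (t + 1) (move (T.N w) x r.2) r.1 := by
  intro k r
  have hN : 1 ≤ T.N w := T.hN w
  have hcases := fun h => T.kd_cases w (p := x) h
  generalize hNdef : T.N w = N at *
  obtain ⟨q', d, o⟩ := sd
  have hxN0 : x ≤ N := by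
    cases p with
    | up b => exact htm.1
    | skip b => exact htm.1
    | pushB b => exact htm.1
    | down b => exact htm.1.le
    | downA b => exact htm.1.le
  have htm' : Tm N t x (Ph.up false) := by
    have h2 : Tm N t x (normAt (T.kd (T.lab w x)) p) := by
      rcases hcases hxN0 with ⟨hx0, hsym⟩ | ⟨hx0, hxl, hsym⟩ | ⟨hxr, hsym⟩
      · rw [hsym]
        subst hx0
        exact Tm_norm htm
      · rw [hsym]; exact htm
      · rw [hsym]; exact htm
    rw [hp] at h2
    exact h2
  have hxN : x ≤ N := htm'.1
  have hst : (o.emb.apply (embS γ)) = embS (o.apply γ) := (embS_apply o γ).symm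
  rcases hcases hxN with ⟨hx0, hsym⟩ | ⟨hx0, hxl, hsym⟩ | ⟨hxr, hsym⟩
  · subst hx0
    have hmvR : move N 0 Dir.R = 1 := by simp [move]; omega
    have hr : r = (Ph.skip (eff Kd.left d), Dir.R) := by
      simp only [r, k, hsym]; cases d <;> rfl
    rw [hr]
    have hd : eff Kd.left d ≠ Dir.L := by cases d <;> simp [eff]
    have hmv : move N 0 d = move N 0 (eff Kd.left d) := by
      cases d <;> simp [eff, move]
    refine ⟨?_, ?_⟩
    · show Inv N (move N 0 d) (o.apply γ) (move N 0 Dir.R) _ (Ph.skip _)
      rw [hmvR]
      exact ⟨0, rfl, hN, hst, hmv, fun _ => hd⟩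
    · show Tm N (t + 1) (move N 0 Dir.R) _
      rw [hmvR]; exact ⟨hN, mod_succ (by omega) htm'.2⟩
  · have hmvR : move N x Dir.R = x + 1 := by simp [move]; omega
    have hr : r = (Ph.skip d, Dir.R) := by
      simp only [r, k, hsym]; cases d <;> rfl
    rw [hr]
    refine ⟨?_, ?_⟩
    · show Inv N (move N x d) (o.apply γ) (move N x Dir.R) _ (Ph.skip _)
      rw [hmvR]
      exact ⟨x, rfl, by omega, hst, rfl, fun h => by omega⟩
    · show Tm N (t + 1) (move N x Dir.R) _
      rw [hmvR]; exact ⟨by omega, mod_succ (by omega) htm'.2⟩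
  · have hmvL : move N x Dir.L = N - 1 := by rw [hxr]; rfl
    have hT : (t + 1 + (N - 1)) % (2 * N) = 0 := mod_turn hN (by rw [htm'.2, hxr])
    cases d with
    | L =>
      have hr : r = (Ph.downA false, Dir.L) := by simp only [r, k, hsym]; rfl
      rw [hr]
      refine ⟨?_, ?_⟩
      · show Inv N (move N x Dir.L) (o.apply γ) (move N x Dir.L) _ (Ph.downA false)
        rw [hmvL]
        exact ⟨by omega, by simp, by simpa using hst⟩
      · show Tm N (t + 1) (move N x Dir.L) _
        rw [hmvL]; exact ⟨by omega, hT⟩
    | S =>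
      have hr : r = (Ph.downA true, Dir.L) := by simp only [r, k, hsym]; rfl
      rw [hr]
      refine ⟨?_, ?_⟩
      · show Inv N (move N x Dir.S) (o.apply γ) (move N x Dir.L) _ (Ph.downA true)
        rw [hmvL]
        have hx : move N x Dir.S = N := by rw [hxr]; rfl
        rw [hx]
        exact ⟨by omega, by simp; omega, by simpa using hst⟩
      · show Tm N (t + 1) (move N x Dir.L) _
        rw [hmvL]; exact ⟨by omega, hT⟩
    | R =>
      have hr : r = (Ph.downA true, Dir.L) := by simp only [r, k, hsym]; rfl
      rw [hr]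
      refine ⟨?_, ?_⟩
      · show Inv N (move N x Dir.R) (o.apply γ) (move N x Dir.L) _ (Ph.downA true)
        rw [hmvL]
        have hx : move N x Dir.R = N := by rw [hxr]; simp [move]
        rw [hx]
        exact ⟨by omega, by simp; omega, by simpa using hst⟩
      · show Tm N (t + 1) (move N x Dir.L) _
        rw [hmvL]; exact ⟨by omega, hT⟩

end SweepT

end Pool.Agent.Heads
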