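import Pool.Agent.Lib_helper16.Heads.Prod
import Pool.Agent.Lib_helper16.Heads.SweepT

/-!
A pushdown machine with two heads on two tracks is simulated by a pushdown machine with one head
on the product track; the moves of the first coordinate are carried out with the help of the
stack.
-/

set_option autoImplicit false

namespace Pool.Agent.Heads

/-- A device with an idle move. -/
structure IDev (ι : Type) where
  dev : Dev ι
  idle : dev.D
  hidle : ∀ w p, dev.mv w p idle = p

namespace Merge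

variable {ι : Type} (T1 T2 : Track ι) (Z : IDev ι)

/-- The physical direction of a move of the second coordinate. -/
def phys (l2 r2 o : Bool) : Dir → Dir
  | Dir.S => Dir.S
  | Dir.R => if r2 then Dir.S else (if o then Dir.L else Dir.R)
  | Dir.L => if l2 then Dir.S else (if o then Dir.R else Dir.L)

/-- The next state after a move `d` of the first coordinate has been ordered. -/
def next {Q : Type} (l1 r1 : Bool) (q : Q) : Dir → Q ⊕ (Q × Bool × Bool)
  | Dir.S => Sum.inl q
  | Dir.R => if r1 then Sum.inl q else Sum.inr (q, true, false)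
  | Dir.L => if l1 then Sum.inl q else Sum.inr (q, false, false)

/-- The direction coded by a Boolean. -/
def dirOf : Bool → Dir
  | true => Dir.R
  | false => Dir.L

/-- Is the head at the end of its block, in direction `b`? -/
def atEnd (l2 r2 o b : Bool) : Bool := if xor o b then r2 else l2

variable (M : Mach (T1.B × T2.B × Z.dev.C) (Dir × Dir × Z.dev.D))

/-- The simulated steps. -/
def real (q : M.Q) (x : (T1.B × T2.B × Bool) × Z.dev.C) (g : Option M.Γ) :
    Set ((M.Q ⊕ (M.Q × Bool × Bool)) × (Dir × Z.dev.D) × Op (M.Γ ⊕ Bool)) :=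
  {t | ∃ s ∈ M.δ q (x.1.1, x.1.2.1, x.2) g,
    t = (next (T1.isL x.1.1) (T1.isR x.1.1) s.1 s.2.1.1,
      (phys (T2.isL x.1.2.1) (T2.isR x.1.2.1) x.1.2.2 s.2.1.2.1, s.2.1.2.2), s.2.2.emb)}

/-- The moves of the simulating machine. -/
def trans (x : (T1.B × T2.B × Bool) × Z.dev.C) (top : Option (M.Γ ⊕ Bool)) :
    M.Q ⊕ (M.Q × Bool × Bool) →
      Set ((M.Q ⊕ (M.Q × Bool × Bool)) × (Dir × Z.dev.D) × Op (M.Γ ⊕ Bool))
  | Sum.inl q => match top with
    | some (Sum.inr _) => ∅
    | some (Sum.inl g) => real T1 T2 Z M q x (some g)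
    | none => real T1 T2 Z M q x none
  | Sum.inr (q, b, false) =>
      if atEnd (T2.isL x.1.2.1) (T2.isR x.1.2.1) x.1.2.2 b then
        {(Sum.inr (q, b, true), (dirOf b, Z.idle), Op.none)}
      else {(Sum.inr (q, b, false), (dirOf b, Z.idle), Op.push (Sum.inr true))}
  | Sum.inr (q, b, true) => match top with
    | some (Sum.inr _) => {(Sum.inr (q, b, true), (dirOf b, Z.idle), Op.pop)}
    | _ => {(Sum.inl q, (Dir.S, Z.idle), Op.none)}

/-- The simulated state. -/
def stOf {Q : Type} : Q ⊕ (Q × Bool × Bool) → Q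
  | Sum.inl q => q
  | Sum.inr (q, _, _) => q

lemma stOf_next {Q : Type} (l1 r1 : Bool) (q : Q) (d : Dir) : stOf (next l1 r1 q d) = q := by
  cases d <;> cases l1 <;> cases r1 <;> rfl

/-- The simulating machine. -/
@[reducible] def merge : Mach ((T1.B × T2.B × Bool) × Z.dev.C) (Dir × Z.dev.D) where
  Q := M.Q ⊕ (M.Q × Bool × Bool)
  Γ := M.Γ ⊕ Bool
  finQ := by
    have := M.finQ
    infer_instance
  finΓ := by
    have := M.finΓ
    infer_instance
  start := Sum.inl M.start
  accept := {s | stOf s ∈ M.accept}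
  δ := fun s x top => trans T1 T2 Z M x top s

lemma merge_det (hM : M.Det) : (merge T1 T2 Z M).Det := by
  have key : ∀ (q : M.Q) (x : (T1.B × T2.B × Bool) × Z.dev.C) (g : Option M.Γ),
      (real T1 T2 Z M q x g).Subsingleton := by
    rintro q x g a ⟨s, hs, rfl⟩ b ⟨s', hs', rfl⟩
    rw [hM _ _ _ hs hs']
  intro s x top
  show (trans T1 T2 Z M x top s).Subsingleton
  rcases s with q | ⟨q, b, (_ | _)⟩
  · rcases top with _ | (g | g)
    · exact key _ _ _
    · exact key _ _ _
    · exact Set.subsingleton_empty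
  · show (if atEnd (T2.isL x.1.2.1) (T2.isR x.1.2.1) x.1.2.2 b then
        {(Sum.inr (q, b, true), (dirOf b, Z.idle), Op.none)}
      else {(Sum.inr (q, b, false), (dirOf b, Z.idle), Op.push (Sum.inr true))} :
        Set _).Subsingleton
    split_ifs <;> exact Set.subsingleton_singleton
  · rcases top with _ | (g | g) <;> exact Set.subsingleton_singleton

/-- The location and stack of the simulating machine. -/
def Loc {Γ : Type} (N1 N2 p1 p2 x : ℕ) (γ : List Γ) (s : List (Γ ⊕ Bool)) :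
    {Q : Type} → Q ⊕ (Q × Bool × Bool) → Prop
  | _, Sum.inl _ => x = p1 * (N2 + 1) + idx N2 p1 p2 ∧ s = embS γ
  | _, Sum.inr (_, true, false) => ∃ b r, p1 = b + 1 ∧ x = b * (N2 + 1) + r ∧ r ≤ N2 ∧
      N2 ≤ r + idx N2 p1 p2 ∧
      s = List.replicate (r + idx N2 p1 p2 - N2) (Sum.inr true) ++ embS γ
  | _, Sum.inr (_, true, true) => ∃ r, x = p1 * (N2 + 1) + r ∧ r ≤ idx N2 p1 p2 ∧
      s = List.replicate (idx N2 p1 p2 - r) (Sum.inr true) ++ embS γ
  | _, Sum.inr (_, false, false) => ∃ r, p1 < N1 ∧ x = (p1 + 1) * (N2 + 1) + r ∧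
      r + idx N2 p1 p2 ≤ N2 ∧
      s = List.replicate (N2 - idx N2 p1 p2 - r) (Sum.inr true) ++ embS γ
  | _, Sum.inr (_, false, true) => ∃ r, x = p1 * (N2 + 1) + r ∧ r ≤ N2 ∧ idx N2 p1 p2 ≤ r ∧
      s = List.replicate (r - idx N2 p1 p2) (Sum.inr true) ++ embS γ

/-- The measure: distance to the target. -/
def meas (N2 p1 p2 x : ℕ) : {Q : Type} → Q ⊕ (Q × Bool × Bool) → ℕ
  | _, Sum.inl _ => 0
  | _, Sum.inr (_, true, _) => (p1 * (N2 + 1) + idx N2 p1 p2) - x + 1
  | _, Sum.inr (_, false, _) => x - (p1 * (N2 + 1) + idx N2 p1 p2) + 1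

/-- The relation between configurations. -/
def Rel (w : ι) (b : Cfg (M.Q ⊕ (M.Q × Bool × Bool)) (ℕ × Z.dev.P) (M.Γ ⊕ Bool))
    (a : Cfg M.Q (ℕ × ℕ × Z.dev.P) M.Γ) : Prop :=
  a.pos.1 ≤ T1.N w ∧ a.pos.2.1 ≤ T2.N w ∧ b.pos.2 = a.pos.2.2 ∧ stOf b.state = a.state ∧
    Loc (T1.N w) (T2.N w) a.pos.1 a.pos.2.1 b.pos.1 a.stack b.stack b.state

lemma step_iff (w : ι) (s : M.Q ⊕ (M.Q × Bool × Bool)) (x : ℕ) (z : Z.dev.P)
    (st : List (M.Γ ⊕ Bool))
    (c'' : Cfg (M.Q ⊕ (M.Q × Bool × Bool)) (ℕ × Z.dev.P) (M.Γ ⊕ Bool)) :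
    (merge T1 T2 Z M).Step ((prodT T1 T2).dev.prod Z.dev) w ⟨s, (x, z), st⟩ c'' ↔
      ∃ t ∈ trans T1 T2 Z M ((prodT T1 T2).lab w x, Z.dev.lab w z) st.head? s,
        c'' = ⟨t.1, (move ((T1.N w + 1) * (T2.N w + 1) - 1) x t.2.1.1,
          Z.dev.mv w z t.2.1.2), t.2.2.apply st⟩ := Iff.rfl

/-- The physical move of the second coordinate. -/
lemma phys_mv (w : ι) {p1 p2 : ℕ} (h1 : p1 ≤ T1.N w) (h2 : p2 ≤ T2.N w) (d : Dir) :
    move ((T1.N w + 1) * (T2.N w + 1) - 1) (p1 * (T2.N w + 1) + idx (T2.N w) p1 p2)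
      (phys (T2.isL (T2.lab w p2)) (T2.isR (T2.lab w p2)) (odd p1) d) =
    p1 * (T2.N w + 1) + idx (T2.N w) p1 (move (T2.N w) p2 d) := by
  have hL2 := T2.hL w p2 h2
  have hR2 := T2.hR w p2 h2
  have hN2 := T2.hN w
  generalize T2.isL (T2.lab w p2) = l2 at *
  generalize T2.isR (T2.lab w p2) = r2 at *
  have hb : ∀ b : Bool, ¬ b = true → b = false := by intro b; cases b <;> simp
  have hA := fun h => at_le (N1 := T1.N w) (N2 := T2.N w) (r := idx (T2.N w) p1 p2 + 1) h1 h
  have hB := at_le (N1 := T1.N w) h1 (idx_le (p1 := p1) h2)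
  generalize T1.N w = N1 at *
  generalize T2.N w = N2 at *
  cases d with
  | S => simp [phys, move]
  | R =>
    rcases Nat.lt_or_ge p2 N2 with h | h
    · have e1 : r2 = false := hb _ (by rw [hR2]; omega)
      subst e1
      cases ho : odd p1 with
      | true =>
        simp only [idx_odd ho] at *
        simp only [phys, move, Bool.false_eq_true, if_false, if_true]
        omega
      | false =>
        simp only [idx_even ho] at *
        have := hA (by omega)
        simp only [phys, move, Bool.false_eq_true, if_false]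
        omega
    · have h' : p2 = N2 := by omega
      have e1 : r2 = true := hR2.2 h'
      subst e1
      have h3 : move N2 p2 Dir.R = p2 := by simp only [move]; omega
      rw [h3]
      rfl
  | L =>
    rcases Nat.eq_zero_or_pos p2 with h | h
    · have e1 : l2 = true := hL2.2 h
      subst e1
      have h3 : move N2 p2 Dir.L = p2 := by simp only [move]; omega
      rw [h3]
      rfl
    · have e1 : l2 = false := hb _ (by rw [hL2]; omega)
      subst e1
      cases ho : odd p1 with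
      | true =>
        simp only [idx_odd ho] at *
        have := hA (by omega)
        simp only [phys, move, Bool.false_eq_true, if_false, if_true]
        omega
      | false =>
        simp only [idx_even ho] at *
        simp only [phys, move, Bool.false_eq_true, if_false]
        omega

lemma atEnd_true (w : ι) {p1 r : ℕ} (hr : r ≤ T2.N w) :
    atEnd (T2.isL (T2.lab w (idx (T2.N w) p1 r))) (T2.isR (T2.lab w (idx (T2.N w) p1 r)))
      (odd p1) true = true ↔ r = T2.N w := by
  have hL2 := T2.hL w _ (idx_le (p1 := p1) hr)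
  have hR2 := T2.hR w _ (idx_le (p1 := p1) hr)
  cases ho : odd p1 with
  | true =>
    rw [idx_odd ho] at hL2 ⊢
    simp only [atEnd, Bool.xor_self, Bool.false_eq_true, if_false]
    rw [hL2]
    omega
  | false =>
    rw [idx_even ho] at hR2 ⊢
    simp only [atEnd, Bool.false_xor, if_true]
    rw [hR2]

lemma atEnd_false (w : ι) {p1 r : ℕ} (hr : r ≤ T2.N w) :
    atEnd (T2.isL (T2.lab w (idx (T2.N w) p1 r))) (T2.isR (T2.lab w (idx (T2.N w) p1 r)))
      (odd p1) false = true ↔ r = 0 := by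
  have hL2 := T2.hL w _ (idx_le (p1 := p1) hr)
  have hR2 := T2.hR w _ (idx_le (p1 := p1) hr)
  have := T2.hN w
  cases ho : odd p1 with
  | true =>
    rw [idx_odd ho] at hR2 ⊢
    simp only [atEnd, Bool.xor_false, if_true]
    rw [hR2]
    omega
  | false =>
    rw [idx_even ho] at hL2 ⊢
    simp only [atEnd, Bool.xor_self, Bool.false_eq_true, if_false]
    rw [hL2]

/-- After a simulated step. -/
lemma loc_next {Q : Type} (w : ι) {p1 p2 : ℕ} (h1 : p1 ≤ T1.N w) (h2 : p2 ≤ T2.N w)
    (d1 : Dir) (q : Q) (γ : List M.Γ) :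
    Loc (T1.N w) (T2.N w) (move (T1.N w) p1 d1) p2
      (p1 * (T2.N w + 1) + idx (T2.N w) p1 p2) γ (embS γ)
      (next (T1.isL (T1.lab w p1)) (T1.isR (T1.lab w p1)) q d1) := by
  have hL1 := T1.hL w p1 h1
  have hR1 := T1.hR w p1 h1
  have hN1 := T1.hN w
  have hb : ∀ b : Bool, ¬ b = true → b = false := by intro b; cases b <;> simp
  have hidx := idx_le (p1 := p1) h2
  generalize T1.isL (T1.lab w p1) = l1 at *
  generalize T1.isR (T1.lab w p1) = r1 at *
  generalize T1.N w = N1 at *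
  generalize T2.N w = N2 at *
  cases d1 with
  | S => exact ⟨rfl, rfl⟩
  | R =>
    rcases Nat.lt_or_ge p1 N1 with h | h
    · have e1 : r1 = false := hb _ (by rw [hR1]; omega)
      subst e1
      have hm : move N1 p1 Dir.R = p1 + 1 := by simp only [move]; omega
      rw [hm]
      have hs := idx_succ (N2 := N2) (p1 := p1) h2
      refine ⟨p1, idx N2 p1 p2, rfl, rfl, hidx, by omega, ?_⟩
      have : idx N2 p1 p2 + idx N2 (p1 + 1) p2 - N2 = 0 := by omega
      rw [this]; rfl
    · have h' : p1 = N1 := by omega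
      have e1 : r1 = true := hR1.2 h'
      subst e1
      have hm : move N1 p1 Dir.R = p1 := by simp only [move]; omega
      rw [hm]
      exact ⟨rfl, rfl⟩
  | L =>
    rcases Nat.eq_zero_or_pos p1 with h | h
    · have e1 : l1 = true := hL1.2 h
      subst e1
      have hm : move N1 p1 Dir.L = p1 := by simp only [move]; omega
      rw [hm]
      exact ⟨rfl, rfl⟩
    · have e1 : l1 = false := hb _ (by rw [hL1]; omega)
      subst e1
      obtain ⟨p, rfl⟩ : ∃ p, p1 = p + 1 := ⟨p1 - 1, by omega⟩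
      have hm : move N1 (p + 1) Dir.L = p := by simp only [move, Nat.add_sub_cancel]
      rw [hm]
      have hs := idx_succ (N2 := N2) (p1 := p) h2
      have hi := idx_le (p1 := p) h2
      refine ⟨idx N2 (p + 1) p2, by omega, rfl, by omega, ?_⟩
      have : N2 - idx N2 p p2 - idx N2 (p + 1) p2 = 0 := by omega
      rw [this]; rfl

lemma trans_ready (x : (T1.B × T2.B × Bool) × Z.dev.C) (q : M.Q) (γ : List M.Γ) :
    trans T1 T2 Z M x (embS γ).head? (Sum.inl q) = real T1 T2 Z M q x γ.head? := by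
  rw [embS_head]
  cases γ <;> rfl

lemma rel_of (w : ι) {p1 p2 x : ℕ} {z : Z.dev.P} {γ : List M.Γ} {st : List (M.Γ ⊕ Bool)}
    {s : M.Q ⊕ (M.Q × Bool × Bool)} (h1 : p1 ≤ T1.N w) (h2 : p2 ≤ T2.N w)
    (h : Loc (T1.N w) (T2.N w) p1 p2 x γ st s) :
    Rel T1 T2 Z M w ⟨s, (x, Z.dev.mv w z Z.idle), st⟩ ⟨stOf s, (p1, p2, z), γ⟩ :=
  ⟨h1, h2, Z.hidle _ _, rfl, h⟩

/-- The steps of the simulating machine. -/
lemma sim_step (w : ι) (s : M.Q ⊕ (M.Q × Bool × Bool)) (x p1 p2 : ℕ) (z : Z.dev.P)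
    (γ : List M.Γ) (st : List (M.Γ ⊕ Bool)) (h1 : p1 ≤ T1.N w) (h2 : p2 ≤ T2.N w)
    (hloc : Loc (T1.N w) (T2.N w) p1 p2 x γ st s) :
    ((∃ b', (merge T1 T2 Z M).Step ((prodT T1 T2).dev.prod Z.dev) w ⟨s, (x, z), st⟩ b') ∧
      ∀ b', (merge T1 T2 Z M).Step ((prodT T1 T2).dev.prod Z.dev) w ⟨s, (x, z), st⟩ b' →
        Rel T1 T2 Z M w b' ⟨stOf s, (p1, p2, z), γ⟩ ∧
        meas (T2.N w) p1 p2 b'.pos.1 b'.state < meas (T2.N w) p1 p2 x s) ∨
    ((∀ b', (merge T1 T2 Z M).Step ((prodT T1 T2).dev.prod Z.dev) w ⟨s, (x, z), st⟩ b' →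
        ∃ a', M.Step (T1.dev.prod (T2.dev.prod Z.dev)) w ⟨stOf s, (p1, p2, z), γ⟩ a' ∧
          Rel T1 T2 Z M w b' a') ∧
      (∀ a', M.Step (T1.dev.prod (T2.dev.prod Z.dev)) w ⟨stOf s, (p1, p2, z), γ⟩ a' →
        ∃ b', (merge T1 T2 Z M).Step ((prodT T1 T2).dev.prod Z.dev) w ⟨s, (x, z), st⟩ b' ∧
          Rel T1 T2 Z M w b' a')) := by
  have hi := idx_le (p1 := p1) h2
  have hN2 := T2.hN w
  have hone : ∀ (t' : (M.Q ⊕ (M.Q × Bool × Bool)) × (Dir × Z.dev.D) × Op (M.Γ ⊕ Bool)),
      trans T1 T2 Z M ((prodT T1 T2).lab w x, Z.dev.lab w z) st.head? s = {t'} →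
      Rel T1 T2 Z M w ⟨t'.1, (move ((T1.N w + 1) * (T2.N w + 1) - 1) x t'.2.1.1,
        Z.dev.mv w z t'.2.1.2), t'.2.2.apply st⟩ ⟨stOf s, (p1, p2, z), γ⟩ →
      meas (T2.N w) p1 p2 (move ((T1.N w + 1) * (T2.N w + 1) - 1) x t'.2.1.1) t'.1 <
        meas (T2.N w) p1 p2 x s →
      ((∃ b', (merge T1 T2 Z M).Step ((prodT T1 T2).dev.prod Z.dev) w ⟨s, (x, z), st⟩ b') ∧
        ∀ b', (merge T1 T2 Z M).Step ((prodT T1 T2).dev.prod Z.dev) w ⟨s, (x, z), st⟩ b' →
          Rel T1 T2 Z M w b' ⟨stOf s, (p1, p2, z), γ⟩ ∧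
          meas (T2.N w) p1 p2 b'.pos.1 b'.state < meas (T2.N w) p1 p2 x s) := by
    intro t' e1 e2 e3
    refine ⟨⟨_, (step_iff T1 T2 Z M w s x z st _).2 ⟨t', by rw [e1]; rfl, rfl⟩⟩, ?_⟩
    intro b' hb'
    obtain ⟨tr, htr, rfl⟩ := (step_iff T1 T2 Z M w s x z st _).1 hb'
    rw [e1, Set.mem_singleton_iff] at htr
    subst htr
    exact ⟨e2, e3⟩
  rcases s with q | ⟨q, (_ | _), (_ | _)⟩
  · -- ready
    right
    obtain ⟨rfl, rfl⟩ := hloc
    have hlab : (prodT T1 T2).lab w (p1 * (T2.N w + 1) + idx (T2.N w) p1 p2) =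
        (T1.lab w p1, T2.lab w p2, odd p1) := by
      rw [prodT_lab_at T1 T2 w hi, idx_idx h2]
    constructor
    · intro b' hb'
      obtain ⟨tr, htr, rfl⟩ := (step_iff T1 T2 Z M w _ _ z _ _).1 hb'
      rw [hlab, trans_ready] at htr
      obtain ⟨⟨q', ⟨d1, d2, dz⟩, op⟩, hsd, rfl⟩ := htr
      refine ⟨⟨q', (move (T1.N w) p1 d1, move (T2.N w) p2 d2, Z.dev.mv w z dz), op.apply γ⟩,
        ⟨_, hsd, rfl⟩, ?_⟩
      refine ⟨move_le _ _ _ h1, move_le _ _ _ h2, rfl, ?_, ?_⟩
      · exact stOf_next _ _ _ _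
      · show Loc _ _ _ _ (move ((T1.N w + 1) * (T2.N w + 1) - 1) _
          (phys (T2.isL (T2.lab w p2)) (T2.isR (T2.lab w p2)) (odd p1) d2))
          (op.apply γ) (op.emb.apply (embS γ)) _
        rw [phys_mv T1 T2 w h1 h2, ← embS_apply]
        exact loc_next T1 T2 Z M w h1 (move_le _ _ _ h2) d1 q' (op.apply γ)
    · rintro a' ⟨⟨q', ⟨d1, d2, dz⟩, op⟩, hsd, rfl⟩
      refine ⟨_, (step_iff T1 T2 Z M w _ _ z _ _).2
        ⟨(next (T1.isL (T1.lab w p1)) (T1.isR (T1.lab w p1)) q' d1,
          (phys (T2.isL (T2.lab w p2)) (T2.isR (T2.lab w p2)) (odd p1) d2, dz), op.emb),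
          ?_, rfl⟩, ?_⟩
      · rw [hlab, trans_ready]
        exact ⟨_, hsd, rfl⟩
      · refine ⟨move_le _ _ _ h1, move_le _ _ _ h2, rfl, ?_, ?_⟩
        · exact stOf_next _ _ _ _
        · show Loc _ _ _ _ (move ((T1.N w + 1) * (T2.N w + 1) - 1) _
            (phys (T2.isL (T2.lab w p2)) (T2.isR (T2.lab w p2)) (odd p1) d2))
            (op.apply γ) (op.emb.apply (embS γ)) _
          rw [phys_mv T1 T2 w h1 h2, ← embS_apply]
          exact loc_next T1 T2 Z M w h1 (move_le _ _ _ h2) d1 q' (op.apply γ)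
  · -- leftwards, pushing
    left
    obtain ⟨r, hp, rfl, hr, rfl⟩ := hloc
    have hr' : r ≤ T2.N w := by omega
    have hlab := prodT_lab_at T1 T2 w (p1 := p1 + 1) hr'
    have hae := atEnd_false T2 w (p1 := p1 + 1) hr'
    rcases Nat.eq_zero_or_pos r with h | h
    · have hmv : move ((T1.N w + 1) * (T2.N w + 1) - 1) ((p1 + 1) * (T2.N w + 1) + r) Dir.L =
          p1 * (T2.N w + 1) + T2.N w := by
        have h2 : (p1 + 1) * (T2.N w + 1) = p1 * (T2.N w + 1) + (T2.N w + 1) := by ring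
        simp only [move]
        omega
      refine hone (Sum.inr (q, false, true), (Dir.L, Z.idle), Op.none) ?_ ?_ ?_
      · rw [hlab]
        simp only [trans]
        rw [hae.2 h]
        rfl
      · refine rel_of T1 T2 Z M w h1 h2 ?_
        refine ⟨T2.N w, hmv, le_rfl, hi, ?_⟩
        subst h
        rfl
      · show meas _ _ _ (move _ _ Dir.L) _ < _
        rw [hmv]
        have h2 : (p1 + 1) * (T2.N w + 1) = p1 * (T2.N w + 1) + (T2.N w + 1) := by ring
        simp only [meas]
        omega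
    · have hmv : move ((T1.N w + 1) * (T2.N w + 1) - 1) ((p1 + 1) * (T2.N w + 1) + r) Dir.L =
          (p1 + 1) * (T2.N w + 1) + (r - 1) := by
        simp only [move]
        omega
      refine hone (Sum.inr (q, false, false), (Dir.L, Z.idle), Op.push (Sum.inr true)) ?_ ?_ ?_
      · rw [hlab]
        simp only [trans]
        rw [if_neg (by rw [hae]; omega)]
        rfl
      · refine rel_of T1 T2 Z M w h1 h2 ?_
        refine ⟨r - 1, hp, hmv, by omega, ?_⟩
        show Sum.inr true :: (List.replicate _ _ ++ _) = _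
        rw [cons_rep]
        congr 2
        omega
      · show meas _ _ _ (move _ _ Dir.L) _ < _
        rw [hmv]
        have h2 : (p1 + 1) * (T2.N w + 1) = p1 * (T2.N w + 1) + (T2.N w + 1) := by ring
        simp only [meas]
        omega
  · -- leftwards, popping
    left
    obtain ⟨r, rfl, hr, hir, rfl⟩ := hloc
    rcases Nat.lt_or_ge (idx (T2.N w) p1 p2) r with h | h
    · have hmv : move ((T1.N w + 1) * (T2.N w + 1) - 1) (p1 * (T2.N w + 1) + r) Dir.L =
          p1 * (T2.N w + 1) + (r - 1) := by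
        simp only [move]
        omega
      refine hone (Sum.inr (q, false, true), (Dir.L, Z.idle), Op.pop) ?_ ?_ ?_
      · rw [head_rep _ _ _ (by omega)]
        rfl
      · refine rel_of T1 T2 Z M w h1 h2 ?_
        refine ⟨r - 1, hmv, by omega, by omega, ?_⟩
        show (List.replicate _ _ ++ _).tail = _
        rw [tail_rep _ _ _ (by omega)]
        congr 2
        omega
      · show meas _ _ _ (move _ _ Dir.L) _ < _
        rw [hmv]
        simp only [meas]
        omega
    · have h' : r = idx (T2.N w) p1 p2 := by omega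
      have h0 : r - idx (T2.N w) p1 p2 = 0 := by omega
      refine hone (Sum.inl q, (Dir.S, Z.idle), Op.none) ?_ ?_ ?_
      · rw [h0]
        simp only [List.replicate_zero, List.nil_append]
        have h3 := embS_head_ne γ
        simp only [trans]
      · refine rel_of T1 T2 Z M w h1 h2 ?_
        refine ⟨?_, ?_⟩
        · show p1 * (T2.N w + 1) + r = _
          rw [h']
        · show List.replicate _ _ ++ _ = _
          rw [h0]; rfl
      · simp only [meas]
        omega
  · -- rightwards, pushing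
    left
    obtain ⟨b, r, rfl, rfl, hr, hir, rfl⟩ := hloc
    have hlab := prodT_lab_at T1 T2 w (p1 := b) hr
    have hae := atEnd_true T2 w (p1 := b) hr
    have hblk : (b + 1) * (T2.N w + 1) = b * (T2.N w + 1) + (T2.N w + 1) := by ring
    rcases Nat.lt_or_ge r (T2.N w) with h | h
    · have hmv : move ((T1.N w + 1) * (T2.N w + 1) - 1) (b * (T2.N w + 1) + r) Dir.R =
          b * (T2.N w + 1) + (r + 1) := by
        have := at_le (show b ≤ T1.N w by omega) (show r + 1 ≤ T2.N w by omega)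
        simp only [move]
        omega
      refine hone (Sum.inr (q, true, false), (Dir.R, Z.idle), Op.push (Sum.inr true)) ?_ ?_ ?_
      · rw [hlab]
        simp only [trans]
        rw [if_neg (by rw [hae]; omega)]
        rfl
      · refine rel_of T1 T2 Z M w h1 h2 ?_
        refine ⟨b, r + 1, rfl, hmv, by omega, by omega, ?_⟩
        show Sum.inr true :: (List.replicate _ _ ++ _) = _
        rw [cons_rep]
        congr 2
        omega
      · show meas _ _ _ (move _ _ Dir.R) _ < _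
        rw [hmv]
        simp only [meas]
        omega
    · have h' : r = T2.N w := by omega
      have hmv : move ((T1.N w + 1) * (T2.N w + 1) - 1) (b * (T2.N w + 1) + r) Dir.R =
          (b + 1) * (T2.N w + 1) + 0 := by
        have := at_le h1 (Nat.zero_le (T2.N w))
        simp only [move]
        omega
      refine hone (Sum.inr (q, true, true), (Dir.R, Z.idle), Op.none) ?_ ?_ ?_
      · rw [hlab]
        simp only [trans]
        rw [hae.2 h']
        rfl
      · refine rel_of T1 T2 Z M w h1 h2 ?_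
        refine ⟨0, hmv, Nat.zero_le _, ?_⟩
        show List.replicate _ _ ++ _ = _
        congr 2
        omega
      · show meas _ _ _ (move _ _ Dir.R) _ < _
        rw [hmv]
        simp only [meas]
        omega
  · -- rightwards, popping
    left
    obtain ⟨r, rfl, hr, rfl⟩ := hloc
    rcases Nat.lt_or_ge r (idx (T2.N w) p1 p2) with h | h
    · have hmv : move ((T1.N w + 1) * (T2.N w + 1) - 1) (p1 * (T2.N w + 1) + r) Dir.R =
          p1 * (T2.N w + 1) + (r + 1) := by
        have := at_le h1 (show r + 1 ≤ T2.N w by omega)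
        simp only [move]
        omega
      refine hone (Sum.inr (q, true, true), (Dir.R, Z.idle), Op.pop) ?_ ?_ ?_
      · rw [head_rep _ _ _ (by omega)]
        rfl
      · refine rel_of T1 T2 Z M w h1 h2 ?_
        refine ⟨r + 1, hmv, by omega, ?_⟩
        show (List.replicate _ _ ++ _).tail = _
        rw [tail_rep _ _ _ (by omega)]
        congr 2
      · show meas _ _ _ (move _ _ Dir.R) _ < _
        rw [hmv]
        simp only [meas]
        omega
    · have h' : r = idx (T2.N w) p1 p2 := by omega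
      have h0 : idx (T2.N w) p1 p2 - r = 0 := by omega
      refine hone (Sum.inl q, (Dir.S, Z.idle), Op.none) ?_ ?_ ?_
      · rw [h0]
        simp only [List.replicate_zero, List.nil_append]
        have h3 := embS_head_ne γ
        simp only [trans]
      · refine rel_of T1 T2 Z M w h1 h2 ?_
        refine ⟨?_, ?_⟩
        · show p1 * (T2.N w + 1) + r = _
          rw [h']
        · show List.replicate _ _ ++ _ = _
          rw [h0]; rfl
      · simp only [meas]
        omega

lemma sim (w : ι) :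
    Sim (M.Step (T1.dev.prod (T2.dev.prod Z.dev)) w)
      ⟨M.start, (T1.dev.prod (T2.dev.prod Z.dev)).start, []⟩
      ((merge T1 T2 Z M).Step ((prodT T1 T2).dev.prod Z.dev) w)
      ⟨Sum.inl M.start, ((prodT T1 T2).dev.prod Z.dev).start, []⟩
      (fun _ b a => Rel T1 T2 Z M w b a)
      (fun b a => meas (T2.N w) a.pos.1 a.pos.2.1 b.pos.1 b.state) where
  init := by
    refine ⟨Nat.zero_le _, Nat.zero_le _, rfl, rfl, ?_⟩
    refine ⟨?_, rfl⟩
    show 0 = 0 * (T2.N w + 1) + idx (T2.N w) 0 0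
    rw [idx_even rfl]
    simp
  step := by
    rintro t ⟨s, ⟨x, z⟩, st⟩ ⟨q0, ⟨p1, p2, z0⟩, γ⟩ ⟨h1, h2, hz, hq, hloc⟩
    simp only at h1 h2 hz hq hloc
    subst hz hq
    exact sim_step T1 T2 Z M w s x p1 p2 z γ st h1 h2 hloc

theorem merge_lang : (merge T1 T2 Z M).lang ((prodT T1 T2).dev.prod Z.dev) =
    M.lang (T1.dev.prod (T2.dev.prod Z.dev)) := by
  ext w
  constructor
  · rintro ⟨t, c', h1, h2⟩
    obtain ⟨c, t0, hc, hrel⟩ := (sim T1 T2 Z M w).sound h1
    refine ⟨t0, c, hc, ?_⟩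
    rw [← hrel.2.2.2.1]
    exact h2
  · rintro ⟨t0, c, h1, h2⟩
    obtain ⟨c', t, hc, hrel⟩ := (sim T1 T2 Z M w).complete h1
    refine ⟨t, c', hc, ?_⟩
    show stOf c'.state ∈ M.accept
    rw [hrel.2.2.2.1]
    exact h2

end Merge

end Pool.Agent.Heads
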