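import Pool.Agent.Lib_helper16.Heads.Bound
import Pool.Agent.Lib_helper16.Heads.Main

/-!
Every nondeterministic multihead pushdown automaton is equivalent to a deterministic one whose
head positions and stack height depend only on the input length and the time.
-/

set_option autoImplicit false

namespace Pool.Agent.Heads

/-- The head positions and the stack height depend only on the length of the input and the
time. -/
def PDA.Oblivious {α : Type} {k : ℕ} (M : PDA α k) : Prop :=
  ∀ (w w' : List α) (t : ℕ) (c c' : Cfg M.Q (Fin k → ℕ) M.Γ), w.length = w'.length →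
    M.Reach w t c → M.Reach w' t c' → c.pos = c'.pos ∧ c.stack.length = c'.stack.length

section Emul

variable {ι : Type}

/-- The product of two emulations. -/
def Emul.prod {X X' Y Y' : Dev ι} (E : Emul X X') (F : Emul Y Y') :
    Emul (X.prod Y) (X'.prod Y') where
  μ := E.μ × F.μ
  fin := by
    have := E.fin
    have := F.fin
    infer_instance
  m0 := (E.m0, F.m0)
  dl := fun m c => (E.dl m.1 c.1, F.dl m.2 c.2)
  em := fun m c d => (((E.em m.1 c.1 d.1).1, (F.em m.2 c.2 d.2).1),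
    ((E.em m.1 c.1 d.1).2, (F.em m.2 c.2 d.2).2))
  ρ := fun w x y m => E.ρ w x.1 y.1 m.1 ∧ F.ρ w x.2 y.2 m.2
  ρ0 := fun w => ⟨E.ρ0 w, F.ρ0 w⟩
  ρlab := by
    rintro w x y m ⟨h1, h2⟩
    show (X.lab w x.1, Y.lab w x.2) = (E.dl m.1 (X'.lab w y.1), F.dl m.2 (Y'.lab w y.2))
    rw [E.ρlab w _ _ _ h1, F.ρlab w _ _ _ h2]
  ρmv := by
    rintro w x y m ⟨h1, h2⟩ d
    exact ⟨E.ρmv w _ _ _ h1 d.1, F.ρmv w _ _ _ h2 d.2⟩

/-- A product of two powers. -/
def Emul.sum (X : Dev ι) (κ κ' : Type) :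
    Emul ((piDev κ X).prod (piDev κ' X)) (piDev (κ ⊕ κ') X) :=
  Emul.ofMap _ _ (fun y => (fun i => y (Sum.inl i), fun i => y (Sum.inr i)))
    (fun c => (fun i => c (Sum.inl i), fun i => c (Sum.inr i))) (fun d => Sum.elim d.1 d.2) rfl
    (fun _ _ => rfl) (fun _ _ _ => rfl)

/-- The position of the emulating device is determined by the position of the emulated device,
and the same for inputs related by `r`. -/
def Emul.Fn {X Y : Dev ι} (E : Emul X Y) (r : ι → ι → Prop) : Prop :=
  ∀ w w' x y y' m m', r w w' → E.ρ w x y m → E.ρ w' x y' m' → y = y'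

variable {r : ι → ι → Prop}

lemma Emul.Fn.trans {X Y Z : Dev ι} {E : Emul X Y} {F : Emul Y Z} (hE : E.Fn r)
    (hF : F.Fn r) : (E.trans F).Fn r := by
  rintro w w' x z z' m m' hr ⟨y, h1, h2⟩ ⟨y', h3, h4⟩
  have h5 := hE w w' x y y' _ _ hr h1 h3
  subst h5
  exact hF w w' y z z' _ _ hr h2 h4

lemma Emul.Fn.prod {X X' Y Y' : Dev ι} {E : Emul X X'} {F : Emul Y Y'} (hE : E.Fn r)
    (hF : F.Fn r) : (E.prod F).Fn r := by
  rintro w w' x y y' m m' hr ⟨h1, h2⟩ ⟨h3, h4⟩
  exact Prod.ext (hE w w' _ _ _ _ _ hr h1 h3) (hF w w' _ _ _ _ _ hr h2 h4)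

lemma Emul.Fn.pi {X Y : Dev ι} {E : Emul X Y} (κ : Type) [Finite κ] (hE : E.Fn r) :
    (Emul.pi κ E).Fn r := by
  intro w w' x y y' m m' hr h1 h2
  funext i
  exact hE w w' _ _ _ _ _ hr (h1 i) (h2 i)

lemma Emul.Fn.ofMap {X Y : Dev ι} {g : Y.P → X.P} {dl : Y.C → X.C} {em : X.D → Y.D}
    {h0 : g Y.start = X.start} {hlab : ∀ w y, X.lab w (g y) = dl (Y.lab w y)}
    {hmv : ∀ w y d, X.mv w (g y) d = g (Y.mv w y (em d))} (hg : Function.Injective g) :
    (Emul.ofMap X Y g dl em h0 hlab hmv).Fn r := by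
  intro w w' x y y' m m' _ h1 h2
  have h1' : x = g y := h1
  have h2' : x = g y' := h2
  exact hg (h1'.symm.trans h2')

lemma Emul.Fn.uncurry (X : Dev ι) (κ κ' : Type) : (Emul.uncurry X κ κ').Fn r := by
  refine Emul.Fn.ofMap ?_
  intro y y' h
  funext p
  exact congrFun (congrFun h p.1) p.2

lemma Emul.Fn.reindex (X : Dev ι) {κ κ' : Type} (e : κ ≃ κ') : (Emul.reindex X e).Fn r := by
  refine Emul.Fn.ofMap ?_
  intro y y' h
  funext p
  have h1 := congrFun h (e.symm p)
  simpa using h1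

lemma Emul.Fn.sum (X : Dev ι) (κ κ' : Type) : (Emul.sum X κ κ').Fn r := by
  refine Emul.Fn.ofMap ?_
  intro y y' h
  funext p
  cases p with
  | inl i => exact congrFun (congrArg Prod.fst h) i
  | inr i => exact congrFun (congrArg Prod.snd h) i

lemma Emul.Fn.stretch (T : Track ι) (c : ℕ) : (Emul.stretch T c).Fn r := by
  rintro w w' x y y' m m' _ ⟨h1, -⟩ ⟨h2, -⟩
  have e1 : x / (c + 1) = y := by
    rw [h1, Nat.mul_add_div (by omega : 0 < c + 1), Nat.div_eq_of_lt m.2, Nat.add_zero]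
  have e2 : x / (c + 1) = y' := by
    rw [h2, Nat.mul_add_div (by omega : 0 < c + 1), Nat.div_eq_of_lt m'.2, Nat.add_zero]
  exact e1.symm.trans e2

end Emul

variable (α : Type)

lemma Emul.Fn.toPi (k : ℕ) :
    (Heads.toPi α k).Fn (fun w w' : List α => w.length = w'.length) := by
  intro w w' x y y' m m' hr h1 h2
  rw [toPi_pos α k w x y m h1, toPi_pos α k w' x y' m' h2, hr]

lemma glen_succ (k n : ℕ) : glen k n + 1 = (n + 2) ^ (k + 1) := by
  induction k with
  | zero => simp [glen]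
  | succ k ih =>
    have h1 : 1 ≤ (glen k n + 1) * (n + 2) := Nat.one_le_iff_ne_zero.2 (by
      intro h0
      rcases Nat.mul_eq_zero.1 h0 with h1 | h1 <;> omega)
    show (glen k n + 1) * (n + 2) - 1 + 1 = _
    rw [Nat.sub_add_cancel h1, ih, ← pow_succ]

/-- The emulation of the device of the game, with its clock, by heads. -/
def bigEmul (k K c : ℕ) :
    Emul ((piDev (Fin 3) (TT α k).dev).prod (stretch (TT α K) c).dev)
      (piDev ((Fin 3 × Fin (k + 1)) ⊕ Fin (K + 1)) (headDev α)) :=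
  (Emul.prod ((Emul.pi (Fin 3) (toPi α k)).trans
      (Emul.uncurry (headDev α) (Fin 3) (Fin (k + 1))))
    ((Emul.stretch (TT α K) c).trans (toPi α K))).trans
    (Emul.sum (headDev α) (Fin 3 × Fin (k + 1)) (Fin (K + 1)))

lemma bigEmul_fn (k K c : ℕ) :
    (bigEmul α k K c).Fn (fun w w' : List α => w.length = w'.length) :=
  ((((Emul.Fn.toPi α k).pi (Fin 3)).trans (Emul.Fn.uncurry _ _ _)).prod
    ((Emul.Fn.stretch _ _).trans (Emul.Fn.toPi α K))).trans (Emul.Fn.sum _ _ _)

lemma inv_congr (k : ℕ) (w w' : List α) (hN : (TT α k).N w = (TT α k).N w') (z : ℕ)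
    (hi : z ≤ (TT α k).N w) (d : Dir) :
    (TT α k).inv ((TT α k).lab w z) d = (TT α k).inv ((TT α k).lab w' z) d := by
  have hi' : z ≤ (TT α k).N w' := by rw [← hN]; exact hi
  have a1 := (TT α k).hL w _ hi
  have a2 := (TT α k).hL w' _ hi'
  have a3 := (TT α k).hR w _ hi
  have a4 := (TT α k).hR w' _ hi'
  rw [hN] at a3
  have b1 : (TT α k).isL ((TT α k).lab w z) = (TT α k).isL ((TT α k).lab w' z) := by
    rw [Bool.eq_iff_iff, a1, a2]
  have b2 : (TT α k).isR ((TT α k).lab w z) = (TT α k).isR ((TT α k).lab w' z) := by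
    rw [Bool.eq_iff_iff, a3, a4]
  cases d with
  | L => simp only [Track.inv, b1]
  | S => rfl
  | R => simp only [Track.inv, b2]

/-- Every nondeterministic pushdown automaton with `k + 1` heads is equivalent to an oblivious
deterministic one with `6 (k + 1)` heads. -/
theorem oblivious (k : ℕ) (M : PDA α (k + 1)) : ∃ M' : PDA α (6 * (k + 1)),
    M'.lang = M.lang ∧ M'.Det ∧ M'.Oblivious := by
  obtain ⟨M1, h1, -⟩ := toTrack α k M.toMach
  have := M1.finQ
  have := M1.finΓ
  have hfin : Finite (GQ M1.Q M1.Γ) := finite_GQ _ _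
  let C := Nat.card (GQ M1.Q M1.Γ)
  let Y : RDev (List α) := RDev.pi (Fin 3) (TT α k).rdev
  let G : Game Y.dev.C Y.dev.D := game (TT α k) M1
  let T : Track (List α) := stretch (TT α (3 * k + 2)) C
  have hG : Finite (G.Q × Y.dev.D) := by
    have : Finite G.Q := hfin
    have : Finite Y.dev.D := Y.finD
    infer_instance
  obtain ⟨m, ⟨e⟩⟩ := hG.exists_equiv_fin
  let E := (bigEmul α k (3 * k + 2) C).trans (Emul.reindex (headDev α)
    (Fintype.equivFinOfCardEq (show Fintype.card ((Fin 3 × Fin (k + 1)) ⊕ Fin (3 * k + 2 + 1)) =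
      6 * (k + 1) by
        simp only [Fintype.card_sum, Fintype.card_prod, Fintype.card_fin]
        ring)))
  have hE : E.Fn (fun w w' : List α => w.length = w'.length) :=
    (bigEmul_fn α k _ _).trans (Emul.Fn.reindex _ _)
  let M2 := eval Y T G e.symm
  let M3 := E.mach M2
  refine ⟨Mach.toPDA M3, ?_, ?_, ?_⟩
  · have e1 : M3.toPDA.lang = M2.lang (Y.dev.prod T.dev) :=
      (Mach.lang_toPDA M3).trans (E.mach_lang M2)
    have e2 := eval_lang Y T G e.symm e.symm.surjective
    have e3 : M2.lang (Y.dev.prod T.dev) = M1.lang (TT α k).dev := by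
      refine e2.trans ?_
      ext w
      rw [lang_iff_win (TT α k) M1 w]
      refine (win_bound (TT α k) M1 w (T.N w) ?_ G.start Y.dev.start
        (fun _ => Nat.zero_le _)).symm
      show C * ((TT α k).N w + 1) ^ 3 ≤ (C + 1) * (TT α (3 * k + 2)).N w + C
      rw [TT_N, TT_N, glen_succ]
      have h2 := glen_succ (3 * k + 2) w.length
      have h3 : ((w.length + 2) ^ (k + 1)) ^ 3 = (w.length + 2) ^ (3 * k + 2 + 1) := by
        rw [← pow_mul]
        congr 1
        ring
      rw [h3, ← h2]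
      nlinarith
    exact e1.trans (e3.trans (h1.trans M.lang_toMach))
  · exact E.mach_det M2 (eval_det Y T G e.symm)
  · intro w w' t c c' hw hc hc'
    obtain ⟨x, h3, h4⟩ := E.mach_reach M2 w t c ((Mach.reach_toPDA M3 w t c).1 hc)
    obtain ⟨x', h5, h6⟩ := E.mach_reach M2 w' t c' ((Mach.reach_toPDA M3 w' t c').1 hc')
    have hN : (TT α k).N w = (TT α k).N w' := by rw [TT_N, TT_N, hw]
    have h7 := eval_obl Y T G e.symm w w' ?_ ?_ ?_ t _ _ h3 h5
    · obtain ⟨h8, -, h9, -, -⟩ := h7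
      have h8' : x = x' := h8
      subst h8'
      exact ⟨hE w w' x _ _ _ _ hw h4 h6, h9.length_eq⟩
    · intro y d _
      funext i
      show move ((TT α k).N w) (y i) (d i) = move ((TT α k).N w') (y i) (d i)
      rw [hN]
    · intro y d hy
      funext i
      exact inv_congr α k w w' hN (y i) (hy i) (d i)
    · show (C + 1) * (TT α (3 * k + 2)).N w + C = (C + 1) * (TT α (3 * k + 2)).N w' + C
      rw [TT_N, TT_N, hw]

end Pool.Agent.Heads
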