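import Pool.Agent.Lib_helper16.Heads.SweepT

/-!
The simulation by a sweeping machine, continued: languages, sweeping, pop-then-push.
-/

set_option autoImplicit false

namespace Pool.Agent.Heads

namespace SweepT

variable {ι : Type} {T : Track ι}

/-- The invariant relating the simulating machine at time `t` to the simulated one. -/
def Rel (T : Track ι) (M : Mach T.B Dir) (w : ι) (t : ℕ)
    (c' : Cfg (Ph × M.Q) ℕ (M.Γ ⊕ Bool)) (c : Cfg M.Q ℕ M.Γ) : Prop :=
  c.pos ≤ T.N w ∧ c'.state.2 = c.state ∧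
    Inv (T.N w) c.pos c.stack c'.pos c'.stack c'.state.1 ∧
    Tm (T.N w) t c'.pos c'.state.1

lemma step_iff (T : Track ι) (M : Mach T.B Dir) (w : ι) (p : Ph) (q : M.Q) (x : ℕ)
    (s : List (M.Γ ⊕ Bool)) (c'' : Cfg (Ph × M.Q) ℕ (M.Γ ⊕ Bool)) :
    (sweep T M).Step T.dev w ⟨(p, q), x, s⟩ c'' ↔
      ∃ t ∈ trans T M q (T.lab w x) s.head? (normAt (T.kd (T.lab w x)) p),
        c'' = ⟨t.1, move (T.N w) x t.2.1, t.2.2.apply s⟩ := Iff.rfl

lemma trans_ready (T : Track ι) (M : Mach T.B Dir) (y : T.B) (q : M.Q) (γ : List M.Γ) :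
    trans T M q y (embS γ).head? (Ph.up false) = real T M q y γ.head? := by
  rw [embS_head]
  cases γ <;> rfl

lemma rel_init (T : Track ι) (M : Mach T.B Dir) (w : ι) :
    Rel T M w 0 ⟨(Ph.up false, M.start), 0, []⟩ ⟨M.start, 0, []⟩ := by
  refine ⟨Nat.zero_le _, rfl, ?_, ?_⟩
  · exact ⟨le_rfl, by simp [embS]⟩
  · exact ⟨Nat.zero_le _, by simp⟩

lemma sim (T : Track ι) (M : Mach T.B Dir) (w : ι) :
    Sim (M.Step T.dev w) ⟨M.start, T.dev.start, []⟩ ((sweep T M).Step T.dev w)
      ⟨(Ph.up false, M.start), T.dev.start, []⟩ (Rel T M w)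
      (fun b a => meas (T.N w) a.pos b.state.1 b.pos) where
  init := rel_init T M w
  step := by
    rintro t ⟨⟨p, q⟩, x, s⟩ ⟨q1, i, γ⟩ ⟨hi, hq, hinv, htm⟩
    simp only at hi hq hinv htm
    subst hq
    rcases tick T M w q i γ x s p t hi hinv htm with ⟨p', d, o, h1, h2, h3, h4⟩ | ⟨hxi, hs, hp⟩
    · left
      refine ⟨⟨⟨(p', q), move (T.N w) x d, o.apply s⟩, ?_⟩, ?_⟩
      · refine (step_iff T M w p q x s _).2 ?_
        rw [h1]
        exact ⟨_, rfl, rfl⟩
      · intro b' hb'
        obtain ⟨tr, htr, rfl⟩ := (step_iff T M w p q x s _).1 hb'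
        rw [h1] at htr
        rw [Set.mem_singleton_iff] at htr
        subst htr
        exact ⟨⟨hi, rfl, h2, h3⟩, h4⟩
    · right
      subst hxi
      subst hs
      constructor
      · intro b' hb'
        obtain ⟨tr, htr, rfl⟩ := (step_iff T M w p q x (embS γ) _).1 hb'
        rw [hp, trans_ready] at htr
        obtain ⟨sd, hsd, rfl⟩ := htr
        have := ready T M w γ x t p htm sd hp
        refine ⟨⟨sd.1, move (T.N w) x sd.2.1, sd.2.2.apply γ⟩, ⟨sd, hsd, rfl⟩, ?_⟩
        exact ⟨move_le _ _ _ hi, rfl, this.1, this.2⟩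
      · rintro a' ⟨sd, hsd, rfl⟩
        have hrd := ready T M w γ x t p htm sd hp
        refine ⟨_, (step_iff T M w p q x (embS γ) _).2
          ⟨(((after (T.kd (T.lab w x)) (eff (T.kd (T.lab w x)) sd.2.1)).1, sd.1),
            (after (T.kd (T.lab w x)) (eff (T.kd (T.lab w x)) sd.2.1)).2, sd.2.2.emb), ?_, rfl⟩,
          ?_⟩
        · rw [hp, trans_ready]
          exact ⟨sd, hsd, rfl⟩
        · exact ⟨move_le _ _ _ hi, rfl, hrd.1, hrd.2⟩

theorem sweep_lang (T : Track ι) (M : Mach T.B Dir) :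
    (sweep T M).lang T.dev = M.lang T.dev := by
  ext w
  constructor
  · rintro ⟨t, c', h1, h2⟩
    obtain ⟨c, t0, hc, hrel⟩ := (sim T M w).sound h1
    refine ⟨t0, c, hc, ?_⟩
    rw [← hrel.2.1]
    exact h2
  · rintro ⟨t0, c, h1, h2⟩
    obtain ⟨c', t, hc, hrel⟩ := (sim T M w).complete h1
    refine ⟨t, c', hc, ?_⟩
    show c'.state.2 ∈ M.accept
    rw [hrel.2.1]
    exact h2

theorem sweep_pos (T : Track ι) (M : Mach T.B Dir) (w : ι) (t : ℕ)
    (c' : Cfg (Ph × M.Q) ℕ (M.Γ ⊕ Bool)) (h : (sweep T M).Reach T.dev w t c') :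
    c'.pos = tri (T.N w) t := by
  obtain ⟨c, t0, -, hrel⟩ := (sim T M w).sound h
  exact Tm_tri hrel.2.2.2

/-! ### No pop after a push in the same sweep -/

lemma step_up (T : Track ι) (M : Mach T.B Dir) (w : ι)
    (c c' : Cfg (Ph × M.Q) ℕ (M.Γ ⊕ Bool)) (hpos : c.pos < T.N w)
    (b : Bool) (hp : normAt (T.kd (T.lab w c.pos)) c.state.1 = Ph.up b)
    (hs : (sweep T M).Step T.dev w c c') (hg : c.stack.length < c'.stack.length) :
    ∃ d, c'.state.1 = Ph.skip d := by
  obtain ⟨⟨p, q⟩, x, s⟩ := c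
  obtain ⟨tr, htr, rfl⟩ := (step_iff T M w p q x s _).1 hs
  simp only at hp hg hpos
  rw [hp] at htr
  have haf : ∀ d : Dir, ∃ d', (after (T.kd (T.lab w x)) d).1 = Ph.skip d' := by
    intro d
    rcases T.kd_cases w hpos.le with ⟨-, hk⟩ | ⟨-, -, hk⟩ | ⟨hk, -⟩
    · rw [hk]; exact ⟨d, rfl⟩
    · rw [hk]; exact ⟨d, rfl⟩
    · omega
  cases b with
  | true =>
    have htr' : tr = ((Ph.up false, q), Dir.R, Op.none) := htr
    subst htr'
    exact absurd hg (lt_irrefl _)
  | false =>
    rcases hh : s.head? with _ | (g | (_ | _)) <;> rw [hh] at htr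
    · obtain ⟨sd, -, rfl⟩ := htr
      exact haf _
    · obtain ⟨sd, -, rfl⟩ := htr
      exact haf _
    · exact absurd htr (Set.notMem_empty _)
    · have htr' : tr = ((Ph.up false, q), Dir.R, Op.pop) := htr
      subst htr'
      have hg' : s.length < s.tail.length := hg
      rw [List.length_tail] at hg'
      omega

lemma step_skip (T : Track ι) (M : Mach T.B Dir) (w : ι)
    (c c' : Cfg (Ph × M.Q) ℕ (M.Γ ⊕ Bool)) (hle : c.pos ≤ T.N w)
    (d : Dir) (hp : normAt (T.kd (T.lab w c.pos)) c.state.1 = Ph.skip d ∨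
      normAt (T.kd (T.lab w c.pos)) c.state.1 = Ph.pushB d)
    (hs : (sweep T M).Step T.dev w c c') :
    c.stack.length ≤ c'.stack.length ∧ (c.pos < T.N w → c'.state.1 = Ph.pushB d) := by
  obtain ⟨⟨p, q⟩, x, s⟩ := c
  obtain ⟨tr, htr, rfl⟩ := (step_iff T M w p q x s _).1 hs
  simp only at hp hle
  have hk : T.kd (T.lab w x) = Kd.right ∨ (T.kd (T.lab w x) ≠ Kd.right ∧ x < T.N w) := by
    rcases T.kd_cases w hle with ⟨h0, hk⟩ | ⟨-, h1, hk⟩ | ⟨-, hk⟩
    · right
      rw [hk]
      exact ⟨by simp, by have := T.hN w; omega⟩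
    · right; rw [hk]; exact ⟨by simp, h1⟩
    · exact Or.inl hk
  have hk' : T.kd (T.lab w x) = Kd.right → x = T.N w := by
    intro h
    rcases T.kd_cases w hle with ⟨h0, hk⟩ | ⟨-, h1, hk⟩ | ⟨h1, hk⟩
    · rw [hk] at h; simp at h
    · rw [hk] at h; simp at h
    · exact h1
  rcases hp with hp | hp <;> rw [hp] at htr
  · simp only [trans] at htr
    rcases hk with hk | ⟨hk, hlt⟩
    · have hx := hk' hk
      rw [hk] at htr
      have htr' : tr = ((Ph.down d, q), Dir.L, Op.none) := htr
      subst htr'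
      refine ⟨le_rfl, fun h => ?_⟩
      simp only at h
      omega
    · have htr' : tr = ((Ph.pushB d, q), Dir.R, Op.none) := by
        cases h : T.kd (T.lab w x) with
        | left => rw [h] at htr; exact htr
        | mid => rw [h] at htr; exact htr
        | right => exact absurd h hk
      subst htr'
      exact ⟨le_rfl, fun _ => rfl⟩
  · simp only [trans] at htr
    rcases hk with hk | ⟨hk, hlt⟩
    · have hx := hk' hk
      rw [hk] at htr
      have htr' : tr = ((Ph.down d, q), Dir.L, Op.push (Sum.inr false)) := htr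
      subst htr'
      refine ⟨Nat.le_succ _, fun h => ?_⟩
      simp only at h
      omega
    · have htr' : tr = ((Ph.pushB d, q), Dir.R, Op.push (Sum.inr false)) := by
        cases h : T.kd (T.lab w x) with
        | left => rw [h] at htr; exact htr
        | mid => rw [h] at htr; exact htr
        | right => exact absurd h hk
      subst htr'
      exact ⟨Nat.le_succ _, fun _ => rfl⟩

lemma step_down (T : Track ι) (M : Mach T.B Dir) (w : ι)
    (c c' : Cfg (Ph × M.Q) ℕ (M.Γ ⊕ Bool))
    (d : Dir) (hp : normAt (T.kd (T.lab w c.pos)) c.state.1 = Ph.down d)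
    (hs : (sweep T M).Step T.dev w c c') (hg : c.stack.length < c'.stack.length) :
    ∃ b, c'.state.1 = Ph.downA b := by
  obtain ⟨⟨p, q⟩, x, s⟩ := c
  obtain ⟨tr, htr, rfl⟩ := (step_iff T M w p q x s _).1 hs
  simp only at hp hg
  rw [hp] at htr
  have key : tr ∈ (dn q d : Set ((Ph × M.Q) × Dir × Op (M.Γ ⊕ Bool))) →
      ∃ b, tr.1.1 = Ph.downA b := by
    intro h
    cases d with
    | L =>
      have htr' : tr = ((Ph.downA false, q), Dir.L, Op.none) := h
      subst htr'
      exact ⟨_, rfl⟩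
    | S =>
      have htr' : tr = ((Ph.downA false, q), Dir.L, Op.push (Sum.inr true)) := h
      subst htr'
      exact ⟨_, rfl⟩
    | R =>
      have htr' : tr = ((Ph.downA true, q), Dir.L, Op.push (Sum.inr true)) := h
      subst htr'
      exact ⟨_, rfl⟩
  rcases hh : s.head? with _ | (g | (_ | _)) <;> rw [hh] at htr
  · exact key htr
  · exact key htr
  · have htr' : tr = ((Ph.down d, q), Dir.L, Op.pop) := htr
    subst htr'
    have hg' : s.length < s.tail.length := hg
    rw [List.length_tail] at hg'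
    omega
  · exact key htr

lemma step_downA (T : Track ι) (M : Mach T.B Dir) (w : ι)
    (c c' : Cfg (Ph × M.Q) ℕ (M.Γ ⊕ Bool))
    (b : Bool) (hp : normAt (T.kd (T.lab w c.pos)) c.state.1 = Ph.downA b)
    (hs : (sweep T M).Step T.dev w c c') :
    c.stack.length ≤ c'.stack.length ∧ c'.state.1 = Ph.downA b := by
  obtain ⟨⟨p, q⟩, x, s⟩ := c
  obtain ⟨tr, htr, rfl⟩ := (step_iff T M w p q x s _).1 hs
  simp only at hp
  rw [hp] at htr
  have htr' : tr = ((Ph.downA b, q), Dir.L, Op.push (Sum.inr true)) := htr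
  subst htr'
  exact ⟨Nat.le_succ _, rfl⟩

/-- The phase at ascending times. -/
lemma phase_asc {N t x : ℕ} {p : Ph} (htm : Tm N t x p) (ht : t % (2 * N) ≤ N) (hN : 1 ≤ N) :
    x = t % (2 * N) ∧ ((∃ b, p = Ph.up b) ∨ (∃ d, p = Ph.skip d) ∨ (∃ d, p = Ph.pushB d) ∨
      x = 0) := by
  have hdesc : x < N → (t + x) % (2 * N) = 0 → x = 0 := by
    intro h1 h2
    by_contra h3
    have h4 := tri_down h1 h2
    unfold tri at h4
    rw [if_pos ht] at h4
    rw [Nat.add_mod, h4, Nat.mod_eq_of_lt (show x < 2 * N by omega),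
      Nat.mod_eq_of_lt (by omega)] at h2
    omega
  cases p with
  | up b => exact ⟨htm.2.symm, Or.inl ⟨b, rfl⟩⟩
  | skip d => exact ⟨htm.2.symm, Or.inr (Or.inl ⟨d, rfl⟩)⟩
  | pushB d => exact ⟨htm.2.symm, Or.inr (Or.inr (Or.inl ⟨d, rfl⟩))⟩
  | down d =>
    have h := hdesc htm.1 htm.2
    refine ⟨?_, Or.inr (Or.inr (Or.inr h))⟩
    have := htm.2
    rw [h, add_zero] at this
    rw [h, this]
  | downA d =>
    have h := hdesc htm.1 htm.2
    refine ⟨?_, Or.inr (Or.inr (Or.inr h))⟩
    have := htm.2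
    rw [h, add_zero] at this
    rw [h, this]

/-- The phase at descending times. -/
lemma phase_desc {N t x : ℕ} {p : Ph} (htm : Tm N t x p) (ht : N < t % (2 * N)) :
    0 < x ∧ ((∃ d, p = Ph.down d) ∨ (∃ b, p = Ph.downA b)) := by
  have hx : (t + x) % (2 * N) = 0 → 0 < x := by
    intro h
    rcases Nat.eq_zero_or_pos x with h0 | h0
    · rw [h0, add_zero] at h; omega
    · exact h0
  cases p with
  | up b => have h1 := htm.1; have h2 := htm.2; omega
  | skip d => have h1 := htm.1; have h2 := htm.2; omega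
  | pushB d => have h1 := htm.1; have h2 := htm.2; omega
  | down d => exact ⟨hx htm.2, Or.inl ⟨d, rfl⟩⟩
  | downA d => exact ⟨hx htm.2, Or.inr ⟨d, rfl⟩⟩

lemma normAt_pos (T : Track ι) (w : ι) {x : ℕ} (hx : 0 < x) (hle : x ≤ T.N w) (p : Ph) :
    normAt (T.kd (T.lab w x)) p = p := by
  rcases T.kd_cases w hle with ⟨h0, hk⟩ | ⟨-, h1, hk⟩ | ⟨h1, hk⟩
  · omega
  · rw [hk]; rfl
  · rw [hk]; rfl

theorem sweep_popThenPush (T : Track ι) (M : Mach T.B Dir) (w : ι) (n : ℕ)
    (r : ℕ → Cfg (Ph × M.Q) ℕ (M.Γ ⊕ Bool)) (h0 : r 0 = ⟨(Ph.up false, M.start), 0, []⟩)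
    (hstep : ∀ t < n, (sweep T M).Step T.dev w (r t) (r (t + 1))) :
    ∀ t t' : ℕ, t < t' → t' < n → SameSweep (T.N w) t t' →
      (r t).stack.length < (r (t + 1)).stack.length →
      (r t').stack.length ≤ (r (t' + 1)).stack.length := by
  intro t t' htt ht'T hsame hg
  have hN1 : 1 ≤ T.N w := T.hN w
  generalize hN : T.N w = N at *
  have hreach : ∀ u ≤ n, (sweep T M).Reach T.dev w u (r u) := by
    intro u
    induction u with
    | zero => intro _; rw [h0]; exact ReachN.zero
    | succ u ih => intro hu; exact ReachN.succ (ih (by omega)) (hstep u (by omega))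
  have hrel : ∀ u ≤ n, ∃ c, Rel T M w u (r u) c := by
    intro u hu
    obtain ⟨c, -, -, h⟩ := (sim T M w).sound (hreach u hu)
    exact ⟨c, h⟩
  have htm : ∀ u ≤ n, Tm N u (r u).pos (r u).state.1 := by
    intro u hu
    obtain ⟨c, h⟩ := hrel u hu
    rw [← hN]
    exact h.2.2.2
  have hinv : ∀ u ≤ n, ∃ i γ, Inv N i γ (r u).pos (r u).stack (r u).state.1 := by
    intro u hu
    obtain ⟨c, h⟩ := hrel u hu
    rw [← hN]
    exact ⟨_, _, h.2.2.1⟩
  have hle : ∀ u ≤ n, (r u).pos ≤ T.N w := by
    intro u hu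
    have h := htm u hu
    rw [hN]
    cases hp : (r u).state.1 with
    | up b => rw [hp] at h; exact h.1
    | skip b => rw [hp] at h; exact h.1
    | pushB b => rw [hp] at h; exact h.1
    | down b => rw [hp] at h; exact h.1.le
    | downA b => rw [hp] at h; exact h.1.le
  obtain ⟨hdiv, hmod⟩ := hsame
  have hNpos : 0 < 2 * N := by omega
  have e1 := Nat.div_add_mod t (2 * N)
  have e2 := Nat.div_add_mod t' (2 * N)
  have hlt' := Nat.mod_lt t' hNpos
  rw [← hdiv] at e2
  generalize hk : 2 * N * (t / (2 * N)) = K at e1 e2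
  have hKmod : ∀ a, (K + a) % (2 * N) = a % (2 * N) := by
    intro a; rw [← hk, Nat.mul_add_mod]
  have hu : ∀ u, t ≤ u → u ≤ t' → u % (2 * N) = t % (2 * N) + (u - t) := by
    intro u h1 h2
    have : u = K + (t % (2 * N) + (u - t)) := by omega
    have h3 : (K + (t % (2 * N) + (u - t))) % (2 * N) = t % (2 * N) + (u - t) := by
      rw [hKmod, Nat.mod_eq_of_lt (by omega)]
    rw [← this] at h3
    exact h3
  rcases Nat.lt_or_ge N (t % (2 * N)) with hd | hd
  · -- descending
    have hdt : N < t' % (2 * N) := by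
      by_contra h
      have := hmod.2 (by omega)
      omega
    have h1 : ∃ b, (r (t + 1)).state.1 = Ph.downA b := by
      obtain ⟨hx, hcase⟩ := phase_desc (htm t (by omega)) hd
      rcases hcase with ⟨d, hd'⟩ | ⟨b, hb⟩
      · exact step_down T M w _ _ d (by rw [normAt_pos T w hx (hle _ (by omega)), hd'])
          (hstep t (by omega)) hg
      · exact ⟨b, (step_downA T M w _ _ b (by rw [normAt_pos T w hx (hle _ (by omega)), hb])
          (hstep t (by omega))).2⟩
    have h2 : ∀ u, t + 1 ≤ u → u ≤ t' → ∃ b, (r u).state.1 = Ph.downA b := by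
      intro u hu1
      induction u, hu1 using Nat.le_induction with
      | base => intro _; exact h1
      | succ u hu1 ih =>
        intro hu2
        obtain ⟨b, hb⟩ := ih (by omega)
        have hum := hu u (by omega) (by omega)
        obtain ⟨hx, -⟩ := phase_desc (htm u (by omega)) (by omega)
        exact ⟨b, (step_downA T M w _ _ b (by rw [normAt_pos T w hx (hle _ (by omega)), hb])
          (hstep u (by omega))).2⟩
    obtain ⟨b, hb⟩ := h2 t' (by omega) le_rfl
    obtain ⟨hx, -⟩ := phase_desc (htm t' (by omega)) hdt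
    exact (step_downA T M w _ _ b (by rw [normAt_pos T w hx (hle _ (by omega)), hb])
      (hstep t' (by omega))).1
  · -- ascending
    have hdt : t' % (2 * N) ≤ N := hmod.1 hd
    have htlt : t % (2 * N) < N := by
      have := hu t' (by omega) le_rfl
      omega
    have hpos : ∀ u, t ≤ u → u ≤ t' → (r u).pos = u % (2 * N) := by
      intro u h1 h2
      have := hu u h1 h2
      have := hu t' (by omega) le_rfl
      exact (phase_asc (htm u (by omega)) (by omega) hN1).1
    have h1 : ∃ d, (r (t + 1)).state.1 = Ph.skip d ∨ (r (t + 1)).state.1 = Ph.pushB d := by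
      have hx := hpos t le_rfl (by omega)
      obtain ⟨i, γ, hi⟩ := hinv t (by omega)
      have hstep' := hstep t (by omega)
      have hcase := (phase_asc (htm t (by omega)) hd hN1).2
      rcases Nat.eq_zero_or_pos (r t).pos with hx0 | hx0
      · -- cell 0
        have hnorm : ∃ b, normAt (T.kd (T.lab w (r t).pos)) (r t).state.1 = Ph.up b := by
          rw [hx0, T.kd_zero]
          show ∃ b, (r t).state.1.norm = Ph.up b
          rw [hx0] at hi
          cases hp : (r t).state.1 with
          | up b => exact ⟨b, rfl⟩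
          | skip d =>
            rw [hp] at hi
            obtain ⟨j, hj, -⟩ := hi
            omega
          | pushB d =>
            rw [hp] at hi
            obtain ⟨j, hj, -⟩ := hi
            omega
          | down d => cases d <;> exact ⟨_, rfl⟩
          | downA b => exact ⟨b, rfl⟩
        obtain ⟨b, hb⟩ := hnorm
        obtain ⟨d, hd'⟩ := step_up T M w _ _ (by omega) b hb hstep' hg
        exact ⟨d, Or.inl hd'⟩
      · rcases hcase with ⟨b, hb⟩ | ⟨d, hd'⟩ | ⟨d, hd'⟩ | h
        · obtain ⟨d, hd'⟩ := step_up T M w _ _ (by omega) b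
            (by rw [normAt_pos T w hx0 (hle _ (by omega)), hb]) hstep' hg
          exact ⟨d, Or.inl hd'⟩
        · exact ⟨d, Or.inr ((step_skip T M w _ _ (hle _ (by omega)) d
            (Or.inl (by rw [normAt_pos T w hx0 (hle _ (by omega)), hd'])) hstep').2 (by omega))⟩
        · exact ⟨d, Or.inr ((step_skip T M w _ _ (hle _ (by omega)) d
            (Or.inr (by rw [normAt_pos T w hx0 (hle _ (by omega)), hd'])) hstep').2 (by omega))⟩
        · omega
    have h2 : ∀ u, t + 1 ≤ u → u ≤ t' →
        ∃ d, (r u).state.1 = Ph.skip d ∨ (r u).state.1 = Ph.pushB d := by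
      intro u hu1
      induction u, hu1 using Nat.le_induction with
      | base => intro _; exact h1
      | succ u hu1 ih =>
        intro hu2
        obtain ⟨d, hd'⟩ := ih (by omega)
        have hum := hu u (by omega) (by omega)
        have hum' := hu t' (by omega) le_rfl
        have hx := hpos u (by omega) (by omega)
        have hx0 : 0 < (r u).pos := by omega
        refine ⟨d, Or.inr ((step_skip T M w _ _ (hle _ (by omega)) d ?_
          (hstep u (by omega))).2 (by omega))⟩
        rw [normAt_pos T w hx0 (hle _ (by omega))]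
        exact hd'
    obtain ⟨d, hd'⟩ := h2 t' (by omega) le_rfl
    have hx := hpos t' (by omega) le_rfl
    have hum' := hu t' (by omega) le_rfl
    have hx0 : 0 < (r t').pos := by omega
    refine (step_skip T M w _ _ (hle _ (by omega)) d ?_ (hstep t' (by omega))).1
    rw [normAt_pos T w hx0 (hle _ (by omega))]
    exact hd'

end SweepT

end Pool.Agent.Heads
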