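import Pool.Agent.Lib_helper16.Heads.Merge
import Pool.Agent.Lib_helper16.Heads.SweepM

/-!
Powers of devices, multihead tapes, and the passage between multihead tapes and product tracks.
-/

set_option autoImplicit false

namespace Pool.Agent.Heads

variable {ι : Type}

/-- An emulation given by a decoding of positions. -/
def Emul.ofMap (X Y : Dev ι) (g : Y.P → X.P) (dl : Y.C → X.C) (em : X.D → Y.D)
    (h0 : g Y.start = X.start) (hlab : ∀ w y, X.lab w (g y) = dl (Y.lab w y))
    (hmv : ∀ w y d, X.mv w (g y) d = g (Y.mv w y (em d))) : Emul X Y where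
  μ := Unit
  fin := inferInstance
  m0 := ()
  dl := fun _ c => dl c
  em := fun _ _ d => (em d, ())
  ρ := fun _ x y _ => x = g y
  ρ0 := fun _ => h0.symm
  ρlab := by
    rintro w x y m rfl
    exact hlab w y
  ρmv := by
    rintro w x y m rfl d
    exact hmv w y d

/-- The power of a device. -/
@[reducible] def piDev (κ : Type) (X : Dev ι) : Dev ι where
  P := κ → X.P
  C := κ → X.C
  D := κ → X.D
  start := fun _ => X.start
  lab := fun w p i => X.lab w (p i)
  mv := fun w p d i => X.mv w (p i) (d i)

/-- The power of an emulation. -/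
def Emul.pi {X Y : Dev ι} (κ : Type) [Finite κ] (E : Emul X Y) :
    Emul (piDev κ X) (piDev κ Y) where
  μ := κ → E.μ
  fin := by
    have := E.fin
    infer_instance
  m0 := fun _ => E.m0
  dl := fun m c i => E.dl (m i) (c i)
  em := fun m c d => (fun i => (E.em (m i) (c i) (d i)).1, fun i => (E.em (m i) (c i) (d i)).2)
  ρ := fun w x y m => ∀ i, E.ρ w (x i) (y i) (m i)
  ρ0 := fun w _ => E.ρ0 w
  ρlab := by
    intro w x y m h
    funext i
    exact E.ρlab w _ _ _ (h i)
  ρmv := by
    intro w x y m h d i
    exact E.ρmv w _ _ _ (h i) (d i)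

/-- Reindexing a power of a device. -/
def Emul.reindex (X : Dev ι) {κ κ' : Type} (e : κ ≃ κ') : Emul (piDev κ X) (piDev κ' X) :=
  Emul.ofMap _ _ (fun y i => y (e i)) (fun c i => c (e i)) (fun d j => d (e.symm j)) rfl
    (fun _ _ => rfl) (fun w y d => by
      funext i
      show X.mv w (y (e i)) (d i) = X.mv w (y (e i)) (d (e.symm (e i)))
      rw [e.symm_apply_apply])

/-- A power of a power. -/
def Emul.uncurry (X : Dev ι) (κ κ' : Type) :
    Emul (piDev κ (piDev κ' X)) (piDev (κ × κ') X) :=
  Emul.ofMap _ _ (fun y i j => y (i, j)) (fun c i j => c (i, j)) (fun d p => d p.1 p.2) rfl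
    (fun _ _ => rfl) (fun _ _ _ => rfl)

section Heads

variable (α : Type)

/-- The device with one head on the tape `⊢ w ⊣`. -/
@[reducible] def headDev : Dev (List α) := (base α).dev

/-- The device with `k + 1` heads, as an iterated product. -/
def HD : ℕ → Dev (List α)
  | 0 => headDev α
  | k + 1 => (HD k).prod (headDev α)

/-- The track formed by the `(k + 1)`-tuples of cells. -/
def TT : ℕ → Track (List α)
  | 0 => base α
  | k + 1 => prodT (TT k) (base α)

/-- The last cell of `TT α k`. -/
def glen : ℕ → ℕ → ℕ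
  | 0, n => n + 1
  | k + 1, n => (glen k n + 1) * (n + 2) - 1

/-- The `(k + 1)`-tuple at cell `x` of `TT α k`. -/
def grid : (k : ℕ) → ℕ → ℕ → Fin (k + 1) → ℕ
  | 0, _, x => fun _ => x
  | k + 1, n, x => Fin.snoc (α := fun _ => ℕ) (grid k n (dec (n + 1) x).1) (dec (n + 1) x).2

lemma TT_N (k : ℕ) (w : List α) : (TT α k).N w = glen k w.length := by
  induction k with
  | zero => rfl
  | succ k ih =>
    show ((TT α k).N w + 1) * (w.length + 1 + 1) - 1 = _
    rw [ih]
    rfl

/-- Splitting off the last head. -/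
def Emul.snoc' (X : Dev ι) (k : ℕ) :
    Emul ((piDev (Fin (k + 1)) X).prod X) (piDev (Fin (k + 1 + 1)) X) :=
  Emul.ofMap _ _ (fun y => (fun i => y i.castSucc, y (Fin.last _)))
    (fun c => (fun i => c i.castSucc, c (Fin.last _)))
    (fun d => Fin.snoc (α := fun _ => X.D) d.1 d.2) rfl (fun _ _ => rfl) (fun w y d => by
      show ((fun i => X.mv w (y i.castSucc) (d.1 i)), X.mv w (y (Fin.last _)) d.2) =
        ((fun i : Fin (k + 1) => X.mv w (y i.castSucc)
          (Fin.snoc (α := fun _ => X.D) d.1 d.2 i.castSucc)),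
          X.mv w (y (Fin.last _)) (Fin.snoc (α := fun _ => X.D) d.1 d.2 (Fin.last _)))
      rw [Fin.snoc_last]
      simp only [Fin.snoc_castSucc])

/-- Joining the last head. -/
def Emul.snoc (X : Dev ι) (k : ℕ) :
    Emul (piDev (Fin (k + 1 + 1)) X) ((piDev (Fin (k + 1)) X).prod X) :=
  Emul.ofMap _ _ (fun y => Fin.snoc (α := fun _ => X.P) y.1 y.2)
    (fun c => Fin.snoc (α := fun _ => X.C) c.1 c.2)
    (fun d => (fun i => d i.castSucc, d (Fin.last _)))
    (by
      funext i
      refine Fin.lastCases ?_ (fun j => ?_) i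
      · exact Fin.snoc_last _ _
      · exact Fin.snoc_castSucc _ _ _)
    (fun w y => by
      funext i
      refine Fin.lastCases ?_ (fun j => ?_) i
      · show X.lab w (Fin.snoc (α := fun _ => X.P) y.1 y.2 (Fin.last _)) =
          Fin.snoc (α := fun _ => X.C) _ _ (Fin.last _)
        rw [Fin.snoc_last, Fin.snoc_last]
      · show X.lab w (Fin.snoc (α := fun _ => X.P) y.1 y.2 j.castSucc) =
          Fin.snoc (α := fun _ => X.C) _ _ j.castSucc
        rw [Fin.snoc_castSucc, Fin.snoc_castSucc])
    (fun w y d => by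
      funext i
      refine Fin.lastCases ?_ (fun j => ?_) i
      · show X.mv w (Fin.snoc (α := fun _ => X.P) y.1 y.2 (Fin.last _)) (d (Fin.last _)) =
          Fin.snoc (α := fun _ => X.P) _ _ (Fin.last _)
        rw [Fin.snoc_last, Fin.snoc_last]
      · show X.mv w (Fin.snoc (α := fun _ => X.P) y.1 y.2 j.castSucc) (d j.castSucc) =
          Fin.snoc (α := fun _ => X.P) _ _ j.castSucc
        rw [Fin.snoc_castSucc, Fin.snoc_castSucc])

/-- A one-element power. -/
def Emul.one (X : Dev ι) : Emul (piDev (Fin (0 + 1)) X) X :=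
  Emul.ofMap _ _ (fun y _ => y) (fun c _ => c) (fun d => d 0) rfl (fun _ _ => rfl)
    (fun w y d => by
      funext i
      have : i = 0 := by omega
      subst this
      rfl)

/-- A one-element power. -/
def Emul.one' (X : Dev ι) : Emul X (piDev (Fin (0 + 1)) X) :=
  Emul.ofMap _ _ (fun y => y 0) (fun c => c 0) (fun d _ => d) rfl (fun _ _ => rfl)
    (fun _ _ _ => rfl)

/-- From a power to the iterated product. -/
def ofPi : (k : ℕ) → Emul (piDev (Fin (k + 1)) (headDev α)) (HD α k)
  | 0 => Emul.one (headDev α)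
  | k + 1 => (Emul.snoc (headDev α) k).trans ((ofPi k).side (headDev α))

/-- From a product track to a power of the tape. -/
def toPi : (k : ℕ) → Emul (TT α k).dev (piDev (Fin (k + 1)) (headDev α))
  | 0 => Emul.one' (headDev α)
  | k + 1 => (Emul.split (TT α k) (base α)).trans
      (((toPi k).side (headDev α)).trans (Emul.snoc' (headDev α) k))

lemma toPi_pos (k : ℕ) : ∀ (w : List α) (x : (TT α k).dev.P) (y : Fin (k + 1) → ℕ)
    (m : (toPi α k).μ), (toPi α k).ρ w x y m → y = grid k w.length x := by
  induction k with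
  | zero =>
    intro w x y m h
    have h' : x = y 0 := h
    funext i
    have : i = 0 := by omega
    subst this
    exact h'.symm
  | succ k ih =>
    rintro w x y m ⟨z, ⟨-, hz, -⟩, z', ⟨h1, h2⟩, h3⟩
    have h4 := ih w _ _ _ h1
    have h3' : z' = (fun i => y i.castSucc, y (Fin.last _)) := h3
    subst h3'
    funext i
    refine Fin.lastCases ?_ (fun j => ?_) i
    · show y (Fin.last _) = Fin.snoc (α := fun _ => ℕ) _ _ (Fin.last _)
      rw [Fin.snoc_last]
      have h2' : z.2 = y (Fin.last _) := h2
      rw [← h2', hz]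
      rfl
    · show y j.castSucc = Fin.snoc (α := fun _ => ℕ) _ _ j.castSucc
      rw [Fin.snoc_castSucc]
      have h4' : (fun i : Fin (k + 1) => y i.castSucc) = grid k w.length z.1 := h4
      have h5 := congrFun h4' j
      simp only at h5
      rw [h5, hz]
      rfl

/-- A device with an idle move. -/
def IDev.prod (X Y : IDev ι) : IDev ι where
  dev := X.dev.prod Y.dev
  idle := (X.idle, Y.idle)
  hidle := by
    intro w p
    show (X.dev.mv w p.1 X.idle, Y.dev.mv w p.2 Y.idle) = p
    rw [X.hidle, Y.hidle]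

def headI : IDev (List α) where
  dev := headDev α
  idle := Dir.S
  hidle := fun _ _ => rfl

def unitI : IDev ι where
  dev := Dev.unit ι
  idle := ()
  hidle := fun _ _ => rfl

/-- A machine with `k + 1` heads is simulated by a machine with one head on the product track. -/
theorem chain (k : ℕ) : ∀ (Z : IDev (List α))
    (M : Mach ((HD α k).prod Z.dev).C ((HD α k).prod Z.dev).D),
    ∃ M' : Mach ((TT α k).dev.prod Z.dev).C ((TT α k).dev.prod Z.dev).D,
      M'.lang ((TT α k).dev.prod Z.dev) = M.lang ((HD α k).prod Z.dev) ∧ (M.Det → M'.Det) := by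
  induction k with
  | zero => exact fun Z M => ⟨M, rfl, id⟩
  | succ k ih =>
    intro Z M
    let E := Emul.assoc (HD α k) (headDev α) Z.dev
    obtain ⟨M1, h1, h2⟩ := ih ((headI α).prod Z) (E.mach M)
    refine ⟨Merge.merge (TT α k) (base α) Z M1, ?_, ?_⟩
    · have h3 := Merge.merge_lang (TT α k) (base α) Z M1
      have h4 := E.mach_lang M
      exact h3.trans (h1.trans h4)
    · intro hd
      exact Merge.merge_det _ _ _ _ (h2 (E.mach_det M hd))

/-- A machine with `k + 1` heads is simulated by a machine with one head on the product track. -/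
theorem toTrack (k : ℕ) (M : Mach (piDev (Fin (k + 1)) (headDev α)).C
    (piDev (Fin (k + 1)) (headDev α)).D) :
    ∃ M' : Mach (TT α k).B Dir,
      M'.lang (TT α k).dev = M.lang (piDev (Fin (k + 1)) (headDev α)) ∧ (M.Det → M'.Det) := by
  let E := (ofPi α k).trans (Emul.addUnit (HD α k))
  obtain ⟨M1, h1, h2⟩ := chain α k unitI (E.mach M)
  let E' := Emul.rmUnit (TT α k).dev
  refine ⟨E'.mach M1, ?_, ?_⟩
  · have h3 := E'.mach_lang M1
    have h4 := E.mach_lang M
    exact h3.trans (h1.trans h4)
  · intro hd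
    exact E'.mach_det _ (h2 (E.mach_det M hd))

end Heads

end Pool.Agent.Heads
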