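import Pool.Agent.Lib_helper16.Heads.Track

/-!
The product of two tracks, walked through in boustrophedon order, and its lock-step emulation by
two heads.
-/

set_option autoImplicit false

namespace Pool.Agent.Heads

/-- Reversal of the index `r` in odd blocks. -/
def idx (N2 p1 r : ℕ) : ℕ := if p1 % 2 = 1 then N2 - r else r

/-- The parity flag. -/
def odd (p : ℕ) : Bool := decide (p % 2 = 1)

lemma idx_le {N2 p1 r : ℕ} (h : r ≤ N2) : idx N2 p1 r ≤ N2 := by
  unfold idx; split_ifs <;> omega

lemma idx_idx {N2 p1 r : ℕ} (h : r ≤ N2) : idx N2 p1 (idx N2 p1 r) = r := by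
  unfold idx; split_ifs <;> omega

lemma idx_succ {N2 p1 r : ℕ} (h : r ≤ N2) : idx N2 (p1 + 1) r = N2 - idx N2 p1 r := by
  unfold idx; split_ifs <;> omega

lemma odd_succ (p : ℕ) : odd (p + 1) = !odd p := by
  unfold odd
  rcases Nat.mod_two_eq_zero_or_one p with h | h
  · have : (p + 1) % 2 = 1 := by omega
    simp [h, this]
  · have : (p + 1) % 2 = 0 := by omega
    simp [h, this]

lemma idx_odd {N2 p1 r : ℕ} (h : odd p1 = true) : idx N2 p1 r = N2 - r := by
  unfold idx odd at *
  simp at h
  simp [h]

lemma idx_even {N2 p1 r : ℕ} (h : odd p1 = false) : idx N2 p1 r = r := by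
  unfold idx odd at *
  simp at h
  simp [h]

/-- The boustrophedon enumeration of the grid. -/
def dec (N2 x : ℕ) : ℕ × ℕ := (x / (N2 + 1), idx N2 (x / (N2 + 1)) (x % (N2 + 1)))

lemma dec_at {N2 p1 r : ℕ} (h : r ≤ N2) : dec N2 (p1 * (N2 + 1) + r) = (p1, idx N2 p1 r) := by
  unfold dec
  have h1 : (p1 * (N2 + 1) + r) / (N2 + 1) = p1 := by
    rw [Nat.add_comm, Nat.add_mul_div_right _ _ (by omega), Nat.div_eq_of_lt (by omega)]
    omega
  have h2 : (p1 * (N2 + 1) + r) % (N2 + 1) = r := by
    rw [Nat.add_comm, Nat.add_mul_mod_self_right, Nat.mod_eq_of_lt (by omega)]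
  rw [h1, h2]

lemma exists_at {N1 N2 x : ℕ} (h : x ≤ (N1 + 1) * (N2 + 1) - 1) :
    ∃ p1 r, x = p1 * (N2 + 1) + r ∧ r ≤ N2 ∧ p1 ≤ N1 := by
  refine ⟨x / (N2 + 1), x % (N2 + 1), ?_, ?_, ?_⟩
  · have := Nat.div_add_mod x (N2 + 1)
    rw [mul_comm] at this
    exact this.symm
  · have := Nat.mod_lt x (show 0 < N2 + 1 by omega)
    omega
  · have h3 : 0 < (N1 + 1) * (N2 + 1) := by positivity
    have h4 : x < (N1 + 1) * (N2 + 1) := by omega
    have := Nat.div_lt_of_lt_mul (show x < (N2 + 1) * (N1 + 1) by rw [mul_comm]; exact h4)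
    omega

lemma at_le {N1 N2 p1 r : ℕ} (hp : p1 ≤ N1) (hr : r ≤ N2) :
    p1 * (N2 + 1) + r ≤ (N1 + 1) * (N2 + 1) - 1 := by
  have : (p1 + 1) * (N2 + 1) ≤ (N1 + 1) * (N2 + 1) := Nat.mul_le_mul_right _ (by omega)
  have h2 : (p1 + 1) * (N2 + 1) = p1 * (N2 + 1) + (N2 + 1) := by ring
  omega

variable {ι : Type}

/-- The product of two tracks: the grid of pairs of cells, in boustrophedon order. -/
@[reducible] def prodT (T1 T2 : Track ι) : Track ι where
  B := T1.B × T2.B × Bool
  N := fun w => (T1.N w + 1) * (T2.N w + 1) - 1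
  lab := fun w x => (T1.lab w (dec (T2.N w) x).1, T2.lab w (dec (T2.N w) x).2,
    odd (dec (T2.N w) x).1)
  isL := fun b => T1.isL b.1 && T2.isL b.2.1
  isR := fun b => T1.isR b.1 && (if b.2.2 then T2.isL b.2.1 else T2.isR b.2.1)
  hN := fun w => by
    have h1 := T1.hN w
    have h2 := T2.hN w
    have : 2 * 2 ≤ (T1.N w + 1) * (T2.N w + 1) := Nat.mul_le_mul (by omega) (by omega)
    omega
  hL := by
    intro w x hx
    obtain ⟨p1, r, rfl, hr, hp⟩ := exists_at hx
    simp only [dec_at hr, Bool.and_eq_true]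
    rw [T1.hL w p1 hp, T2.hL w _ (idx_le hr)]
    constructor
    · rintro ⟨h1, h2⟩
      subst h1
      have : idx (T2.N w) 0 r = r := idx_even rfl
      rw [this] at h2
      subst h2
      simp
    · intro h
      have h1 : p1 * (T2.N w + 1) = 0 := by omega
      have h2 : r = 0 := by omega
      have h3 : p1 = 0 := by
        rcases Nat.mul_eq_zero.1 h1 with h | h
        · exact h
        · omega
      subst h3
      subst h2
      exact ⟨rfl, idx_even rfl⟩
  hR := by
    intro w x hx
    obtain ⟨p1, r, rfl, hr, hp⟩ := exists_at hx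
    simp only [dec_at hr, Bool.and_eq_true]
    rw [T1.hR w p1 hp]
    have key : ((if odd p1 = true then T2.isL (T2.lab w (idx (T2.N w) p1 r))
        else T2.isR (T2.lab w (idx (T2.N w) p1 r))) = true) ↔ r = T2.N w := by
      cases ho : odd p1 with
      | true =>
        simp only [if_true]
        rw [T2.hL w _ (idx_le hr), idx_odd ho]
        omega
      | false =>
        simp only [Bool.false_eq_true, if_false]
        rw [T2.hR w _ (idx_le hr), idx_even ho]
    rw [key]
    constructor
    · rintro ⟨rfl, rfl⟩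
      have : (T1.N w + 1) * (T2.N w + 1) = T1.N w * (T2.N w + 1) + (T2.N w + 1) := by ring
      omega
    · intro h
      have h1 : p1 = T1.N w := by
        by_contra hne
        have h2 := at_le (N1 := T1.N w - 1) (show p1 ≤ T1.N w - 1 by omega) hr
        have h3 : T1.N w - 1 + 1 = T1.N w := by have := T1.hN w; omega
        rw [h3] at h2
        have h4 : (T1.N w + 1) * (T2.N w + 1) = T1.N w * (T2.N w + 1) + (T2.N w + 1) := by ring
        have h5 : 0 < T1.N w * (T2.N w + 1) := by have := T1.hN w; positivity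
        omega
      refine ⟨h1, ?_⟩
      subst h1
      have : (T1.N w + 1) * (T2.N w + 1) = T1.N w * (T2.N w + 1) + (T2.N w + 1) := by ring
      omega

lemma prodT_lab_at (T1 T2 : Track ι) (w : ι) {p1 r : ℕ} (hr : r ≤ T2.N w) :
    (prodT T1 T2).lab w (p1 * (T2.N w + 1) + r) =
      (T1.lab w p1, T2.lab w (idx (T2.N w) p1 r), odd p1) := by
  simp only [prodT, dec_at hr]

/-- The moves of the two heads emulating a head on the product track; `m` is the parity of the
first coordinate. -/
def emv (l1 r1 l2 r2 : Bool) : Bool → Dir → (Dir × Dir) × Bool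
  | false, Dir.S => ((Dir.S, Dir.S), false)
  | true, Dir.S => ((Dir.S, Dir.S), true)
  | false, Dir.R => if r2 then (if r1 then ((Dir.S, Dir.S), false) else ((Dir.R, Dir.S), true))
      else ((Dir.S, Dir.R), false)
  | true, Dir.R => if l2 then (if r1 then ((Dir.S, Dir.S), true) else ((Dir.R, Dir.S), false))
      else ((Dir.S, Dir.L), true)
  | false, Dir.L => if l2 then (if l1 then ((Dir.S, Dir.S), false) else ((Dir.L, Dir.S), true))
      else ((Dir.S, Dir.L), false)
  | true, Dir.L => if r2 then (if l1 then ((Dir.S, Dir.S), true) else ((Dir.L, Dir.S), false))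
      else ((Dir.S, Dir.R), true)

lemma split_mv (T1 T2 : Track ι) (w : ι) {p1 r : ℕ} (hp : p1 ≤ T1.N w) (hr : r ≤ T2.N w)
    (d : Dir) (e : (Dir × Dir) × Bool)
    (he : e = emv (T1.isL (T1.lab w p1)) (T1.isR (T1.lab w p1))
      (T2.isL (T2.lab w (idx (T2.N w) p1 r))) (T2.isR (T2.lab w (idx (T2.N w) p1 r)))
      (odd p1) d) :
    (move (T1.N w) p1 e.1.1, move (T2.N w) (idx (T2.N w) p1 r) e.1.2) =
      dec (T2.N w) (move ((T1.N w + 1) * (T2.N w + 1) - 1) (p1 * (T2.N w + 1) + r) d) ∧
      e.2 = odd (move (T1.N w) p1 e.1.1) := by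
  have hir := idx_le (p1 := p1) hr
  have hN1 := T1.hN w
  have hN2 := T2.hN w
  have hL1 := T1.hL w p1 hp
  have hR1 := T1.hR w p1 hp
  have hL2 := T2.hL w _ hir
  have hR2 := T2.hR w _ hir
  generalize T1.isL (T1.lab w p1) = l1 at *
  generalize T1.isR (T1.lab w p1) = r1 at *
  generalize T2.isL (T2.lab w (idx (T2.N w) p1 r)) = l2 at *
  generalize T2.isR (T2.lab w (idx (T2.N w) p1 r)) = r2 at *
  generalize T1.N w = N1 at *
  generalize T2.N w = N2 at *
  have hle := at_le hp hr
  have hblk : (N1 + 1) * (N2 + 1) = N1 * (N2 + 1) + (N2 + 1) := by ring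
  -- the successor and predecessor cells
  have hsucc : r < N2 →
      move ((N1 + 1) * (N2 + 1) - 1) (p1 * (N2 + 1) + r) Dir.R = p1 * (N2 + 1) + (r + 1) := by
    intro h
    have := at_le hp (show r + 1 ≤ N2 by omega)
    simp only [move]
    omega
  have hsucc' : r = N2 → p1 < N1 →
      move ((N1 + 1) * (N2 + 1) - 1) (p1 * (N2 + 1) + r) Dir.R =
        (p1 + 1) * (N2 + 1) + 0 := by
    intro h h'
    have h1 := at_le (show p1 + 1 ≤ N1 by omega) (Nat.zero_le N2)
    have h2 : (p1 + 1) * (N2 + 1) = p1 * (N2 + 1) + (N2 + 1) := by ring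
    simp only [move]
    omega
  have hsucc'' : r = N2 → p1 = N1 →
      move ((N1 + 1) * (N2 + 1) - 1) (p1 * (N2 + 1) + r) Dir.R = p1 * (N2 + 1) + r := by
    intro h h'
    subst h'
    simp only [move]
    omega
  have hpred : 0 < r →
      move ((N1 + 1) * (N2 + 1) - 1) (p1 * (N2 + 1) + r) Dir.L = p1 * (N2 + 1) + (r - 1) := by
    intro h
    simp only [move]
    omega
  have hpred' : r = 0 → 0 < p1 →
      move ((N1 + 1) * (N2 + 1) - 1) (p1 * (N2 + 1) + r) Dir.L =
        (p1 - 1) * (N2 + 1) + N2 := by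
    intro h h'
    obtain ⟨p, rfl⟩ : ∃ p, p1 = p + 1 := ⟨p1 - 1, by omega⟩
    have h2 : (p + 1) * (N2 + 1) = p * (N2 + 1) + (N2 + 1) := by ring
    simp only [move, Nat.add_sub_cancel]
    omega
  have hpred'' : r = 0 → p1 = 0 →
      move ((N1 + 1) * (N2 + 1) - 1) (p1 * (N2 + 1) + r) Dir.L = p1 * (N2 + 1) + r := by
    rintro rfl rfl
    simp [move]
  have hi1 : ∀ s, idx N2 p1 s = if odd p1 then N2 - s else s := by
    intro s
    cases ho : odd p1 with
    | true => rw [idx_odd ho]; rfl
    | false => rw [idx_even ho]; rfl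
  have hi2 : ∀ s, idx N2 (p1 + 1) s = if odd p1 then s else N2 - s := by
    intro s
    cases ho : odd p1 with
    | true => rw [idx_even (by rw [odd_succ, ho]; rfl)]; rfl
    | false => rw [idx_odd (by rw [odd_succ, ho]; rfl)]; rfl
  have hi3 : 0 < p1 → ∀ s, idx N2 (p1 - 1) s = if odd p1 then s else N2 - s := by
    intro h s
    obtain ⟨p, rfl⟩ : ∃ p, p1 = p + 1 := ⟨p1 - 1, by omega⟩
    simp only [Nat.add_sub_cancel]
    rw [odd_succ]
    cases ho : odd p with
    | true => rw [idx_odd ho]; rfl
    | false => rw [idx_even ho]; rfl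
  have hi4 : 0 < p1 → odd (p1 - 1) = !odd p1 := by
    intro h
    obtain ⟨p, rfl⟩ : ∃ p, p1 = p + 1 := ⟨p1 - 1, by omega⟩
    simp only [Nat.add_sub_cancel]
    rw [odd_succ, Bool.not_not]
  have hi5 : odd (p1 + 1) = !odd p1 := odd_succ p1
  have hgoal : ∀ (x' q1 s : ℕ),
      move ((N1 + 1) * (N2 + 1) - 1) (p1 * (N2 + 1) + r) d = x' →
      x' = q1 * (N2 + 1) + s → s ≤ N2 → move N1 p1 e.1.1 = q1 →
      move N2 (idx N2 p1 r) e.1.2 = idx N2 q1 s → e.2 = odd q1 →
      ((move N1 p1 e.1.1, move N2 (idx N2 p1 r) e.1.2) =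
        dec N2 (move ((N1 + 1) * (N2 + 1) - 1) (p1 * (N2 + 1) + r) d) ∧
        e.2 = odd (move N1 p1 e.1.1)) := by
    intro x' q1 s h1 h2 h3 h4 h5 h6
    rw [h1, h2, dec_at h3, h4, h5, h6]
    exact ⟨rfl, rfl⟩
  have hb : ∀ b : Bool, ¬ b = true → b = false := by intro b; cases b <;> simp
  cases ho : odd p1 with
  | false =>
    simp only [ho, Bool.false_eq_true, if_false, Bool.not_false] at hi1 hi2 hi3 hi4 hi5
    rw [hi1 r] at hL2 hR2
    rw [ho] at he
    cases d with
    | S =>
      have he' : e = ((Dir.S, Dir.S), false) := he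
      subst he'
      exact hgoal _ p1 r rfl rfl hr rfl rfl ho.symm
    | R =>
      rcases Nat.lt_or_ge r N2 with h | h
      · have e1 : r2 = false := hb _ (by rw [hR2]; omega)
        subst e1
        have he' : e = ((Dir.S, Dir.R), false) := he
        subst he'
        refine hgoal _ p1 (r + 1) (hsucc h) rfl h rfl ?_ ho.symm
        rw [hi1, hi1]
        simp only [move]; omega
      · have h' : r = N2 := by omega
        have e1 : r2 = true := hR2.2 h'
        subst e1
        rcases Nat.lt_or_ge p1 N1 with h2 | h2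
        · have e2 : r1 = false := hb _ (by rw [hR1]; omega)
          subst e2
          have he' : e = ((Dir.R, Dir.S), true) := he
          subst he'
          refine hgoal _ (p1 + 1) 0 (hsucc' h' h2) rfl (Nat.zero_le _) ?_ ?_ hi5.symm
          · simp only [move]; omega
          · rw [hi1, hi2]
            simp only [move]; omega
        · have h3 : p1 = N1 := by omega
          have e2 : r1 = true := hR1.2 h3
          subst e2
          have he' : e = ((Dir.S, Dir.S), false) := he
          subst he'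
          exact hgoal _ p1 r (hsucc'' h' h3) rfl hr rfl rfl ho.symm
    | L =>
      rcases Nat.eq_zero_or_pos r with h | h
      · have e1 : l2 = true := hL2.2 h
        subst e1
        rcases Nat.eq_zero_or_pos p1 with h2 | h2
        · have e2 : l1 = true := hL1.2 h2
          subst e2
          have he' : e = ((Dir.S, Dir.S), false) := he
          subst he'
          exact hgoal _ p1 r (hpred'' h h2) rfl hr rfl rfl ho.symm
        · have e2 : l1 = false := hb _ (by rw [hL1]; omega)
          subst e2
          have he' : e = ((Dir.L, Dir.S), true) := he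
          subst he'
          refine hgoal _ (p1 - 1) N2 (hpred' h h2) rfl le_rfl rfl ?_ (hi4 h2).symm
          rw [hi1, hi3 h2]
          simp only [move]; omega
      · have e1 : l2 = false := hb _ (by rw [hL2]; omega)
        subst e1
        have he' : e = ((Dir.S, Dir.L), false) := he
        subst he'
        refine hgoal _ p1 (r - 1) (hpred h) rfl (by omega) rfl ?_ ho.symm
        rw [hi1, hi1]
        simp only [move]
  | true =>
    simp only [ho, if_true, Bool.not_true] at hi1 hi2 hi3 hi4 hi5
    rw [hi1 r] at hL2 hR2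
    rw [ho] at he
    cases d with
    | S =>
      have he' : e = ((Dir.S, Dir.S), true) := he
      subst he'
      exact hgoal _ p1 r rfl rfl hr rfl rfl ho.symm
    | R =>
      rcases Nat.lt_or_ge r N2 with h | h
      · have e1 : l2 = false := hb _ (by rw [hL2]; omega)
        subst e1
        have he' : e = ((Dir.S, Dir.L), true) := he
        subst he'
        refine hgoal _ p1 (r + 1) (hsucc h) rfl h rfl ?_ ho.symm
        rw [hi1, hi1]
        simp only [move]; omega
      · have h' : r = N2 := by omega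
        have e1 : l2 = true := hL2.2 (by omega)
        subst e1
        rcases Nat.lt_or_ge p1 N1 with h2 | h2
        · have e2 : r1 = false := hb _ (by rw [hR1]; omega)
          subst e2
          have he' : e = ((Dir.R, Dir.S), false) := he
          subst he'
          refine hgoal _ (p1 + 1) 0 (hsucc' h' h2) rfl (Nat.zero_le _) ?_ ?_ hi5.symm
          · simp only [move]; omega
          · rw [hi1, hi2]
            simp only [move]; omega
        · have h3 : p1 = N1 := by omega
          have e2 : r1 = true := hR1.2 h3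
          subst e2
          have he' : e = ((Dir.S, Dir.S), true) := he
          subst he'
          exact hgoal _ p1 r (hsucc'' h' h3) rfl hr rfl rfl ho.symm
    | L =>
      rcases Nat.eq_zero_or_pos r with h | h
      · have e1 : r2 = true := hR2.2 (by omega)
        subst e1
        rcases Nat.eq_zero_or_pos p1 with h2 | h2
        · have e2 : l1 = true := hL1.2 h2
          subst e2
          have he' : e = ((Dir.S, Dir.S), true) := he
          subst he'
          exact hgoal _ p1 r (hpred'' h h2) rfl hr rfl rfl ho.symm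
        · have e2 : l1 = false := hb _ (by rw [hL1]; omega)
          subst e2
          have he' : e = ((Dir.L, Dir.S), false) := he
          subst he'
          refine hgoal _ (p1 - 1) N2 (hpred' h h2) rfl le_rfl rfl ?_ (hi4 h2).symm
          rw [hi1, hi3 h2]
          simp only [move]; omega
      · have e1 : r2 = false := hb _ (by rw [hR2]; omega)
        subst e1
        have he' : e = ((Dir.S, Dir.R), true) := he
        subst he'
        refine hgoal _ p1 (r - 1) (hpred h) rfl (by omega) rfl ?_ ho.symm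
        rw [hi1, hi1]
        simp only [move]; omega

/-- The lock-step emulation of a head on the product track by two heads. -/
def Emul.split (T1 T2 : Track ι) : Emul (prodT T1 T2).dev (T1.dev.prod T2.dev) where
  μ := Bool
  fin := inferInstance
  m0 := false
  dl := fun m c => (c.1, c.2, m)
  em := fun m c d => emv (T1.isL c.1) (T1.isR c.1) (T2.isL c.2) (T2.isR c.2) m d
  ρ := fun w x y m => x ≤ (prodT T1 T2).N w ∧ y = dec (T2.N w) x ∧ m = odd y.1
  ρ0 := by
    intro w
    refine ⟨Nat.zero_le _, ?_, rfl⟩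
    have := dec_at (N2 := T2.N w) (p1 := 0) (Nat.zero_le _)
    simp only [Nat.zero_mul, Nat.zero_add] at this
    show ((0 : ℕ), (0 : ℕ)) = dec (T2.N w) 0
    rw [this]
    rfl
  ρlab := by
    rintro w x y m ⟨-, rfl, rfl⟩
    rfl
  ρmv := by
    rintro w x y m ⟨hx, rfl, rfl⟩ d
    obtain ⟨p1, r, rfl, hr, hp⟩ := exists_at hx
    rw [dec_at hr]
    exact ⟨move_le _ _ _ (at_le hp hr), split_mv T1 T2 w hp hr d _ rfl⟩

end Pool.Agent.Heads
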