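import Pool.Agent.Lib_helper16.Heads.Defs

/-!
Functions of words computed by deterministic finite automata, and iterated products along the
boustrophedon path of the grid.
-/

set_option autoImplicit false

namespace Pool.Agent.Heads

/-- Iteration of a sequence of maps. -/
def iter {S : Type} (f : ℕ → S → S) : ℕ → S → S
  | 0, s => s
  | m + 1, s => f m (iter f m s)

lemma iter_add {S : Type} (f : ℕ → S → S) (a b : ℕ) (s : S) :
    iter f (a + b) s = iter (fun j => f (a + j)) b (iter f a s) := by
  induction b with
  | zero => rfl
  | succ b ih =>
    show f (a + b) (iter f (a + b) s) = f (a + b) _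
    rw [ih]

lemma iter_congr {S : Type} {f g : ℕ → S → S} {m : ℕ} (h : ∀ j < m, f j = g j) (s : S) :
    iter f m s = iter g m s := by
  induction m with
  | zero => rfl
  | succ m ih =>
    show f m (iter f m s) = g m (iter g m s)
    rw [ih (fun j hj => h j (by omega)), h m (by omega)]

lemma iter_mul {S : Type} (f : ℕ → S → S) (b m : ℕ) (s : S) :
    iter f (m * b) s = iter (fun z => iter (fun r => f (z * b + r)) b) m s := by
  induction m with
  | zero => rw [Nat.zero_mul]; rfl
  | succ m ih =>
    rw [Nat.succ_mul, iter_add, ih]
    rfl

/-- `f` is computed by a deterministic finite automaton. -/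
def Recog {α X : Type} (f : List α → X) : Prop :=
  ∃ (S : Type) (_ : Finite S) (s0 : S) (step : S → α → S) (out : S → X),
    ∀ w, f w = out (w.foldl step s0)

variable {α : Type}

lemma Recog.comp {X Y : Type} {f : List α → X} (h : Recog f) (g : X → Y) :
    Recog (fun w => g (f w)) := by
  obtain ⟨S, hS, s0, step, out, h⟩ := h
  exact ⟨S, hS, s0, step, fun s => g (out s), fun w => by beta_reduce; rw [h w]⟩

lemma Recog.const {X : Type} (x : X) : Recog (fun _ : List α => x) :=
  ⟨Unit, inferInstance, (), fun _ _ => (), fun _ => x, fun _ => rfl⟩

lemma Recog.congr {X : Type} {f g : List α → X} (h : Recog f) (he : ∀ w, f w = g w) :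
    Recog g := by
  have : f = g := funext he
  rwa [← this]

lemma foldl_pi {G : Type} {S : G → Type} (step : ∀ g, S g → α → S g) (s : ∀ g, S g)
    (w : List α) (g : G) :
    w.foldl (fun s a g => step g (s g) a) s g = w.foldl (step g) (s g) := by
  induction w generalizing s with
  | nil => rfl
  | cons a w ih =>
    simp only [List.foldl_cons]
    rw [ih]

lemma foldl_prod {S T : Type} (f : S → α → S) (g : T → α → T) (s : S) (t : T) (w : List α) :
    w.foldl (fun p a => (f p.1 a, g p.2 a)) (s, t) = (w.foldl f s, w.foldl g t) := by
  induction w generalizing s t with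
  | nil => rfl
  | cons a w ih =>
    simp only [List.foldl_cons]
    rw [ih]

lemma Recog.pair {X Y : Type} {f : List α → X} {g : List α → Y} (hf : Recog f)
    (hg : Recog g) : Recog (fun w => (f w, g w)) := by
  obtain ⟨S, hS, s0, step, out, h⟩ := hf
  obtain ⟨S', hS', s0', step', out', h'⟩ := hg
  refine ⟨S × S', inferInstance, (s0, s0'), fun p a => (step p.1 a, step' p.2 a),
    fun p => (out p.1, out' p.2), fun w => ?_⟩
  beta_reduce
  rw [foldl_prod, h w, h' w]

lemma Recog.pi {G : Type} [Finite G] {X : G → Type} {f : ∀ g, List α → X g}
    (hf : ∀ g, Recog (f g)) : Recog (fun w g => f g w) := by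
  choose S hS s0 step out h using hf
  refine ⟨∀ g, S g, inferInstance, s0, fun s a g => step g (s g) a, fun s g => out g (s g),
    fun w => ?_⟩
  funext g
  show f g w = out g (w.foldl (fun s a g => step g (s g) a) s0 g)
  rw [foldl_pi, h g w]

lemma Recog.dep {G X : Type} [Finite G] {f : List α → G} (hf : Recog f)
    {H : G → List α → X} (hH : ∀ g, Recog (H g)) : Recog (fun w => H (f w) w) :=
  ((hf.pair (Recog.pi hH)).comp (fun p : G × (∀ _ : G, X) => p.2 p.1))

lemma tape_succ_lt (w : List α) {p : ℕ} (h : p < w.length) :
    tape w (p + 1) = Sym.letter w[p] := by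
  simp [tape, h]

lemma tape_end (w : List α) : tape w (w.length + 1) = Sym.right := by
  simp [tape]

lemma recog_fwd {S : Type} [Finite S] (F : Sym α → S → S) :
    Recog (fun w : List α => iter (fun r => F (tape w r)) (w.length + 2)) := by
  refine ⟨S → S, inferInstance, F Sym.left, fun G a s => F (Sym.letter a) (G s),
    fun G s => F Sym.right (G s), fun w => ?_⟩
  have key : ∀ m, m ≤ w.length → iter (fun r => F (tape w r)) (m + 1) =
      (w.take m).foldl (fun (G : S → S) a s => F (Sym.letter a) (G s)) (F Sym.left) := by
    intro m
    induction m with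
    | zero => intro _; rfl
    | succ m ih =>
      intro hm
      have h1 := ih (by omega)
      have hm' : m < w.length := by omega
      rw [List.take_succ_eq_append_getElem hm', List.foldl_append, ← h1]
      funext s
      show F (tape w (m + 1)) (iter (fun r => F (tape w r)) (m + 1) s) = _
      rw [tape_succ_lt w hm']
      rfl
  have h2 := key w.length le_rfl
  rw [List.take_length] at h2
  funext s
  show F (tape w (w.length + 1)) (iter (fun r => F (tape w r)) (w.length + 1) s) = _
  rw [h2, tape_end]

lemma recog_bwd {S : Type} [Finite S] (F : Sym α → S → S) :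
    Recog (fun w : List α => iter (fun r => F (tape w (w.length + 1 - r))) (w.length + 2)) := by
  refine ⟨S → S, inferInstance, F Sym.left, fun G a s => G (F (Sym.letter a) s),
    fun G s => G (F Sym.right s), fun w => ?_⟩
  have hsplit : ∀ m s, iter (fun r => F (tape w (m + 1 - r))) (m + 2) s =
      iter (fun r => F (tape w (m - r))) (m + 1) (F (tape w (m + 1)) s) := by
    intro m s
    have h1 : m + 2 = 1 + (m + 1) := by omega
    rw [h1, iter_add]
    have h2 : (fun j => F (tape w (m + 1 - (1 + j)))) = fun r => F (tape w (m - r)) := by
      funext j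
      have : m + 1 - (1 + j) = m - j := by omega
      rw [this]
    rw [h2]
    rfl
  have key : ∀ m, m ≤ w.length → iter (fun r => F (tape w (m - r))) (m + 1) =
      (w.take m).foldl (fun (G : S → S) a s => G (F (Sym.letter a) s)) (F Sym.left) := by
    intro m
    induction m with
    | zero => intro _; rfl
    | succ m ih =>
      intro hm
      have h1 := ih (by omega)
      have hm' : m < w.length := by omega
      rw [List.take_succ_eq_append_getElem hm', List.foldl_append, ← h1]
      funext s
      rw [hsplit, tape_succ_lt w hm']
      rfl
  have h2 := key w.length le_rfl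
  rw [List.take_length] at h2
  funext s
  beta_reduce
  rw [hsplit, h2, tape_end]

lemma recog_parity (h : ℕ → Bool) : Recog (fun w : List α => h (w.length % 2)) := by
  refine ⟨Bool, inferInstance, false, fun b _ => !b, fun b => h b.toNat, fun w => ?_⟩
  have key : ∀ (w : List α) (b : Bool),
      (w.foldl (fun b _ => !b) b).toNat = (w.length + b.toNat) % 2 := by
    intro w
    induction w with
    | nil => intro b; cases b <;> rfl
    | cons a w ih =>
      intro b
      simp only [List.foldl_cons, List.length_cons]
      rw [ih]
      cases b <;> simp <;> omega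
  beta_reduce
  rw [key w false]
  simp

end Pool.Agent.Heads
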