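import Pool.Agent.Lib_helper16.Heads.Run

/-!
The boustrophedon path of the grid `{0, …, n + 1}^k`, automata whose heads follow it, and the
normal form theorem for pushdown automata.
-/

set_option autoImplicit false

namespace Pool.Agent.Heads

/-- The `x`-th element of the boustrophedon enumeration of the grid `{0, …, n + 1}^k`,
`0 ≤ x < (n + 2)^k`: the last coordinate runs through `0, …, n + 1`, alternately upwards and
downwards, and between two such runs the tuple of the other coordinates makes one step in the
enumeration of `{0, …, n + 1}^(k - 1)`. -/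
def snake : (k : ℕ) → ℕ → ℕ → Fin k → ℕ
  | 0, _, _ => Fin.elim0
  | k + 1, n, x => Fin.snoc (α := fun _ => ℕ) (snake k n (x / (n + 2)))
      (if x / (n + 2) % 2 = 0 then x % (n + 2) else n + 1 - x % (n + 2))

/-- At every time `t` of every computation on every input `w` the positions of the `k` heads are
those of the boustrophedon path of the grid `{0, …, |w| + 1}^k`, run through back and forth, one
step at a time. -/
def PDA.GridSweeping {α : Type} {k : ℕ} (M : PDA α k) : Prop :=
  ∀ w t c, M.Reach w t c → c.pos = snake k w.length (tri ((w.length + 2) ^ k - 1) t)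

/-- `M` never pops after a push in the same run through the grid: along every computation
`r 0, r 1, …, r T`, if the stack grows at time `t`, then it does not shrink at any later time
`t'` of the same run (forth or back) through the grid. -/
def PDA.GridPopThenPush {α : Type} {k : ℕ} (M : PDA α k) : Prop :=
  ∀ (w : List α) (T : ℕ) (r : ℕ → Cfg M.Q (Fin k → ℕ) M.Γ), r 0 = M.init →
    (∀ t < T, M.Step w (r t) (r (t + 1))) →
    ∀ t t' : ℕ, t < t' → t' < T → SameSweep ((w.length + 2) ^ k - 1) t t' →
      (r t).stack.length < (r (t + 1)).stack.length →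
      (r t').stack.length ≤ (r (t' + 1)).stack.length

/-- The same condition for finite automata: in every configuration which is reached after `t`
steps on input `w` the positions of the `k` heads are those of the boustrophedon path. -/
def FA.GridSweeping {α : Type} {k : ℕ} (A : FA α k) : Prop :=
  ∀ w t c, ReachN (A.Step w) (A.start, fun _ => 0) t c →
    c.2 = snake k w.length (tri ((w.length + 2) ^ k - 1) t)

lemma glen_eq (k n : ℕ) : glen k n = (n + 2) ^ (k + 1) - 1 := by
  induction k with
  | zero => show n + 1 = _; simp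
  | succ k ih =>
    show (glen k n + 1) * (n + 2) - 1 = _
    have h : 0 < (n + 2) ^ (k + 1) := by positivity
    have h2 : glen k n + 1 = (n + 2) ^ (k + 1) := by omega
    rw [h2, ← pow_succ]

lemma snake_eq (k n : ℕ) : ∀ x, x ≤ glen k n → snake (k + 1) n x = grid k n x := by
  induction k with
  | zero =>
    intro x hx
    have hx' : x ≤ n + 1 := hx
    funext i
    have : i = Fin.last 0 := by omega
    subst this
    show Fin.snoc (α := fun _ => ℕ) _ _ (Fin.last 0) = x
    rw [Fin.snoc_last]
    have h1 : x / (n + 2) = 0 := Nat.div_eq_of_lt (by omega)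
    have h2 : x % (n + 2) = x := Nat.mod_eq_of_lt (by omega)
    rw [h1, h2]
    rfl
  | succ k ih =>
    intro x hx
    have hx' : x ≤ (glen k n + 1) * (n + 1 + 1) - 1 := hx
    obtain ⟨p1, r, rfl, hr, hp⟩ := exists_at hx'
    have hdec := dec_at (p1 := p1) hr
    have h1 : (p1 * (n + 1 + 1) + r) / (n + 2) = p1 := by
      have := congrArg Prod.fst hdec
      exact this
    have h2 : (p1 * (n + 1 + 1) + r) % (n + 2) = r := by
      rw [Nat.add_comm, Nat.add_mul_mod_self_right, Nat.mod_eq_of_lt (by omega)]
    show Fin.snoc (α := fun _ => ℕ) (snake (k + 1) n ((p1 * (n + 1 + 1) + r) / (n + 2)))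
      (if (p1 * (n + 1 + 1) + r) / (n + 2) % 2 = 0 then (p1 * (n + 1 + 1) + r) % (n + 2)
        else n + 1 - (p1 * (n + 1 + 1) + r) % (n + 2)) =
      Fin.snoc (α := fun _ => ℕ) (grid k n (dec (n + 1) (p1 * (n + 1 + 1) + r)).1)
        (dec (n + 1) (p1 * (n + 1 + 1) + r)).2
    rw [h1, h2, hdec, ih p1 hp]
    congr 1
    unfold idx
    rcases Nat.mod_two_eq_zero_or_one p1 with h | h <;> simp [h]

lemma tri_le (N t : ℕ) (hN : 1 ≤ N) : tri N t ≤ N := by
  unfold tri
  have := Nat.mod_lt t (show 0 < 2 * N by omega)
  split_ifs <;> omega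

lemma one_le_len (k n : ℕ) : 1 ≤ (n + 2) ^ (k + 1) - 1 := by
  have : 2 ^ 1 ≤ (n + 2) ^ (k + 1) :=
    le_trans (Nat.pow_le_pow_right (by omega) (by omega)) (Nat.pow_le_pow_left (by omega) _)
  omega

lemma traj_eq (k n t : ℕ) : traj k n t = snake (k + 1) n (tri ((n + 2) ^ (k + 1) - 1) t) := by
  have h : 1 ≤ glen k n := by
    rw [glen_eq]
    exact one_le_len k n
  rw [← glen_eq, snake_eq k n _ (tri_le _ _ h)]
  rfl

/-- The normal form theorem. -/
theorem snakeNormal {α : Type} (k : ℕ) (hk : 1 ≤ k) (M : PDA α k) : ∃ M' : PDA α k,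
    M'.lang = M.lang ∧ (M.Det → M'.Det) ∧ M'.GridSweeping ∧ M'.GridPopThenPush := by
  obtain ⟨k, rfl⟩ : ∃ j, k = j + 1 := ⟨k - 1, by omega⟩
  obtain ⟨M', h1, h2, h3, h4⟩ := gridNormal k M
  refine ⟨M', h1, h2, ?_, ?_⟩
  · intro w t c hc
    rw [h3 w t c hc, traj_eq]
  · intro w T r h0 hs t t' htt ht' hsame
    rw [← glen_eq] at hsame
    exact h4 w T r h0 hs t t' htt ht' hsame

end Pool.Agent.Heads
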