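import Pool.Agent.Lib_helper16.Heads.Recog
import Pool.Agent.Lib_helper16.Heads.Snake

/-!
Finite automata whose heads follow the boustrophedon path of the grid accept regular languages.
-/

set_option autoImplicit false

namespace Pool.Agent.Heads

variable {α : Type}

/-- The tuple of symbols scanned at the `x`-th position of the boustrophedon path. -/
def lab (k : ℕ) (w : List α) (x : ℕ) : Fin k → Sym α := fun i => tape w (snake k w.length x i)

/-- Order or reversed order. -/
def ord (dir : Bool) (L j : ℕ) : ℕ := if dir then L - j else j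

lemma ord_le {dir : Bool} {L j : ℕ} (h : j ≤ L) : ord dir L j ≤ L := by
  unfold ord; split_ifs <;> omega

lemma lab_at (k : ℕ) (w : List α) (z r : ℕ) (hr : r ≤ w.length + 1) :
    lab (k + 1) w (z * (w.length + 2) + r) =
      Fin.snoc (α := fun _ => Sym α) (lab k w z) (tape w (ord (odd z) (w.length + 1) r)) := by
  have h1 : (z * (w.length + 2) + r) / (w.length + 2) = z := by
    rw [Nat.add_comm, Nat.add_mul_div_right _ _ (by omega), Nat.div_eq_of_lt (by omega)]
    omega
  have h2 : (z * (w.length + 2) + r) % (w.length + 2) = r := by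
    rw [Nat.add_comm, Nat.add_mul_mod_self_right, Nat.mod_eq_of_lt (by omega)]
  funext i
  refine Fin.lastCases ?_ (fun j => ?_) i
  · rw [Fin.snoc_last]
    show tape w (Fin.snoc (α := fun _ => ℕ) _ _ (Fin.last k)) = _
    rw [Fin.snoc_last, h1, h2]
    congr 1
    unfold ord odd
    rcases Nat.mod_two_eq_zero_or_one z with h | h <;> simp [h]
  · rw [Fin.snoc_castSucc]
    show tape w (Fin.snoc (α := fun _ => ℕ) _ _ j.castSucc) = _
    rw [Fin.snoc_castSucc, h1]
    rfl

/-- The map computed on a block. -/
def block {S : Type} (k : ℕ) (τ : S → (Fin (k + 1) → Sym α) → S) (w : List α)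
    (l : Fin k → Sym α) (e : Bool) (s : S) : S :=
  iter (fun r s => τ s (Fin.snoc (α := fun _ => Sym α) l
    (tape w (ord e (w.length + 1) r)))) (w.length + 2) s

lemma recog_block {S : Type} [Finite S] (k : ℕ) (τ : S → (Fin (k + 1) → Sym α) → S)
    (l : Fin k → Sym α) (e : Bool) : Recog (fun w : List α => block k τ w l e) := by
  cases e with
  | false =>
    exact recog_fwd (fun a s => τ s (Fin.snoc (α := fun _ => Sym α) l a))
  | true =>
    exact recog_bwd (fun a s => τ s (Fin.snoc (α := fun _ => Sym α) l a))

lemma finite_Sym (α : Type) [Finite α] : Finite (Sym α) := by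
  refine Finite.of_injective (fun s : Sym α => match s with
    | Sym.left => (Sum.inl true : Bool ⊕ α)
    | Sym.right => Sum.inl false
    | Sym.letter a => Sum.inr a) ?_
  intro a b h
  cases a <;> cases b <;> simp_all

lemma odd_eq_not {a b : ℕ} (h : a = b + 1 ∨ b = a + 1) : odd a = !odd b := by
  rcases h with rfl | rfl
  · exact odd_succ b
  · rw [odd_succ, Bool.not_not]

/-- The iterated product along the boustrophedon path, in either direction, is computed by a
deterministic finite automaton. -/
theorem recog_snake [Finite α] (k : ℕ) : ∀ {S : Type} [Finite S]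
    (τ : S → (Fin k → Sym α) → S) (dir : Bool),
    Recog (fun w : List α => iter (fun j s => τ s (lab k w (ord dir ((w.length + 2) ^ k - 1) j)))
      ((w.length + 2) ^ k)) := by
  induction k with
  | zero =>
    intro S _ τ dir
    refine (Recog.const (fun s => τ s Fin.elim0)).congr ?_
    intro w
    funext s
    show τ s Fin.elim0 = τ s _
    congr 1
    funext i
    exact i.elim0
  | succ k ih =>
    intro S _ τ dir
    have hs := finite_Sym α
    -- the data
    let τ' : ((Fin k → Sym α) → Bool → S → S) → (S × Bool) → (Fin k → Sym α) → S × Bool :=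
      fun g p l => (g l p.2 p.1, !p.2)
    have h1 : Recog (fun w : List α => (fun l e s => block k τ w l e s :
        (Fin k → Sym α) → Bool → S → S)) :=
      Recog.pi fun l => Recog.pi fun e => recog_block k τ l e
    have h2 : ∀ g, Recog (fun w : List α =>
        iter (fun j p => τ' g p (lab k w (ord dir ((w.length + 2) ^ k - 1) j)))
          ((w.length + 2) ^ k)) := fun g => ih (τ' g) dir
    have h3 := Recog.dep h1 h2
    have h4 : Recog (fun w : List α => xor dir (odd (ord dir ((w.length + 2) ^ k - 1) 0))) := by
      refine (recog_parity (fun m => xor dir (odd (ord dir ((m + 2) ^ k - 1) 0)))).congr ?_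
      intro w
      cases dir with
      | false => rfl
      | true =>
        show xor true (odd ((w.length % 2 + 2) ^ k - 1 - 0)) =
          xor true (odd ((w.length + 2) ^ k - 1 - 0))
        congr 1
        have e1 : ((w.length % 2 + 2) ^ k) % 2 = ((w.length + 2) ^ k) % 2 := by
          rw [Nat.pow_mod, Nat.pow_mod (w.length + 2)]
          congr 2
          omega
        have e2 : 0 < (w.length % 2 + 2) ^ k := by positivity
        have e3 : 0 < (w.length + 2) ^ k := by positivity
        unfold odd
        have e4 : ((w.length % 2 + 2) ^ k - 1 - 0) % 2 = ((w.length + 2) ^ k - 1 - 0) % 2 := by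
          omega
        rw [e4]
    have h5 := (h3.pair h4).comp
      (fun p : ((S × Bool) → (S × Bool)) × Bool => fun s => (p.1 (s, p.2)).1)
    refine h5.congr ?_
    intro w
    funext s
    -- the general term
    have hpos : 0 < (w.length + 2) ^ k := by positivity
    rw [pow_succ, iter_mul]
    have key : ∀ m, m ≤ (w.length + 2) ^ k →
        iter (fun j p => τ' (fun l e s => block k τ w l e s) p
          (lab k w (ord dir ((w.length + 2) ^ k - 1) j))) m
          (s, xor dir (odd (ord dir ((w.length + 2) ^ k - 1) 0))) =
        (iter (fun z => iter (fun r s => τ s (lab (k + 1) w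
            (ord dir ((w.length + 2) ^ k * (w.length + 2) - 1) (z * (w.length + 2) + r))))
            (w.length + 2)) m s,
          xor dir (odd (ord dir ((w.length + 2) ^ k - 1) m))) ∨
        (m = (w.length + 2) ^ k ∧
          (iter (fun j p => τ' (fun l e s => block k τ w l e s) p
            (lab k w (ord dir ((w.length + 2) ^ k - 1) j))) m
            (s, xor dir (odd (ord dir ((w.length + 2) ^ k - 1) 0)))).1 =
          iter (fun z => iter (fun r s => τ s (lab (k + 1) w
            (ord dir ((w.length + 2) ^ k * (w.length + 2) - 1) (z * (w.length + 2) + r))))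
            (w.length + 2)) m s) := by
      intro m
      induction m with
      | zero => intro _; exact Or.inl rfl
      | succ m ihm =>
        intro hm
        rcases ihm (by omega) with h | ⟨h, -⟩
        · have hstep : ∀ s', block k τ w (lab k w (ord dir ((w.length + 2) ^ k - 1) m))
              (xor dir (odd (ord dir ((w.length + 2) ^ k - 1) m))) s' =
              iter (fun r s => τ s (lab (k + 1) w
                (ord dir ((w.length + 2) ^ k * (w.length + 2) - 1)
                  (m * (w.length + 2) + r)))) (w.length + 2) s' := by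
            intro s'
            refine iter_congr ?_ s'
            intro r hr
            funext s''
            congr 1
            have hz : ord dir ((w.length + 2) ^ k * (w.length + 2) - 1)
                (m * (w.length + 2) + r) =
                ord dir ((w.length + 2) ^ k - 1) m * (w.length + 2) +
                  ord dir (w.length + 1) r := by
              cases dir with
              | false => rfl
              | true =>
                show (w.length + 2) ^ k * (w.length + 2) - 1 - (m * (w.length + 2) + r) =
                  ((w.length + 2) ^ k - 1 - m) * (w.length + 2) + (w.length + 1 - r)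
                obtain ⟨d, hd⟩ : ∃ d, (w.length + 2) ^ k = m + 1 + d :=
                  ⟨(w.length + 2) ^ k - (m + 1), by omega⟩
                rw [hd]
                have e1 : m + 1 + d - 1 - m = d := by omega
                rw [e1]
                have e2 : (m + 1 + d) * (w.length + 2) =
                  m * (w.length + 2) + (w.length + 2) + d * (w.length + 2) := by ring
                omega
            rw [hz, lab_at k w _ _ (ord_le (by omega))]
            congr 2
            generalize odd (ord dir ((w.length + 2) ^ k - 1) m) = o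
            unfold ord
            cases dir <;> cases o <;> simp <;> omega
          rcases Nat.lt_or_ge (m + 1) ((w.length + 2) ^ k) with hlt | hge
          · left
            show τ' _ (iter _ m _) _ = _
            rw [h]
            show (block k τ w _ _ _, !(xor dir (odd (ord dir ((w.length + 2) ^ k - 1) m)))) = _
            rw [hstep]
            refine Prod.ext rfl ?_
            show (!(xor dir (odd (ord dir ((w.length + 2) ^ k - 1) m)))) =
              xor dir (odd (ord dir ((w.length + 2) ^ k - 1) (m + 1)))
            have : odd (ord dir ((w.length + 2) ^ k - 1) (m + 1)) =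
                !odd (ord dir ((w.length + 2) ^ k - 1) m) := by
              refine odd_eq_not ?_
              cases dir with
              | false => left; rfl
              | true =>
                right
                show (w.length + 2) ^ k - 1 - m = (w.length + 2) ^ k - 1 - (m + 1) + 1
                omega
            rw [this]
            cases dir <;> cases odd (ord _ ((w.length + 2) ^ k - 1) m) <;> rfl
          · right
            refine ⟨by omega, ?_⟩
            show (τ' _ (iter _ m _) _).1 = _
            rw [h]
            show block k τ w _ _ _ = _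
            rw [hstep]
            rfl
        · omega
    rcases key _ le_rfl with h | ⟨-, h⟩
    · exact congrArg Prod.fst h
    · exact h

/-! ### Finite automata -/

section FAs

variable {k : ℕ} (A : FA α k)

/-- Subset construction, with a flag for acceptance. -/
def tz (z : Set A.Q × Prop) (l : Fin k → Sym α) : Set A.Q × Prop :=
  ({q' | ∃ q ∈ z.1, ∃ d, (q', d) ∈ A.δ q l},
    z.2 ∨ ∃ q', (∃ q ∈ z.1, ∃ d, (q', d) ∈ A.δ q l) ∧ q' ∈ A.accept)

/-- Initial value. -/
def z0 : Set A.Q × Prop := ({A.start}, A.start ∈ A.accept)

/-- The value at time `t`. -/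
def zt (w : List α) (t : ℕ) : Set A.Q × Prop :=
  iter (fun j z => tz A z (lab k w (tri ((w.length + 2) ^ k - 1) j))) t (z0 A)

lemma zt_fst (hA : A.GridSweeping) (w : List α) (t : ℕ) (q : A.Q) :
    q ∈ (zt A w t).1 ↔ ∃ c, ReachN (A.Step w) (A.start, fun _ => 0) t c ∧ c.1 = q := by
  induction t generalizing q with
  | zero =>
    constructor
    · intro h
      have h' : q = A.start := h
      exact ⟨_, ReachN.zero, h'.symm⟩
    · rintro ⟨c, h, rfl⟩
      cases h
      rfl
  | succ t ih =>
    constructor
    · rintro ⟨q0, h0, d, hd⟩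
      obtain ⟨c, hc, rfl⟩ := (ih q0).1 h0
      refine ⟨(q, fun i => move (w.length + 1) (c.2 i) (d i)), ReachN.succ hc ?_, rfl⟩
      refine ⟨(q, d), ?_, rfl⟩
      have h1 := hA w t c hc
      show (q, d) ∈ A.δ c.1 (fun i => tape w (c.2 i))
      rw [h1]
      exact hd
    · rintro ⟨c', h, rfl⟩
      cases h with
      | succ h1 h2 =>
        rename_i c
        obtain ⟨tr, htr, rfl⟩ := h2
        refine ⟨c.1, (ih c.1).2 ⟨c, h1, rfl⟩, tr.2, ?_⟩
        have h3 := hA w t c h1
        have htr' : tr ∈ A.δ c.1 (fun i => tape w (c.2 i)) := htr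
        rw [h3] at htr'
        exact htr'

lemma zt_snd (hA : A.GridSweeping) (w : List α) (t : ℕ) :
    (zt A w t).2 ↔ ∃ u ≤ t, ∃ c, ReachN (A.Step w) (A.start, fun _ => 0) u c ∧
      c.1 ∈ A.accept := by
  induction t with
  | zero =>
    constructor
    · intro h
      exact ⟨0, le_rfl, _, ReachN.zero, h⟩
    · rintro ⟨u, hu, c, h, hc⟩
      have : u = 0 := by omega
      subst this
      cases h
      exact hc
  | succ t ih =>
    have key : (∃ q', (∃ q ∈ (zt A w t).1, ∃ d, (q', d) ∈ A.δ q
        (lab k w (tri ((w.length + 2) ^ k - 1) t))) ∧ q' ∈ A.accept) ↔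
        ∃ c, ReachN (A.Step w) (A.start, fun _ => 0) (t + 1) c ∧ c.1 ∈ A.accept := by
      constructor
      · rintro ⟨q', h1, h2⟩
        obtain ⟨c, hc, rfl⟩ := (zt_fst A hA w (t + 1) q').1 h1
        exact ⟨c, hc, h2⟩
      · rintro ⟨c, hc, h2⟩
        exact ⟨c.1, (zt_fst A hA w (t + 1) c.1).2 ⟨c, hc, rfl⟩, h2⟩
    refine (or_congr ih key).trans ?_
    constructor
    · rintro (⟨u, hu, h⟩ | h)
      · exact ⟨u, by omega, h⟩
      · exact ⟨t + 1, le_rfl, h⟩
    · rintro ⟨u, hu, h⟩
      rcases Nat.lt_or_ge t u with h1 | h1
      · have : u = t + 1 := by omega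
        subst this
        exact Or.inr h
      · exact Or.inl ⟨u, h1, h⟩

lemma reachN_iff {B : Type} {R : B → B → Prop} {b c : B} :
    Relation.ReflTransGen R b c ↔ ∃ t, ReachN R b t c := by
  constructor
  · intro h
    induction h with
    | refl => exact ⟨0, ReachN.zero⟩
    | tail h1 h2 ih =>
      obtain ⟨t, ht⟩ := ih
      exact ⟨t + 1, ReachN.succ ht h2⟩
  · rintro ⟨t, ht⟩
    induction ht with
    | zero => exact Relation.ReflTransGen.refl
    | succ h1 h2 ih => exact Relation.ReflTransGen.tail ih h2

lemma mem_lang_iff (hA : A.GridSweeping) (w : List α) : w ∈ A.lang ↔ ∃ t, (zt A w t).2 := by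
  constructor
  · rintro ⟨c, h1, h2⟩
    obtain ⟨t, ht⟩ := reachN_iff.1 h1
    exact ⟨t, (zt_snd A hA w t).2 ⟨t, le_rfl, c, ht, h2⟩⟩
  · rintro ⟨t, ht⟩
    obtain ⟨u, -, c, h1, h2⟩ := (zt_snd A hA w t).1 ht
    exact ⟨c, reachN_iff.2 ⟨u, h1⟩, h2⟩

/-- Delayed application. -/
def delay (p : Option (Fin k → Sym α) × (Set A.Q × Prop)) (l : Fin k → Sym α) :
    Option (Fin k → Sym α) × (Set A.Q × Prop) :=
  (some l, match p.1 with
    | none => p.2
    | some l' => tz A p.2 l')

lemma delay_iter (g : ℕ → Fin k → Sym α) (z : Set A.Q × Prop) (m : ℕ) :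
    iter (fun j p => delay A p (g j)) (m + 1) (none, z) =
      (some (g m), iter (fun j z => tz A z (g j)) m z) := by
  induction m with
  | zero => rfl
  | succ m ih =>
    show delay A (iter (fun j p => delay A p (g j)) (m + 1) (none, z)) (g (m + 1)) = _
    rw [ih]
    rfl

/-- One double sweep. -/
def dbl (w : List α) (z : Set A.Q × Prop) : Set A.Q × Prop :=
  iter (fun j z => tz A z (lab k w ((w.length + 2) ^ k - 1 - j))) ((w.length + 2) ^ k - 1)
    (iter (fun j z => tz A z (lab k w j)) ((w.length + 2) ^ k - 1) z)

lemma tri_lt {N t : ℕ} (h : t < N) : tri N t = t := by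
  unfold tri
  rw [Nat.mod_eq_of_lt (by omega), if_pos (by omega)]

lemma tri_ge {N t : ℕ} (h : N ≤ t) (h' : t < 2 * N) : tri N t = 2 * N - t := by
  unfold tri
  rw [Nat.mod_eq_of_lt h']
  rcases Nat.lt_or_ge N t with h1 | h1
  · rw [if_neg (by omega)]
  · rw [if_pos (by omega)]
    omega

lemma tri_add (N t j : ℕ) : tri N (2 * N * j + t) = tri N t := by
  unfold tri
  rw [Nat.mul_add_mod]

lemma zt_dbl (w : List α) (j : ℕ) :
    zt A w (2 * ((w.length + 2) ^ k - 1) * j) = (dbl A w)^[j] (z0 A) := by
  unfold zt
  generalize hL' : (w.length + 2) ^ k - 1 = L at *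
  induction j with
  | zero => rfl
  | succ j ih =>
    have e1 : 2 * L * (j + 1) = 2 * L * j + (L + L) := by ring
    rw [e1, iter_add, ih, iter_add, Function.iterate_succ_apply']
    unfold dbl
    rw [hL']
    have e2 : ∀ z, iter (fun i z => tz A z (lab k w (tri L (2 * L * j + i)))) L z =
        iter (fun j z => tz A z (lab k w j)) L z := by
      intro z
      refine iter_congr ?_ z
      intro i hi
      rw [tri_add, tri_lt hi]
    have e3 : ∀ z, iter (fun i z => tz A z (lab k w (tri L (2 * L * j + (L + i))))) L z =
        iter (fun j z => tz A z (lab k w (L - j))) L z := by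
      intro z
      refine iter_congr ?_ z
      intro i hi
      rw [tri_add, tri_ge (by omega) (by omega)]
      have : 2 * L - (L + i) = L - i := by omega
      rw [this]
    rw [← e2, ← e3]

lemma zt_mono (w : List α) (t u : ℕ) (h : t ≤ u) : (zt A w t).2 → (zt A w u).2 := by
  induction u, h using Nat.le_induction with
  | base => exact id
  | succ u hu ih => intro h1; exact Or.inl (ih h1)

/-- The languages of grid-sweeping nondeterministic finite automata are regular. -/
theorem gridSweeping_regular [Finite α] (hk : 1 ≤ k) (hA : A.GridSweeping) :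
    Language.IsRegular (A.lang : Language α) := by
  have hs := finite_Sym α
  have hQ := A.finQ
  -- the two sweeps
  have h1 := recog_snake (α := α) k (delay A) false
  have h2 := recog_snake (α := α) k (delay A) true
  have h3 := (h1.pair h2).comp (fun p : ((Option (Fin k → Sym α) × (Set A.Q × Prop)) →
    (Option (Fin k → Sym α) × (Set A.Q × Prop))) × ((Option (Fin k → Sym α) × (Set A.Q × Prop)) →
    (Option (Fin k → Sym α) × (Set A.Q × Prop))) =>
    ∃ j : ℕ, ((fun z => (p.2 (none, (p.1 (none, z)).2)).2)^[j] (z0 A)).2)
  obtain ⟨S, hS, s0, step, out, h⟩ := h3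
  have := Fintype.ofFinite S
  refine ⟨S, inferInstance, ⟨step, s0, {s | out s}⟩, ?_⟩
  ext w
  show out (w.foldl step s0) ↔ w ∈ A.lang
  rw [← h w, mem_lang_iff A hA w]
  obtain ⟨k, rfl⟩ : ∃ j, k = j + 1 := ⟨k - 1, by omega⟩
  have hL := one_le_len k w.length
  have hpow : (w.length + 2) ^ (k + 1) = (w.length + 2) ^ (k + 1) - 1 + 1 := by omega
  have hdbl : (fun z => (iter (fun j s => delay A s (lab (k + 1) w
        (ord true ((w.length + 2) ^ (k + 1) - 1) j))) ((w.length + 2) ^ (k + 1))
        (none, (iter (fun j s => delay A s (lab (k + 1) w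
        (ord false ((w.length + 2) ^ (k + 1) - 1) j))) ((w.length + 2) ^ (k + 1))
        (none, z)).2)).2) = dbl A w := by
    funext z
    have e1 := delay_iter A (fun j => lab (k + 1) w
      (ord false ((w.length + 2) ^ (k + 1) - 1) j)) z ((w.length + 2) ^ (k + 1) - 1)
    have e2 := fun z => delay_iter A (fun j => lab (k + 1) w
      (ord true ((w.length + 2) ^ (k + 1) - 1) j)) z ((w.length + 2) ^ (k + 1) - 1)
    rw [← hpow] at e1
    rw [e1]
    have e3 := e2 (iter (fun j z => tz A z (lab (k + 1) w
      (ord false ((w.length + 2) ^ (k + 1) - 1) j))) ((w.length + 2) ^ (k + 1) - 1) z)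
    rw [← hpow] at e3
    rw [e3]
    rfl
  show (∃ j : ℕ, ((fun z => (iter (fun j s => delay A s (lab (k + 1) w
        (ord true ((w.length + 2) ^ (k + 1) - 1) j))) ((w.length + 2) ^ (k + 1))
        (none, (iter (fun j s => delay A s (lab (k + 1) w
        (ord false ((w.length + 2) ^ (k + 1) - 1) j))) ((w.length + 2) ^ (k + 1))
        (none, z)).2)).2)^[j] (z0 A)).2) ↔ _
  rw [hdbl]
  constructor
  · rintro ⟨j, hj⟩
    rw [← zt_dbl A w] at hj
    exact ⟨_, hj⟩
  · rintro ⟨t, ht⟩
    refine ⟨t, ?_⟩
    rw [← zt_dbl A w]
    refine zt_mono A w t _ ?_ ht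
    nlinarith

end FAs

end Pool.Agent.Heads
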