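import Pool.Agent.Lib_helper16.Heads.Main

/-!
Runs under lock-step emulations; the grid version of the pop-then-push property.
-/

set_option autoImplicit false

namespace Pool.Agent.Heads

variable {ι : Type}

/-- A run of the emulating machine comes from a run of the emulated machine. -/
lemma Emul.run {X Y : Dev ι} (E : Emul X Y) (M : Mach X.C X.D) (w : ι)
    (r : ℕ → Cfg (M.Q × E.μ) Y.P M.Γ) (h0 : r 0 = ⟨(M.start, E.m0), Y.start, []⟩) (T : ℕ) :
    (∀ t < T, (E.mach M).Step Y w (r t) (r (t + 1))) →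
    ∃ r' : ℕ → Cfg M.Q X.P M.Γ, r' 0 = ⟨M.start, X.start, []⟩ ∧
      (∀ t < T, M.Step X w (r' t) (r' (t + 1))) ∧
      ∀ t ≤ T, (r' t).stack = (r t).stack ∧ (r' t).state = (r t).state.1 ∧
        E.ρ w (r' t).pos (r t).pos (r t).state.2 := by
  induction T with
  | zero =>
    intro _
    refine ⟨fun _ => ⟨M.start, X.start, []⟩, rfl, fun t ht => absurd ht (Nat.not_lt_zero t), ?_⟩
    intro t ht
    have : t = 0 := by omega
    subst this
    rw [h0]
    exact ⟨rfl, rfl, E.ρ0 w⟩
  | succ T ih =>
    intro hs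
    obtain ⟨r', h1, h2, h3⟩ := ih (fun t ht => hs t (by omega))
    obtain ⟨e1, e2, e3⟩ := h3 T le_rfl
    obtain ⟨tr, ⟨s, hs', rfl⟩, he⟩ := hs T (by omega)
    refine ⟨fun t => if t ≤ T then r' t else
      ⟨s.1, X.mv w (r' T).pos s.2.1, s.2.2.apply (r' T).stack⟩, ?_, ?_, ?_⟩
    · simp only [Nat.zero_le, if_true]
      exact h1
    · intro t ht
      rcases Nat.lt_or_ge t T with h | h
      · simp only [if_pos (show t ≤ T by omega), if_pos (show t + 1 ≤ T by omega)]
        exact h2 t h
      · have ht' : t = T := by omega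
        subst ht'
        simp only [le_refl, if_true, if_neg (show ¬ t + 1 ≤ t by omega)]
        refine ⟨s, ?_, rfl⟩
        rw [E.ρlab w _ _ _ e3, e1, e2]
        exact hs'
    · intro t ht
      rcases Nat.lt_or_ge T t with h | h
      · have ht' : t = T + 1 := by omega
        subst ht'
        simp only [if_neg (show ¬ T + 1 ≤ T by omega)]
        rw [he]
        refine ⟨?_, rfl, E.ρmv w _ _ _ e3 _⟩
        show s.2.2.apply (r' T).stack = s.2.2.apply (r T).stack
        rw [e1]
      · simp only [if_pos h]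
        exact h3 t h

variable {α : Type}

/-- Every pushdown automaton with `k + 1` heads is equivalent to one whose heads follow the
trajectory `traj k` and which never pops after a push in the same sweep. -/
theorem gridNormal (k : ℕ) (M : PDA α (k + 1)) : ∃ M' : PDA α (k + 1),
    M'.lang = M.lang ∧ (M.Det → M'.Det) ∧
      (∀ w t c, M'.Reach w t c → c.pos = traj k w.length t) ∧
      ∀ (w : List α) (T : ℕ) (r : ℕ → Cfg M'.Q (Fin (k + 1) → ℕ) M'.Γ), r 0 = M'.init →
        (∀ t < T, M'.Step w (r t) (r (t + 1))) →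
        ∀ t t' : ℕ, t < t' → t' < T → SameSweep (glen k w.length) t t' →
          (r t).stack.length < (r (t + 1)).stack.length →
          (r t').stack.length ≤ (r (t' + 1)).stack.length := by
  obtain ⟨M1, h1, h2⟩ := toTrack α k M.toMach
  let M2 := SweepT.sweep (TT α k) M1
  let M3 := (toPi α k).mach M2
  refine ⟨Mach.toPDA M3, ?_, ?_, ?_, ?_⟩
  · exact (Mach.lang_toPDA M3).trans (((toPi α k).mach_lang M2).trans
      ((SweepT.sweep_lang (TT α k) M1).trans (h1.trans M.lang_toMach)))
  · intro hd
    exact (toPi α k).mach_det M2 (SweepT.sweep_det (TT α k) M1 (h2 hd))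
  · intro w t c hc
    obtain ⟨x, h3, h4⟩ := (toPi α k).mach_reach M2 w t c ((Mach.reach_toPDA M3 w t c).1 hc)
    have h5 := SweepT.sweep_pos (TT α k) M1 w t _ h3
    have h6 := toPi_pos α k w x c.pos _ h4
    rw [h6, traj, ← TT_N]
    show grid k w.length x = _
    have h5' : x = tri ((TT α k).N w) t := h5
    rw [h5']
  · intro w T r h0 hs t t' htt ht' hsame hg
    obtain ⟨r', e1, e2, e3⟩ := (toPi α k).run M2 w r h0 T hs
    rw [← TT_N] at hsame
    have key := SweepT.sweep_popThenPush (TT α k) M1 w T r' e1 e2 t t' htt ht' hsame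
    rw [(e3 t (by omega)).1, (e3 (t + 1) (by omega)).1, (e3 t' (by omega)).1,
      (e3 (t' + 1) (by omega)).1] at key
    exact key hg

end Pool.Agent.Heads
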