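import Pool.Agent.Lib_helper16.Heads.RegSnake

/-!
Regular languages are accepted by grid-sweeping finite automata; the language `a^n b^n` is
accepted by a grid-sweeping deterministic pushdown automaton and is not regular.
-/

set_option autoImplicit false

namespace Pool.Agent.Heads

variable {α : Type}

/-! ### Regular languages -/

/-- The symbol scanned by the last head, from the label of the track. -/
def lastSym (α : Type) : (k : ℕ) → (TT α k).B → Sym α
  | 0, b => b
  | _ + 1, b => b.2.1

lemma lastSym_lab (k : ℕ) (w : List α) {x : ℕ} (hx : x ≤ w.length + 1) :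
    lastSym α k ((TT α k).lab w x) = tape w x := by
  cases k with
  | zero => rfl
  | succ k =>
    have h := dec_at (N2 := (base α).N w) (p1 := 0) (r := x) hx
    simp only [Nat.zero_mul, Nat.zero_add] at h
    show tape w (dec ((base α).N w) x).2 = _
    rw [h, idx_even rfl]

/-- The transitions of the machine on the track simulating a finite automaton. -/
def dfaStep {σ : Type} (M : DFA α σ) (k : ℕ) (s : σ) (b : (TT α k).B) :
    Sym α → Set ((σ ⊕ Unit) × Dir × Op Empty)
  | Sym.left => {(Sum.inl s, Dir.R, Op.none)}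
  | Sym.letter a => {(Sum.inl (M.step s a), Dir.R, Op.none)}
  | Sym.right => {t | s ∈ M.accept ∧
      t = (Sum.inr (), (if (TT α k).isR b then Dir.L else Dir.R), Op.none)}

/-- The machine on the track simulating a finite automaton. -/
def dfaMach {σ : Type} [Finite σ] (M : DFA α σ) (k : ℕ) : Mach (TT α k).B Dir where
  Q := σ ⊕ Unit
  Γ := Empty
  finQ := inferInstance
  finΓ := inferInstance
  start := Sum.inl M.start
  accept := {Sum.inr ()}
  δ := fun q b _ => match q with
    | Sum.inl s => dfaStep M k s b (lastSym α k b)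
    | Sum.inr _ => ∅

lemma glen_ge (k n : ℕ) : n + 1 ≤ glen k n := by
  induction k with
  | zero => exact le_rfl
  | succ k ih =>
    show n + 1 ≤ (glen k n + 1) * (n + 2) - 1
    have : 1 * (n + 2) ≤ (glen k n + 1) * (n + 2) := Nat.mul_le_mul_right _ (by omega)
    omega

lemma dfaMach_det {σ : Type} [Finite σ] (M : DFA α σ) (k : ℕ) : (dfaMach M k).Det := by
  intro q b g
  rcases q with s | u
  · show (dfaStep M k s b (lastSym α k b)).Subsingleton
    cases lastSym α k b with
    | left => exact Set.subsingleton_singleton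
    | letter a => exact Set.subsingleton_singleton
    | right =>
      rintro t ⟨-, rfl⟩ t' ⟨-, rfl⟩
      rfl
  · exact Set.subsingleton_empty

/-- The configuration at time `t ≤ |w| + 1`. -/
def dfaCfg {σ : Type} (M : DFA α σ) (w : List α) (t : ℕ) : Cfg (σ ⊕ Unit) ℕ Empty :=
  ⟨Sum.inl (M.eval (w.take (t - 1))), t, []⟩

lemma dfa_reach {σ : Type} [Finite σ] (M : DFA α σ) (k : ℕ) (w : List α) (t : ℕ)
    (c : Cfg (σ ⊕ Unit) ℕ Empty) :
    (dfaMach M k).Reach (TT α k).dev w t c ↔
      (t ≤ w.length + 1 ∧ c = dfaCfg M w t) ∨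
      (t = w.length + 2 ∧ M.eval w ∈ M.accept ∧
        c = ⟨Sum.inr (), move ((TT α k).N w) (w.length + 1)
          (if (TT α k).isR ((TT α k).lab w (w.length + 1)) then Dir.L else Dir.R), []⟩) := by
  have hN : w.length + 1 ≤ (TT α k).N w := by
    rw [TT_N]
    exact glen_ge k w.length
  -- one step
  have hstep : ∀ t, t ≤ w.length + 1 → ∀ c',
      (dfaMach M k).Step (TT α k).dev w (dfaCfg M w t) c' ↔
      (t ≤ w.length ∧ c' = dfaCfg M w (t + 1)) ∨
      (t = w.length + 1 ∧ M.eval w ∈ M.accept ∧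
        c' = ⟨Sum.inr (), move ((TT α k).N w) (w.length + 1)
          (if (TT α k).isR ((TT α k).lab w (w.length + 1)) then Dir.L else Dir.R), []⟩) := by
    intro t ht c'
    have hs : (dfaMach M k).Step (TT α k).dev w (dfaCfg M w t) c' ↔
        ∃ tr ∈ dfaStep M k (M.eval (w.take (t - 1))) ((TT α k).lab w t)
          (lastSym α k ((TT α k).lab w t)),
          c' = ⟨tr.1, move ((TT α k).N w) t tr.2.1, tr.2.2.apply []⟩ := Iff.rfl
    rw [hs, lastSym_lab k w ht]
    rcases Nat.eq_zero_or_pos t with h0 | h0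
    · subst h0
      constructor
      · rintro ⟨tr, htr, rfl⟩
        have htr' : tr = (Sum.inl (M.eval (w.take (0 - 1))), Dir.R, Op.none) := htr
        subst htr'
        left
        refine ⟨Nat.zero_le _, ?_⟩
        have : move ((TT α k).N w) 0 Dir.R = 1 := by simp only [move]; omega
        show (⟨_, move ((TT α k).N w) 0 Dir.R, _⟩ : Cfg (σ ⊕ Unit) ℕ Empty) = _
        rw [this]
        rfl
      · rintro (⟨-, rfl⟩ | ⟨h, -⟩)
        · refine ⟨(Sum.inl (M.eval (w.take (0 - 1))), Dir.R, Op.none), rfl, ?_⟩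
          have : move ((TT α k).N w) 0 Dir.R = 1 := by simp only [move]; omega
          show _ = (⟨_, move ((TT α k).N w) 0 Dir.R, _⟩ : Cfg (σ ⊕ Unit) ℕ Empty)
          rw [this]
          rfl
        · omega
    · obtain ⟨p, rfl⟩ : ∃ p, t = p + 1 := ⟨t - 1, by omega⟩
      rcases Nat.lt_or_ge p w.length with hp | hp
      · rw [tape_succ_lt w hp]
        have hmv : move ((TT α k).N w) (p + 1) Dir.R = p + 2 := by simp only [move]; omega
        have hev : M.eval (w.take (p + 1)) = M.step (M.eval (w.take p)) w[p] := by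
          rw [List.take_succ_eq_append_getElem hp, DFA.eval_append_singleton]
        constructor
        · rintro ⟨tr, htr, rfl⟩
          have htr' : tr = (Sum.inl (M.step (M.eval (w.take p)) w[p]), Dir.R, Op.none) := htr
          subst htr'
          left
          refine ⟨by omega, ?_⟩
          show (⟨_, move ((TT α k).N w) (p + 1) Dir.R, _⟩ : Cfg (σ ⊕ Unit) ℕ Empty) = _
          rw [hmv, ← hev]
          rfl
        · rintro (⟨-, rfl⟩ | ⟨h, -⟩)
          · refine ⟨(Sum.inl (M.step (M.eval (w.take p)) w[p]), Dir.R, Op.none), rfl, ?_⟩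
            show _ = (⟨_, move ((TT α k).N w) (p + 1) Dir.R, _⟩ : Cfg (σ ⊕ Unit) ℕ Empty)
            rw [hmv, ← hev]
            rfl
          · omega
      · have hp' : p = w.length := by omega
        subst hp'
        rw [tape_end]
        constructor
        · rintro ⟨tr, ⟨h1, rfl⟩, rfl⟩
          right
          refine ⟨rfl, ?_, rfl⟩
          have h1' : M.eval (w.take w.length) ∈ M.accept := h1
          rwa [List.take_length] at h1'
        · rintro (⟨h, -⟩ | ⟨-, h, rfl⟩)
          · omega
          · refine ⟨_, ⟨?_, rfl⟩, rfl⟩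
            show M.eval (w.take w.length) ∈ M.accept
            rwa [List.take_length]
  have hstuck : ∀ x c', ¬ (dfaMach M k).Step (TT α k).dev w ⟨Sum.inr (), x, []⟩ c' := by
    rintro x c' ⟨tr, htr, -⟩
    exact htr
  constructor
  · intro h
    induction h with
    | zero => exact Or.inl ⟨Nat.zero_le _, rfl⟩
    | @succ t a a' h1 h2 ih =>
      rcases ih with ⟨h3, rfl⟩ | ⟨-, -, rfl⟩
      · rcases (hstep t h3 a').1 h2 with ⟨h4, h5⟩ | ⟨h4, h5, h6⟩
        · exact Or.inl ⟨by omega, h5⟩
        · exact Or.inr ⟨by omega, h5, h6⟩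
      · exact absurd h2 (hstuck _ _)
  · have hA : ∀ t, t ≤ w.length + 1 →
        (dfaMach M k).Reach (TT α k).dev w t (dfaCfg M w t) := by
      intro t
      induction t with
      | zero => intro _; exact ReachN.zero
      | succ t ih =>
        intro ht
        exact ReachN.succ (ih (by omega)) ((hstep t (by omega) _).2 (Or.inl ⟨by omega, rfl⟩))
    rintro (⟨h1, rfl⟩ | ⟨rfl, h1, rfl⟩)
    · exact hA t h1
    · exact ReachN.succ (hA _ le_rfl) ((hstep _ le_rfl _).2 (Or.inr ⟨rfl, h1, rfl⟩))

lemma dfaMach_lang {σ : Type} [Finite σ] (M : DFA α σ) (k : ℕ) :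
    (dfaMach M k).lang (TT α k).dev = (M.accepts : Set (List α)) := by
  ext w
  constructor
  · rintro ⟨t, c, h1, h2⟩
    rcases (dfa_reach M k w t c).1 h1 with ⟨-, rfl⟩ | ⟨-, h3, -⟩
    · have h2' : (Sum.inl (M.eval (w.take (t - 1))) : σ ⊕ Unit) = Sum.inr () := h2
      exact absurd h2' (by simp)
    · exact h3
  · intro h
    exact ⟨_, _, (dfa_reach M k w _ _).2 (Or.inr ⟨rfl, h, rfl⟩), rfl⟩

lemma dfaMach_pos {σ : Type} [Finite σ] (M : DFA α σ) (k : ℕ) (w : List α) (t : ℕ)
    (c : Cfg (σ ⊕ Unit) ℕ Empty) (h : (dfaMach M k).Reach (TT α k).dev w t c) :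
    c.pos = tri ((TT α k).N w) t := by
  have hN : w.length + 1 ≤ (TT α k).N w := by
    rw [TT_N]
    exact glen_ge k w.length
  rcases (dfa_reach M k w t c).1 h with ⟨h1, rfl⟩ | ⟨rfl, -, rfl⟩
  · show t = _
    rcases Nat.lt_or_ge t ((TT α k).N w) with h2 | h2
    · rw [tri_lt h2]
    · have : t = (TT α k).N w := by omega
      rw [tri_ge h2 (by omega)]
      omega
  · show move ((TT α k).N w) (w.length + 1) _ = _
    have hR := (TT α k).hR w (w.length + 1) hN
    rcases Nat.lt_or_ge (w.length + 1) ((TT α k).N w) with h2 | h2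
    · rw [if_neg (by rw [hR]; omega)]
      rcases Nat.lt_or_ge (w.length + 2) ((TT α k).N w) with h3 | h3
      · rw [tri_lt h3]
        simp only [move]; omega
      · rw [tri_ge h3 (by omega)]
        simp only [move]; omega
    · rw [if_pos (by rw [hR]; omega)]
      have h3 : (TT α k).N w = w.length + 1 := by omega
      rw [h3]
      simp only [move]
      unfold tri
      rcases Nat.eq_zero_or_pos w.length with h4 | h4
      · rw [h4]
        rfl
      · rw [Nat.mod_eq_of_lt (by omega), if_neg (by omega)]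
        omega

lemma Mach.reach_toFA {k : ℕ} (M : Mach (Fin k → Sym α) (Fin k → Dir)) (hM : IsEmpty M.Γ)
    (w : List α) (t : ℕ) (c : M.Q × (Fin k → ℕ))
    (h : ReachN (M.toFA.Step w) (M.start, fun _ => 0) t c) :
    M.Reach (piDev (Fin k) (headDev α)) w t (⟨c.1, c.2, []⟩ : Cfg M.Q (Fin k → ℕ) M.Γ) := by
  have hnil : ∀ s : List M.Γ, s = [] := by
    intro s
    cases s with
    | nil => rfl
    | cons a s => exact hM.elim a
  induction h with
  | zero => exact ReachN.zero
  | succ h1 h2 ih =>
    obtain ⟨s, ⟨tr, htr, rfl⟩, rfl⟩ := h2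
    refine ReachN.succ ih ⟨tr, htr, ?_⟩
    rw [hnil (tr.2.2.apply _)]
    rfl

/-- Regular languages are accepted by grid-sweeping deterministic finite automata. -/
theorem regular_gridSweeping {σ : Type} [Finite σ] (M : DFA α σ) (k : ℕ) (hk : 1 ≤ k) :
    ∃ A : FA α k, A.Det ∧ A.lang = (M.accepts : Set (List α)) ∧ A.GridSweeping := by
  obtain ⟨k, rfl⟩ : ∃ j, k = j + 1 := ⟨k - 1, by omega⟩
  let M' : Mach (Fin (k + 1) → Sym α) (Fin (k + 1) → Dir) := (toPi α k).mach (dfaMach M k)
  have hΓ : IsEmpty M'.Γ := (inferInstance : IsEmpty Empty)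
  refine ⟨M'.toFA, Mach.det_toFA M' ((toPi α k).mach_det _ (dfaMach_det M k)), ?_, ?_⟩
  · exact (Mach.lang_toFA M' hΓ).trans (((toPi α k).mach_lang _).trans (dfaMach_lang M k))
  · intro w t c hc
    have h1 := Mach.reach_toFA M' hΓ w t c hc
    obtain ⟨x, h2, h3⟩ := (toPi α k).mach_reach (dfaMach M k) w t _ h1
    have h4 := dfaMach_pos M k w t _ h2
    have h5 := toPi_pos α k w x c.2 _ h3
    have h4' : x = tri ((TT α k).N w) t := h4
    rw [h5, h4', TT_N, ← traj_eq]
    rfl

end Pool.Agent.Heads
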