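import Pool.Agent.Lib_helper16.Heads.Dev

/-!
Tracks: linear tapes with cells `0, …, N` whose labels tell the two ends.
-/

set_option autoImplicit false

namespace Pool.Agent.Heads

instance : Finite Dir :=
  Finite.of_injective (fun d : Dir => match d with | .L => (0 : Fin 3) | .S => 1 | .R => 2)
    (by intro a b h; cases a <;> cases b <;> simp_all)

/-- A track: a tape with cells `0, …, N w`, labelled by elements of `B`, on which the two ends
can be recognised. -/
structure Track (ι : Type) where
  B : Type
  N : ι → ℕ
  lab : ι → ℕ → B
  isL : B → Bool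
  isR : B → Bool
  hN : ∀ w, 1 ≤ N w
  hL : ∀ w p, p ≤ N w → (isL (lab w p) = true ↔ p = 0)
  hR : ∀ w p, p ≤ N w → (isR (lab w p) = true ↔ p = N w)

/-- Kinds of cells. -/
inductive Kd where
  | left | mid | right

variable {ι : Type}

namespace Track

variable (T : Track ι)

/-- The kind of a label. -/
def kd (b : T.B) : Kd := if T.isL b then Kd.left else if T.isR b then Kd.right else Kd.mid

/-- A head on a track. -/
@[reducible] def dev : Dev ι where
  P := ℕ
  C := T.B
  D := Dir
  start := 0
  lab := T.lab
  mv := fun w p d => move (T.N w) p d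

lemma kd_zero (w : ι) : T.kd (T.lab w 0) = Kd.left := by
  have h := (T.hL w 0 (Nat.zero_le _)).2 rfl
  simp [kd, h]

lemma kd_mid (w : ι) {p : ℕ} (h0 : 0 < p) (h1 : p < T.N w) : T.kd (T.lab w p) = Kd.mid := by
  have h := T.hL w p h1.le
  have h' := T.hR w p h1.le
  have e1 : T.isL (T.lab w p) = false := by
    rw [Bool.eq_false_iff]
    intro h2
    have := h.1 h2
    omega
  have e2 : T.isR (T.lab w p) = false := by
    rw [Bool.eq_false_iff]
    intro h2
    have := h'.1 h2
    omega
  simp [kd, e1, e2]

lemma kd_last (w : ι) : T.kd (T.lab w (T.N w)) = Kd.right := by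
  have h := T.hL w (T.N w) le_rfl
  have h' := (T.hR w (T.N w) le_rfl).2 rfl
  have hN := T.hN w
  have e1 : T.isL (T.lab w (T.N w)) = false := by
    rw [Bool.eq_false_iff]
    intro h2
    have := h.1 h2
    omega
  simp [kd, e1, h']

lemma kd_cases (w : ι) {p : ℕ} (hp : p ≤ T.N w) :
    (p = 0 ∧ T.kd (T.lab w p) = Kd.left) ∨ (0 < p ∧ p < T.N w ∧ T.kd (T.lab w p) = Kd.mid) ∨
      (p = T.N w ∧ T.kd (T.lab w p) = Kd.right) := by
  rcases Nat.eq_zero_or_pos p with h | h
  · subst h; exact Or.inl ⟨rfl, T.kd_zero w⟩
  · rcases Nat.lt_or_ge p (T.N w) with h1 | h1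
    · exact Or.inr (Or.inl ⟨h, h1, T.kd_mid w h h1⟩)
    · have : p = T.N w := by omega
      subst this
      exact Or.inr (Or.inr ⟨rfl, T.kd_last w⟩)

end Track

lemma move_le (N p : ℕ) (d : Dir) (h : p ≤ N) : move N p d ≤ N := by
  cases d <;> simp [move] <;> omega

/-- The tape `⊢ w ⊣` as a track. -/
def base (α : Type) : Track (List α) where
  B := Sym α
  N := fun w => w.length + 1
  lab := tape
  isL := fun s => match s with | Sym.left => true | _ => false
  isR := fun s => match s with | Sym.right => true | _ => false
  hN := fun w => by omega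
  hL := by
    intro w p hp
    cases p with
    | zero => simp [tape]
    | succ p =>
      cases h : w[p]? <;> simp [tape, h]
  hR := by
    intro w p hp
    cases p with
    | zero => simp [tape]
    | succ p =>
      cases h : w[p]? with
      | none =>
        have := List.getElem?_eq_none_iff.1 h
        simp [tape, h]
        omega
      | some a =>
        have : p < w.length := by
          by_contra h1
          have := List.getElem?_eq_none_iff.2 (show w.length ≤ p by omega)
          rw [this] at h
          exact absurd h (by simp)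
        simp [tape, h]
        omega

end Pool.Agent.Heads
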